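import Mathlib

namespace Pool.Agent.Lib.MP_509dcf_co

/-- The Euclidean plane. -/
abbrev E : Type := EuclideanSpace ℝ (Fin 2)

/-- All distances between distinct points are at least one. -/
def Sep (A : Finset E) : Prop := ∀ x ∈ A, ∀ y ∈ A, x ≠ y → 1 ≤ dist x y

/-- A separated `n`-point set of least diameter. -/
def IsMin (n : ℕ) (A : Finset E) : Prop :=
  A.card = n ∧ Sep A ∧ ∀ C : Finset E, C.card = n → Sep C →
    Metric.diam (A : Set E) ≤ Metric.diam (C : Set E)

/-- Congruence under isometries of the plane. -/
def Congr (A B : Finset E) : Prop := ∃ f : E ≃ᵢ E, f '' (A : Set E) = (B : Set E)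

/-- The point `x` is not an endpoint of a diameter of `A`. -/
def Inner (A : Finset E) (x : E) : Prop := ∀ y ∈ A, dist x y < Metric.diam (A : Set E)

/-- The unordered pairs of points of `A` at distance exactly one with a point in `S`. -/
def contacts (A S : Finset E) : Set (Sym2 E) :=
  {e | ∃ x ∈ S, ∃ y ∈ A, dist x y = 1 ∧ e = s(x, y)}

end Pool.Agent.Lib.MP_509dcf_co
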