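import Pool.Agent.Lib.MP_509dcf_co.Rows

/-!
One exchange of points for every short primitive direction.
-/

open Finset

namespace Pool.Agent.Lib.MP_509dcf_co.Rows

variable {l s h D : ℝ}

/-- A maximal set of diameter at most `D` has height at least `D - 3 h` if the rows are dense. -/
lemma tall' (hl : 0 < l) (hh : 0 < h) (hD : h ≤ D) (h2 : l ^ 2 ≤ h * D) {A : Finset (ℤ × ℤ)}
    (hA : Good l s h D A) (hmax : ∀ p, (∀ q ∈ A, Ok l s h D p q) → p ∈ A) {P Q : ℤ × ℤ} (hP : P ∈ A)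
    (top : ∀ q ∈ A, q.2 ≤ P.2) (bot : ∀ q ∈ A, Q.2 ≤ q.2) :
    D - 3 * h ≤ h * P.2 - h * Q.2 := by
  by_contra hc
  have t : ∀ q ∈ A, h * q.2 ≤ h * P.2 := fun q hq =>
    mul_le_mul_of_nonneg_left (by exact_mod_cast top q hq) hh.le
  have b : ∀ q ∈ A, h * Q.2 ≤ h * q.2 := fun q hq =>
    mul_le_mul_of_nonneg_left (by exact_mod_cast bot q hq) hh.le
  obtain ⟨p, hp, q, hq, e⟩ := extend (s := s) (h := h) (D := D) hl ⟨P, hP⟩ (P.2 + 1)
    (fun q hq => by push_cast; nlinarith [t q hq, b q hq])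
    fun i c => by have := top _ (hmax _ c); simp at this
  obtain ⟨p', hp', q', hq', e'⟩ := extend (s := s) (h := h) (D := D) hl ⟨P, hP⟩ (Q.2 - 1)
    (fun q hq => by push_cast; nlinarith [t q hq, b q hq])
    fun i c => by have := bot _ (hmax _ c); simp at this
  obtain ⟨a1, -, a2⟩ := ok_iff.1 (hA q hq p' hp')
  obtain ⟨b1, -, b2⟩ := ok_iff.1 (hA q' hq' p hp)
  push_cast at e e'
  rw [← f_neg D (h * (Q.2 - 1) - _), ← f_neg D (h * (Q.2 - 1) - _)] at e'
  have hH : (h * P.2 - h * Q.2 + 2 * h) ^ 2 ≤ D ^ 2 - l ^ 2 := by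
    have k := pow_le_pow_left₀ (show 0 ≤ h * P.2 - h * Q.2 + 2 * h by linarith [b P hP])
      (show h * P.2 - h * Q.2 + 2 * h ≤ D - h by linarith) 2
    nlinarith
  have c0 : l ≤ f D (h * P.2 - h * Q.2 + 2 * h) := Real.le_sqrt_of_sq_le (by linarith)
  have c1 := conc (D := D) (H := h * P.2 - h * Q.2 + 2 * h) (u := -(h * q.2 - h * p'.2))
    (s := h * (P.2 + 1) - h * q.2) (t := -(h * (Q.2 - 1) - h * p'.2)) (by nlinarith)
    (by rwa [neg_sq]) (by linarith [b q hq]) (by linarith [t p' hp']) (by ring)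
  have c2 := conc (D := D) (H := h * P.2 - h * Q.2 + 2 * h) (u := h * q'.2 - h * p.2)
    (s := h * (P.2 + 1) - h * p.2) (t := -(h * (Q.2 - 1) - h * q'.2)) (by nlinarith)
    b1 (by linarith [b p hp]) (by linarith [t q' hq']) (by ring)
  rw [f_neg] at c1
  linarith

/-- The determinant of two integer vectors. -/
def det (u z : ℤ × ℤ) : ℤ := u.1 * z.2 - u.2 * z.1

/-- The squared length of a lattice vector. -/
def nsq (l s h : ℝ) (u : ℤ × ℤ) : ℝ := X l s u ^ 2 + (h * u.2) ^ 2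

/-- The extreme row of direction `u` can be extended by `u` at the cost of one point. -/
def Ext (l s h D : ℝ) (A : Finset (ℤ × ℤ)) (u : ℤ × ℤ) : Prop :=
  ∃ P ∈ A, ∃ Q ∈ A, (∀ z ∈ A, det u z ≤ det u P) ∧ P + u ∉ A ∧
    (∀ z ∈ A, z ≠ Q → Ok l s h D (P + u) z) ∧ 19 / 20 * D * √(nsq l s h u) ≤ l * h * det u (P - Q)

lemma ext0 (hl : 0 < l) {A : Finset (ℤ × ℤ)} (hA : Good l s h D A) {P Q : ℤ × ℤ} (hP : P ∈ A)
    (hQ : Q ∈ A) (top : ∀ q ∈ A, q.2 ≤ P.2 ∧ (q.2 = P.2 → q.1 ≤ P.1))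
    (bot : ∀ q ∈ A, q.2 = Q.2 → Q.1 ≤ q.1) (hK : 19 / 20 * D ≤ h * P.2 - h * Q.2)
    (H : ∀ z ∈ A, z.2 ≠ Q.2 → Ok l s h D (P.1 + 1, P.2) z) : Ext l s h D A (1, 0) := by
  have e : P + (1, 0) = (P.1 + 1, P.2) := by ext <;> simp
  refine ⟨P, hP, Q, hQ, fun z hz => by simpa [det] using (top z hz).1, fun c => ?_, fun y yA yQ => ?_, ?_⟩
  · have := (top _ c).2 (by simp)
    simp at this
  · rw [e]
    by_cases c : y.2 = Q.2
    swap
    · exact H y yA c
    have y1 : Q.1 + 1 ≤ y.1 := lt_of_le_of_ne (bot y yA c) fun c' => yQ (Prod.ext c'.symm c)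
    have y2 : l * (Q.1 + 1) ≤ l * y.1 := mul_le_mul_of_nonneg_left (by exact_mod_cast y1) hl.le
    obtain ⟨a1, a2, -⟩ := ok_iff.1 (hA P hP y yA)
    obtain ⟨-, -, b2⟩ := ok_iff.1 (hA P hP Q hQ)
    refine ok_iff.2 ⟨a1, ?_, ?_⟩ <;> simp only [X, c] at * <;> push_cast <;> linarith
  · have : √(nsq l s h (1, 0)) = l := by simp [nsq, X, hl.le]
    rw [this]
    simp only [det, Prod.fst_sub, Prod.snd_sub]
    push_cast
    nlinarith

lemma base (hl : 0 < l) (hh : 0 < h) (h1 : 60 * h ≤ D) (h2 : 64000 * l ^ 2 ≤ h * D)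
    {A : Finset (ℤ × ℤ)} (hA : Good l s h D A) (h0 : A.Nonempty)
    (hmax : ∀ p, (∀ q ∈ A, Ok l s h D p q) → p ∈ A) :
    Ext l s h D A (1, 0) ∨ Ext l s h D (A.image Neg.neg) (1, 0) := by
  obtain ⟨P, hP, top⟩ := exists_ends h0
  obtain ⟨Q', hQ', bot'⟩ := exists_ends (h0.image Neg.neg)
  obtain ⟨Q, hQ, rfl⟩ := mem_image.1 hQ'
  have bot : ∀ q ∈ A, Q.2 ≤ q.2 ∧ (q.2 = Q.2 → Q.1 ≤ q.1) := fun q hq => by
    simpa using bot' _ (mem_image_of_mem _ hq)
  have hK := tall' hl hh (by linarith) (by nlinarith) hA hmax hP (fun q hq => (top q hq).1)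
    fun q hq => (bot q hq).1
  rcases swap (T := 1) (δ := 3 * h) hl hh (by linarith) le_rfl (by linarith)
    (by
      have := mul_le_mul_of_nonneg_left h2 (pow_pos hh 3).le
      push_cast
      nlinarith) hA hP hQ (fun q hq => (top q hq).1) (fun q hq => (bot q hq).1) hK with H | H
  · exact .inl (ext0 hl hA hP hQ top (fun q hq => (bot q hq).2) (by linarith)
      (by simpa using H 1 le_rfl))
  · refine .inr (ext0 hl hA.neg hQ' (mem_image_of_mem _ hP) bot' (fun q hq => ?_)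
      (by simp only [Prod.snd_neg]; push_cast; linarith) fun z hz c => ?_)
    · obtain ⟨q, a, rfl⟩ := mem_image.1 hq
      simpa using (top q a).2
    · obtain ⟨z, a, rfl⟩ := mem_image.1 hz
      convert (H 1 le_rfl z a (by simpa using c)).neg using 1
      ext <;> simp [neg_add_eq_sub]

/-- Coordinates in another basis. -/
def chg (a b c d : ℤ) (z : ℤ × ℤ) : ℤ × ℤ := (d * z.1 - c * z.2, a * z.2 - b * z.1)

lemma chg_ok {a b c d : ℤ} (e : a * d - b * c = 1) {N : ℝ} (N0 : 0 < N) (hN : N ^ 2 = nsq l s h (a, b))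
    (p q : ℤ × ℤ) : Ok N (((l * a + s * b) * (l * c + s * d) + h ^ 2 * b * d) / N) (l * h / N) D
      (chg a b c d p) (chg a b c d q) ↔ Ok l s h D p q := by
  have e' : (a : ℝ) * d - b * c = 1 := by exact_mod_cast e
  simp only [nsq, X] at hN
  set G := (l * a + s * b) * (l * c + s * d) + h ^ 2 * b * d with hG
  have e1 : N * (G / N) = G := by field_simp
  have e2 : (G / N) ^ 2 + (l * h / N) ^ 2 = (l * c + s * d) ^ 2 + (h * d) ^ 2 := by
    rw [div_pow, div_pow, ← add_div, div_eq_iff (by positivity), hN, hG]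
    linear_combination (-(l * h) ^ 2 * (a * d - b * c + 1)) * e'
  have key : ∀ i j : ℝ, (N * i + G / N * j) ^ 2 + (l * h / N * j) ^ 2 =
      (l * (a * i + c * j) + s * (b * i + d * j)) ^ 2 + (h * (b * i + d * j)) ^ 2 := fun i j => by
    linear_combination i ^ 2 * hN + 2 * i * j * e1 + j ^ 2 * e2 + 2 * i * j * hG
  have k := key (d * (p.1 - q.1) - c * (p.2 - q.2)) (a * (p.2 - q.2) - b * (p.1 - q.1))
  rw [show (a : ℝ) * (d * (p.1 - q.1) - c * (p.2 - q.2)) + c * (a * (p.2 - q.2) - b * (p.1 - q.1)) =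
      p.1 - q.1 by linear_combination (p.1 - q.1 : ℝ) * e',
    show (b : ℝ) * (d * (p.1 - q.1) - c * (p.2 - q.2)) + d * (a * (p.2 - q.2) - b * (p.1 - q.1)) =
      p.2 - q.2 by linear_combination (p.2 - q.2 : ℝ) * e'] at k
  simp only [Ok, X, chg]
  push_cast
  constructor <;> intro t <;> linarith

lemma Ext.of_chg {a b c d : ℤ} (e : a * d - b * c = 1) {N : ℝ} (N0 : 0 < N)
    (hN : N ^ 2 = nsq l s h (a, b)) {A : Finset (ℤ × ℤ)}
    (H : Ext N (((l * a + s * b) * (l * c + s * d) + h ^ 2 * b * d) / N) (l * h / N) D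
      (A.image (chg a b c d)) (1, 0)) : Ext l s h D A (a, b) := by
  obtain ⟨_, hP', _, hQ', h1, h2, h3, h4⟩ := H
  obtain ⟨P, hP, rfl⟩ := mem_image.1 hP'
  obtain ⟨Q, hQ, rfl⟩ := mem_image.1 hQ'
  have e1 : chg a b c d P + (1, 0) = chg a b c d (P + (a, b)) := by
    ext <;> simp only [chg, Prod.fst_add, Prod.snd_add]
    · linear_combination -e
    · ring
  refine ⟨P, hP, Q, hQ, fun z hz => ?_, fun c => h2 (e1 ▸ mem_image_of_mem _ c), fun z hz zQ => ?_, ?_⟩
  · simpa [det, chg] using h1 _ (mem_image_of_mem _ hz)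
  · refine (chg_ok e N0 hN _ _).1 (e1 ▸ h3 _ (mem_image_of_mem _ hz) fun t => zQ ?_)
    simp only [chg, Prod.mk.injEq] at t
    ext
    · linear_combination a * t.1 + c * t.2 - (z.1 - Q.1) * e
    · linear_combination b * t.1 + d * t.2 - (z.2 - Q.2) * e
  · rw [← hN, Real.sqrt_sq N0.le]
    have : √(nsq N (((l * a + s * b) * (l * c + s * d) + h ^ 2 * b * d) / N) (l * h / N) (1, 0)) = N := by
      simp [nsq, X, N0.le]
    rw [this, mul_div_cancel₀ _ N0.ne'] at h4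
    convert h4 using 3
    simp only [det, chg, Prod.fst_sub, Prod.snd_sub]
    ring

lemma dir (hl : 0 < l) (hh : 0 < h) (h1 : 60 * h ≤ D) {a b : ℤ} (cop : IsCoprime a b) {N : ℝ}
    (lN : l ≤ N) (hN : N ^ 2 = nsq l s h (a, b)) (h2 : 64000 * N ^ 3 ≤ l * h * D)
    {A : Finset (ℤ × ℤ)} (hA : Good l s h D A) (h0 : A.Nonempty)
    (hmax : ∀ p, (∀ q ∈ A, Ok l s h D p q) → p ∈ A) :
    Ext l s h D A (a, b) ∨ Ext l s h D (A.image Neg.neg) (a, b) := by
  obtain ⟨d, c, e⟩ := cop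
  have e' : a * d - b * -c = 1 := by linear_combination e
  have N0 : 0 < N := hl.trans_le lN
  have k : l * h / N ≤ h := by rw [div_le_iff₀ N0]; nlinarith
  rcases base (s := ((l * a + s * b) * (l * (-c : ℤ) + s * d) + h ^ 2 * b * d) / N) (D := D)
    (A := A.image (chg a b (-c) d)) N0 (show 0 < l * h / N by positivity) (by linarith)
    (by rw [div_mul_eq_mul_div, le_div_iff₀ N0]; linarith)
    (fun p hp' q hq' => by
      obtain ⟨p, hp, rfl⟩ := mem_image.1 hp'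
      obtain ⟨q, hq, rfl⟩ := mem_image.1 hq'
      exact (chg_ok e' N0 hN p q).2 (hA p hp q hq)) (h0.image _)
    (fun p hp => by
      have e2 : chg a b (-c) d (a * p.1 - c * p.2, b * p.1 + d * p.2) = p := by
        ext <;> simp only [chg]
        · linear_combination p.1 * e
        · linear_combination p.2 * e
      rw [← e2] at hp ⊢
      exact mem_image_of_mem _ (hmax _ fun q hq =>
        (chg_ok e' N0 hN _ _).1 (hp _ (mem_image_of_mem _ hq)))) with H | H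
  · exact .inl (H.of_chg e' N0 hN)
  · refine .inr (Ext.of_chg e' N0 hN ?_)
    convert H using 1
    rw [image_image, image_image]
    congr 1
    ext z <;> simp [chg] <;> ring

/-- The directions used: short and almost horizontal. -/
structure Flat (l s h D : ℝ) (u : ℤ × ℤ) : Prop where
  pos : 0 < X l s u
  cone : 20 * |h * u.2| ≤ X l s u
  short : 400 * nsq l s h u ≤ D ^ 2

lemma high (hD : 0 ≤ D) {u P Q : ℤ × ℤ} (hu : Flat l s h D u) (a : Ok l s h D P Q)
    (b : 19 / 20 * D * √(nsq l s h u) ≤ l * h * det u (P - Q)) : 9 / 10 * D ≤ h * P.2 - h * Q.2 := by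
  have a1 : |X l s P - X l s Q| ≤ D :=
    abs_le_of_sq_le_sq ((le_add_of_nonneg_right (sq_nonneg _)).trans a) hD
  have a2 : X l s u ≤ √(nsq l s h u) := Real.le_sqrt_of_sq_le (le_add_of_nonneg_right (sq_nonneg _))
  have e : l * h * det u (P - Q) =
      X l s u * (h * P.2 - h * Q.2) - h * u.2 * (X l s P - X l s Q) := by
    simp only [det, X, Prod.fst_sub, Prod.snd_sub]; push_cast; ring
  have a3 : -(h * u.2 * (X l s P - X l s Q)) ≤ |h * u.2| * D :=
    (neg_le_abs _).trans (by rw [abs_mul]; exact mul_le_mul_of_nonneg_left a1 (abs_nonneg _))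
  have a4 := mul_le_mul_of_nonneg_right hu.cone hD
  have a5 := mul_le_mul_of_nonneg_left a2 hD
  refine le_of_mul_le_mul_left ?_ hu.pos
  linarith

lemma close (hD : 0 ≤ D) {u u' P P' Z : ℤ × ℤ} (hu : Flat l s h D u) (hu' : Flat l s h D u')
    (a : Ok l s h D P Z) (a' : Ok l s h D P' Z) (b : 9 / 10 * D ≤ h * P.2 - h * Z.2)
    (b' : 9 / 10 * D ≤ h * P'.2 - h * Z.2) : Ok l s h D (P + u) (P' + u') := by
  have c := hu.short
  have c' := hu'.short
  have e : ∀ p q : ℤ × ℤ, X l s (p + q) = X l s p + X l s q := fun p q => by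
    simp only [X, Prod.fst_add, Prod.snd_add]; push_cast; ring
  simp only [Ok, nsq, e, Prod.snd_add] at *
  push_cast
  generalize X l s P = x at *
  generalize X l s P' = x' at *
  generalize X l s Z = z at *
  generalize X l s u = t at *
  generalize X l s u' = t' at *
  simp only [mul_add]
  generalize h * P.2 = y at *
  generalize h * P'.2 = y' at *
  generalize h * Z.2 = w at *
  generalize h * u.2 = r at *
  generalize h * u'.2 = r' at *
  have d1 := pow_le_pow_left₀ (by positivity) b 2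
  have d2 := pow_le_pow_left₀ (by positivity) b' 2
  have d3 := mul_le_mul b b' (by positivity) (by linarith)
  have k1 : (x - x') ^ 2 + (y - y') ^ 2 ≤ 19 / 25 * D ^ 2 := by nlinarith [sq_nonneg (x - z + (x' - z))]
  have k2 : (t - t') ^ 2 + (r - r') ^ 2 ≤ 1 / 100 * D ^ 2 := by
    nlinarith [sq_nonneg (t + t'), sq_nonneg (r + r')]
  nlinarith [sq_nonneg (x - x' - 8 * (t - t')), sq_nonneg (y - y' - 8 * (r - r'))]

lemma fam (hh : 0 < h) (hD : 0 ≤ D) {A : Finset (ℤ × ℤ)} (hA : Good l s h D A) (h0 : A.Nonempty)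
    {U : Finset (ℤ × ℤ)} (hU : ∀ u ∈ U, Flat l s h D u ∧ Ext l s h D A u)
    (inj : ∀ u ∈ U, ∀ u' ∈ U, det u u' = 0 → u = u') {n : ℕ} (hn : n ≤ #A) (hU' : #U ≤ n) :
    ∃ W : Finset (ℤ × ℤ), #W ≤ 2 * n ∧ ∃ B : Fin (2 ^ #U) → Finset (ℤ × ℤ), Function.Injective B ∧
      ∀ t, Good l s h D (B t) ∧ #(B t) = n ∧ B t ⊆ W := by
  choose! P hP Q hQ h1 h2 h3 h4 using fun u hu => (hU u hu).2
  obtain ⟨Z, hZ, bot⟩ := exists_min_image A Prod.snd h0
  have hi : ∀ u ∈ U, 9 / 10 * D ≤ h * (P u).2 - h * Z.2 := fun u hu => by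
    have := high hD (hU u hu).1 (hA _ (hP u hu) _ (hQ u hu)) (h4 u hu)
    have : h * Z.2 ≤ h * (Q u).2 :=
      mul_le_mul_of_nonneg_left (by exact_mod_cast bot _ (hQ u hu)) hh.le
    linarith
  have pi : Set.InjOn (fun u => P u + u) U := fun u hu u' hu' (e : P u + u = P u' + u') => by
    have a := h1 u hu _ (hP u' hu')
    have b := h1 u' hu' _ (hP u hu)
    rw [eq_sub_of_add_eq e.symm] at a
    rw [eq_sub_of_add_eq e] at b
    refine inj u hu u' hu' ?_
    simp only [det, Prod.fst_sub, Prod.snd_sub, Prod.fst_add, Prod.snd_add] at *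
    linarith
  obtain ⟨A', s1, c1⟩ := exists_subset_card_eq hn
  have k : ∀ S ⊆ U, ∃ B, Good l s h D B ∧ #B = n ∧ B ⊆ A' ∪ U.image (fun u => P u + u) ∧
      B \ A = S.image fun u => P u + u := fun S hS => by
    have c2 : #(S.image fun u => P u + u) = #S := card_image_of_injOn (pi.mono hS)
    have dj : ∀ x ∈ S.image fun u => P u + u, x ∉ A := fun x hx => by
      obtain ⟨u, hu, rfl⟩ := mem_image.1 hx
      exact h2 u (hS hu)
    obtain ⟨B, b1, b2, b3⟩ := exists_subsuperset_card_eq (s := S.image fun u => P u + u)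
      (t := A' \ S.image Q ∪ S.image fun u => P u + u) (n := n) subset_union_right
      (c2.trans_le ((card_le_card hS).trans hU')) (by
        rw [card_union_of_disjoint (disjoint_right.2 fun x hx c => dj x hx (s1 (mem_sdiff.1 c).1)), c2]
        have := le_card_sdiff (S.image Q) A'
        have := card_image_le (s := S) (f := Q)
        omega)
    have g : ∀ x ∈ S.image fun u => P u + u, ∀ y ∈ A' \ S.image Q, Ok l s h D x y := fun x hx y hy => by
      obtain ⟨u, hu, rfl⟩ := mem_image.1 hx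
      exact h3 u (hS hu) y (s1 (mem_sdiff.1 hy).1) fun c =>
        (mem_sdiff.1 hy).2 (c ▸ mem_image_of_mem _ hu)
    refine ⟨B, fun x hx y hy => ?_, b3, b2.trans (union_subset_union sdiff_subset (image_subset_image hS)),
      Subset.antisymm (fun x hx => ?_) fun x hx => mem_sdiff.2 ⟨b1 hx, dj x hx⟩⟩
    · rcases mem_union.1 (b2 hx) with a | a <;> rcases mem_union.1 (b2 hy) with b | b
      · exact hA x (s1 (mem_sdiff.1 a).1) y (s1 (mem_sdiff.1 b).1)
      · exact (g y b x a).symm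
      · exact g x a y b
      · obtain ⟨u, hu, rfl⟩ := mem_image.1 a
        obtain ⟨u', hu', rfl⟩ := mem_image.1 b
        exact close hD (hU u (hS hu)).1 (hU u' (hS hu')).1 (hA _ (hP u (hS hu)) Z hZ)
          (hA _ (hP u' (hS hu')) Z hZ) (hi u (hS hu)) (hi u' (hS hu'))
    · exact (mem_union.1 (b2 (mem_sdiff.1 hx).1)).resolve_left fun c =>
        (mem_sdiff.1 hx).2 (s1 (mem_sdiff.1 c).1)
  choose! B g1 g2 g3 g4 using k
  let φ := (equivFinOfCardEq (card_powerset U)).symm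
  have m : ∀ t, (φ t).1 ⊆ U := fun t => mem_powerset.1 (φ t).2
  refine ⟨A' ∪ U.image (fun u => P u + u), (card_union_le _ _).trans ?_, fun t => B (φ t),
    fun t t' (e : B _ = B _) => φ.injective (Subtype.ext ?_),
    fun t => ⟨g1 _ (m t), g2 _ (m t), g3 _ (m t)⟩⟩
  · have := card_image_le (s := U) (f := fun u => P u + u)
    omega
  · have := g4 _ (m t)
    rw [e, g4 _ (m t')] at this
    exact coe_injective ((pi.image_eq_image_iff (m t) (m t')).1 (by rw [← coe_image, ← coe_image, this]))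

/-- The coprime pairs in a square. -/
def cop (M : ℕ) : Finset (ℕ × ℕ) := (Ioc 0 M ×ˢ Ioc 0 M).filter fun p => p.1.Coprime p.2

lemma card_cop (M : ℕ) : M ^ 2 ≤ 4 * #(cop M) := by
  have h1 := card_filter_add_card_filter_not (s := Ioc 0 M ×ˢ Ioc 0 M) fun p : ℕ × ℕ => p.1.Coprime p.2
  have h2 : #((Ioc 0 M ×ˢ Ioc 0 M).filter fun p : ℕ × ℕ => ¬ p.1.Coprime p.2) ≤
      ∑ d ∈ Ioc 1 (M + 2), (M / d) ^ 2 := by
    refine (card_le_card (t := (Ioc 1 (M + 2)).biUnion fun d =>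
      ((Ioc 0 M).filter (d ∣ ·)) ×ˢ ((Ioc 0 M).filter (d ∣ ·))) fun p hp => ?_).trans
      (card_biUnion_le.trans (sum_le_sum fun d _ => ?_))
    · simp only [mem_filter, mem_product, mem_Ioc, mem_biUnion] at hp ⊢
      have a := Nat.gcd_pos_of_pos_left p.2 hp.1.1.1
      have b := Nat.le_of_dvd hp.1.1.1 (Nat.gcd_dvd_left p.1 p.2)
      have c : p.1.gcd p.2 ≠ 1 := hp.2
      exact ⟨p.1.gcd p.2, ⟨by omega, by omega⟩, ⟨hp.1.1, Nat.gcd_dvd_left _ _⟩, hp.1.2, Nat.gcd_dvd_right _ _⟩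
    · rw [card_product, Nat.Ioc_filter_dvd_card_eq_div, sq]
  have h3 : ((∑ d ∈ Ioc 1 (M + 2), (M / d) ^ 2 : ℕ) : ℝ) ≤ 3 / 4 * M ^ 2 := by
    have a := sum_Ioc_inv_sq_le_sub (α := ℝ) (k := 2) (n := M + 2) two_ne_zero (by omega)
    have b : ∑ d ∈ Ioc 1 (M + 2), ((d : ℝ) ^ 2)⁻¹ ≤ 3 / 4 := by
      rw [← sum_Ioc_consecutive _ (show 1 ≤ 2 by omega) (show 2 ≤ M + 2 by omega)]
      have : (0 : ℝ) ≤ ((M : ℝ) + 2)⁻¹ := by positivity
      norm_num [show Ioc 1 2 = {2} from rfl] at a ⊢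
      linarith
    push_cast
    calc _ ≤ ∑ d ∈ Ioc 1 (M + 2), (M : ℝ) ^ 2 * ((d : ℝ) ^ 2)⁻¹ := sum_le_sum fun d _ => by
          rw [← div_eq_mul_inv, ← div_pow]
          exact pow_le_pow_left₀ (by positivity) Nat.cast_div_le 2
      _ ≤ _ := by rw [← mul_sum, mul_comm]; exact mul_le_mul_of_nonneg_right b (by positivity)
  rw [card_product, Nat.card_Ioc, Nat.sub_zero, ← sq] at h1
  have h4 : 4 * ∑ d ∈ Ioc 1 (M + 2), (M / d) ^ 2 ≤ 3 * M ^ 2 := by
    exact_mod_cast (show 4 * ((∑ d ∈ Ioc 1 (M + 2), (M / d) ^ 2 : ℕ) : ℝ) ≤ 3 * M ^ 2 by linarith)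
  unfold cop
  omega

/-- Exponentially many sets with the same number of points. -/
lemma core (hl : 0 < l) (hh : 0 < h) (s : ℝ) : ∃ α : ℝ, 0 < α ∧ ∀ (D : ℝ) (M n : ℕ), 1 ≤ M → M ^ 2 ≤ n →
    α * M ^ 3 ≤ D → ∀ A0, Good l s h D A0 → #A0 = n → ∃ r : ℕ, M ^ 2 ≤ 8 * r ∧
      ∃ W : Finset (ℤ × ℤ), #W ≤ 2 * n ∧ ∃ B : Fin (2 ^ r) → Finset (ℤ × ℤ), Function.Injective B ∧
        ∀ t, Good l s h D (B t) ∧ #(B t) = n ∧ B t ⊆ W := by
  classical
  obtain ⟨κ, κ0, hκ⟩ := exists_box hl hh s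
  obtain ⟨k, hk⟩ : ∃ k : ℕ, 20 * h ≤ l * k + s := by
    obtain ⟨k, hk⟩ := exists_nat_ge ((20 * h - s) / l)
    exact ⟨k, by rw [div_le_iff₀' hl] at hk; linarith⟩
  obtain ⟨μ, hμ⟩ : ∃ μ, μ = l + (l * k + s) + h := ⟨_, rfl⟩
  have μ0 : 0 < μ := by linarith
  refine ⟨64000 * μ ^ 3 / (l * h) + 60 * h + 20 * μ, by positivity, fun D M n hM hn hD A0 g0 c0 => ?_⟩
  have M1 : (1 : ℝ) ≤ M := by exact_mod_cast hM
  have M2 : (M : ℝ) ≤ M ^ 3 := le_self_pow₀ M1 three_ne_zero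
  have p1 : 0 ≤ 64000 * μ ^ 3 / (l * h) * M ^ 3 := by positivity
  have p2 : h ≤ h * M ^ 3 := le_mul_of_one_le_right hh.le (M1.trans M2)
  have p3 : μ * M ≤ μ * M ^ 3 := mul_le_mul_of_nonneg_left M2 μ0.le
  have p4 : 0 ≤ μ * M := by positivity
  have d1 : 60 * h ≤ D := by linarith
  have d2 : 20 * (μ * M) ≤ D := by linarith
  have d3 : 64000 * (μ * M) ^ 3 ≤ l * h * D := by
    rw [← div_le_iff₀' (by positivity), mul_pow, ← mul_assoc, mul_div_right_comm]
    linarith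
  have D0 : 0 ≤ D := by linarith
  have bd : BddAbove {k | ∃ A, Good l s h D A ∧ #A = k} :=
    ⟨_, by rintro _ ⟨A, a, rfl⟩; exact card_le (hκ D _ D0 (Nat.le_ceil _)) a⟩
  obtain ⟨A, hA, e⟩ := Nat.sSup_mem (s := {k | ∃ A, Good l s h D A ∧ #A = k}) ⟨n, A0, g0, c0⟩ bd
  have mx : ∀ B, Good l s h D B → #B ≤ #A := fun B b => e ▸ le_csSup bd ⟨B, b, rfl⟩
  have nA : n ≤ #A := c0 ▸ mx A0 g0
  have h0 : A.Nonempty := card_pos.1 (by have := Nat.one_le_pow 2 M hM; omega)
  have hmax : ∀ p, (∀ q ∈ A, Ok l s h D p q) → p ∈ A := fun p hp => by_contra fun c => by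
    have := mx (insert p A) fun x hx y hy => by
      rcases mem_insert.1 hx with rfl | a <;> rcases mem_insert.1 hy with rfl | b
      exacts [Ok.refl _, hp y b, (hp x a).symm, hA x a y b]
    rw [card_insert_of_notMem c] at this
    omega
  let ψ : ℕ × ℕ → ℤ × ℤ := fun p => (p.1 + k * p.2, p.2)
  have ψi : Function.Injective ψ := fun p q e => by
    simp only [ψ, Prod.mk.injEq, Nat.cast_inj] at e
    exact Prod.ext (by have := e.1; rw [e.2] at this; omega) e.2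
  have c1 : #((cop M).image ψ) = #(cop M) := card_image_of_injective _ ψi
  have c2 : #(cop M) ≤ n :=
    (card_filter_le _ _).trans (by rwa [card_product, Nat.card_Ioc, Nat.sub_zero, ← sq])
  have hU : ∀ u ∈ (cop M).image ψ, Flat l s h D u ∧
      (Ext l s h D A u ∨ Ext l s h D (A.image Neg.neg) u) := fun u hu => by
    obtain ⟨⟨a, b⟩, hp, rfl⟩ := mem_image.1 hu
    simp only [cop, mem_filter, mem_product, mem_Ioc] at hp
    obtain ⟨⟨⟨a0, a1⟩, b0, b1⟩, cp⟩ := hp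
    have a2 : l ≤ l * a := le_mul_of_one_le_right hl.le (by exact_mod_cast a0)
    have a3 : l * a ≤ l * M := mul_le_mul_of_nonneg_left (by exact_mod_cast a1) hl.le
    have b2 : 20 * h * b ≤ (l * k + s) * b := mul_le_mul_of_nonneg_right hk b.cast_nonneg
    have b3 : (l * k + s) * b ≤ (l * k + s) * M :=
      mul_le_mul_of_nonneg_left (by exact_mod_cast b1) (by linarith)
    have b4 : h * b ≤ h * M := mul_le_mul_of_nonneg_left (by exact_mod_cast b1) hh.le
    have b5 : 0 ≤ h * b := by positivity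
    have x : X l s (ψ (a, b)) = l * a + (l * k + s) * b := by simp only [X, ψ]; push_cast; ring
    have y : h * (ψ (a, b)).2 = h * b := by simp [ψ]
    have n1 : nsq l s h (ψ (a, b)) ≤ (μ * M) ^ 2 := by
      have := pow_le_pow_left₀ (by linarith) (show l * a + (l * k + s) * b + h * b ≤ μ * M by
        rw [hμ]; linarith) 2
      rw [nsq, x, y]
      nlinarith [mul_nonneg b5 (show 0 ≤ l * a + (l * k + s) * b by linarith)]
    have n2 : l ≤ √(nsq l s h (ψ (a, b))) := by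
      refine Real.le_sqrt_of_sq_le ((pow_le_pow_left₀ hl.le ?_ 2).trans
        (le_add_of_nonneg_right (sq_nonneg _)))
      rw [x]; linarith
    refine ⟨⟨by rw [x]; linarith, by rw [x, y, abs_of_nonneg b5]; linarith, by nlinarith⟩,
      dir hl hh d1 ((Nat.isCoprime_iff_coprime.2 cp).mul_add_right_left k |> fun t => by
        rwa [add_comm] at t) n2 (Real.sq_sqrt (add_nonneg (sq_nonneg _) (sq_nonneg _))) ?_ hA h0 hmax⟩
    have := pow_le_pow_left₀ (Real.sqrt_nonneg _) (Real.sqrt_le_iff.2 ⟨p4, n1⟩) 3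
    linarith
  have inj : ∀ u ∈ (cop M).image ψ, ∀ u' ∈ (cop M).image ψ, det u u' = 0 → u = u' := fun u hu u' hu' e => by
    obtain ⟨⟨a, b⟩, hp, rfl⟩ := mem_image.1 hu
    obtain ⟨⟨a', b'⟩, hp', rfl⟩ := mem_image.1 hu'
    simp only [cop, mem_filter, mem_product, mem_Ioc] at hp hp'
    have e1 : a * b' = b * a' := by
      simp only [det, ψ] at e
      zify; linear_combination e
    have e2 : a = a' := Nat.dvd_antisymm (hp.2.dvd_of_dvd_mul_left ⟨b', e1.symm⟩)
      (hp'.2.dvd_of_dvd_mul_left ⟨b, by rw [mul_comm, e1, mul_comm]⟩)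
    subst e2
    rw [Nat.eq_of_mul_eq_mul_left hp.1.1.1 (e1.trans (mul_comm _ _))]
  have c3 := card_filter_add_card_filter_not (s := (cop M).image ψ) (Ext l s h D A)
  have c4 := card_cop M
  rcases le_total #(((cop M).image ψ).filter (Ext l s h D A))
    #(((cop M).image ψ).filter fun u => ¬ Ext l s h D A u) with c | c
  · exact ⟨_, by omega, fam hh D0 hA.neg (h0.image _)
      (U := ((cop M).image ψ).filter fun u => ¬ Ext l s h D A u)
      (fun u hu => ⟨(hU u (mem_filter.1 hu).1).1,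
        (hU u (mem_filter.1 hu).1).2.resolve_left (mem_filter.1 hu).2⟩)
      (fun u hu u' hu' => inj u (mem_filter.1 hu).1 u' (mem_filter.1 hu').1)
      (by rwa [card_image_of_injective _ neg_injective]) (by omega)⟩
  · exact ⟨_, by omega, fam hh D0 hA h0 (U := ((cop M).image ψ).filter (Ext l s h D A))
      (fun u hu => ⟨(hU u (mem_filter.1 hu).1).1, (mem_filter.1 hu).2⟩)
      (fun u hu u' hu' => inj u (mem_filter.1 hu).1 u' (mem_filter.1 hu').1) nA (by omega)⟩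

end Pool.Agent.Lib.MP_509dcf_co.Rows
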