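import Pool.Agent.Lib.MP_509dcf_co.LatMain
import Pool.Agent.Lib.MP_509dcf_co.Dirs

/-!
Exponentially many non-congruent subsets of least diameter of a planar lattice.
-/

open Finset
open scoped RealInnerProductSpace

namespace Pool.Agent.Lib.MP_509dcf_co.Rows

variable {v w : E}

lemma lin_eq {L L' : E →ₗᵢ[ℝ] E} {a : E} (a0 : a ≠ 0) (h1 : L a = L' a)
    (h2 : 0 ≤ L a 0 * L !₂[-a 1, a 0] 1 - L a 1 * L !₂[-a 1, a 0] 0 ↔
      0 ≤ L' a 0 * L' !₂[-a 1, a 0] 1 - L' a 1 * L' !₂[-a 1, a 0] 0) (x : E) : L x = L' x := by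
  have h3 : L !₂[-a 1, a 0] = L' !₂[-a 1, a 0] := two_d (a := L a)
    (fun c => a0 (L.injective (c.trans (map_zero _).symm)))
    (by rw [L.inner_map_map, h1, L'.inner_map_map]) (by rw [L.norm_map, L'.norm_map])
    (by simpa only [← h1] using h2)
  have n : ‖a‖ ^ 2 = a 0 ^ 2 + a 1 ^ 2 := by simp [EuclideanSpace.norm_sq_eq, Fin.sum_univ_two]
  have p : a 0 ^ 2 + a 1 ^ 2 ≠ 0 := (n ▸ pow_pos (norm_pos_iff.2 a0) 2).ne'
  have e : (a 0 ^ 2 + a 1 ^ 2) • x =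
      (x 0 * a 0 + x 1 * a 1) • a + (x 1 * a 0 - x 0 * a 1) • (!₂[-a 1, a 0] : E) := by
    ext i
    fin_cases i <;> simp <;> ring
  refine smul_right_injective E p ?_
  simp only [← map_smul]
  rw [e, map_add, map_add, map_smul, map_smul, map_smul, map_smul, h1, h3]

lemma cls (h : LinearIndependent ℝ ![v, w]) {T : ℕ} {B : Fin T → Finset (ℤ × ℤ)} {W : Finset (ℤ × ℤ)}
    (inj : Function.Injective B) (hW : ∀ t, B t ⊆ W) (t0 : Fin T) (h2 : 1 < #(B t0))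
    [DecidablePred fun t => Congr (im v w (B t0)) (im v w (B t))] :
    #(univ.filter fun t => Congr (im v w (B t0)) (im v w (B t))) ≤ #W * #W * 2 := by
  classical
  obtain ⟨p0, hp0, p1, hp1, p01⟩ := one_lt_card.1 h2
  have k : ∀ t, ∃ (g : E ≃ᵢ E) (L : E →ₗᵢ[ℝ] E) (q0 q1 : ℤ × ℤ), (∀ x y, g x - g y = L (x - y)) ∧
      (Congr (im v w (B t0)) (im v w (B t)) → g '' (im v w (B t0) : Set E) = im v w (B t) ∧
        q0 ∈ W ∧ q1 ∈ W ∧ e v w q0 = g (e v w p0) ∧ e v w q1 = g (e v w p1)) := fun t => by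
    by_cases c : Congr (im v w (B t0)) (im v w (B t))
    · obtain ⟨g, hg⟩ := c
      obtain ⟨L, hL⟩ := lin g
      obtain ⟨q0, a0, e0⟩ := mem_im.1 (hg.le ⟨_, mem_im.2 ⟨_, hp0, rfl⟩, rfl⟩)
      obtain ⟨q1, a1, e1⟩ := mem_im.1 (hg.le ⟨_, mem_im.2 ⟨_, hp1, rfl⟩, rfl⟩)
      exact ⟨g, L, q0, q1, hL, fun _ => ⟨hg, hW t a0, hW t a1, e0, e1⟩⟩
    · exact ⟨.refl _, .id, 0, 0, fun _ _ => rfl, fun a => absurd a c⟩
  choose G L q0 q1 k1 k2 using k
  obtain ⟨a, ha⟩ : ∃ a, a = e v w p1 - e v w p0 := ⟨_, rfl⟩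
  have a0 : a ≠ 0 := ha ▸ sub_ne_zero.2 fun c => p01 (e_inj h c).symm
  rw [← Fintype.card_bool, ← card_univ, ← card_product, ← card_product]
  refine card_le_card_of_injOn (fun t => ((q0 t, q1 t),
    decide (0 ≤ L t a 0 * L t !₂[-a 1, a 0] 1 - L t a 1 * L t !₂[-a 1, a 0] 0)))
    (fun t ht => mem_coe.2 (mem_product.2 ⟨mem_product.2
      ⟨(k2 t (mem_filter.1 ht).2).2.1, (k2 t (mem_filter.1 ht).2).2.2.1⟩, mem_univ _⟩))
    fun t ht t' ht' e0 => inj ?_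
  obtain ⟨a1, -, -, a2, a3⟩ := k2 t (mem_filter.1 ht).2
  obtain ⟨b1, -, -, b2, b3⟩ := k2 t' (mem_filter.1 ht').2
  simp only [Prod.mk.injEq, decide_eq_decide] at e0
  obtain ⟨⟨e1, e2⟩, e3⟩ := e0
  have c0 : G t (e v w p0) = G t' (e v w p0) := by rw [← a2, ← b2, e1]
  have c1 : L t a = L t' a := by rw [ha, ← k1, ← k1, c0, ← a3, ← b3, e2]
  have c2 : (G t : E → E) = G t' := funext fun x => by
    rw [← sub_left_inj (a := G t (e v w p0)), k1, c0, k1, lin_eq a0 c1 e3]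
  rw [c2, b1] at a1
  exact (image_injective (e_inj h) (coe_injective a1)).symm

lemma grow (c : ℕ) : ∃ j0 : ℕ, ∀ j, j0 ≤ j → c * j ^ 6 < 2 ^ j := by
  have := (tendsto_pow_const_div_const_pow_of_one_lt 6 (one_lt_two (α := ℝ))).const_mul (c : ℝ)
  rw [mul_zero] at this
  obtain ⟨j0, h⟩ := Filter.eventually_atTop.1 (this.eventually (gt_mem_nhds one_pos))
  refine ⟨j0, fun j hj => ?_⟩
  have := h j hj
  rw [← mul_div_assoc, div_lt_one (by positivity)] at this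
  exact_mod_cast this

theorem manyExp (h : LinearIndependent ℝ ![v, w]) : ∃ C : ℕ, ∀ m n : ℕ, C * m ^ 3 ≤ n →
    ∃ F : Fin (2 ^ m) → Finset E, (∀ k, IsMinIn (Lat v w) n (F k)) ∧
      ∀ k l, k ≠ l → ¬ Congr (F k) (F l) := by
  classical
  obtain ⟨l, s, h', hl, hh, H⟩ := coords h
  obtain ⟨κ, κ0, hκ⟩ := exists_box hl hh s
  obtain ⟨α, α0, hα⟩ := core hl hh s
  obtain ⟨β, hβ⟩ : ∃ β : ℕ, κ * α ≤ β := ⟨_, Nat.le_ceil _⟩
  obtain ⟨γ, hγ⟩ : ∃ γ, γ = (2 * β + 1) ^ 2 := ⟨_, rfl⟩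
  have γ1 : 1 ≤ γ := hγ ▸ Nat.one_le_pow _ _ (by omega)
  obtain ⟨j0, hj⟩ := grow (8 * (64 * γ) ^ 2 * 16 ^ 6)
  have mk : ∀ {n : ℕ} {A B : Finset (ℤ × ℤ)}, (∀ C : Finset (ℤ × ℤ), #C = n →
      Metric.diam (im v w A : Set E) ≤ Metric.diam (im v w C : Set E)) → #B = n →
      Good l s h' (Metric.diam (im v w A : Set E)) B → IsMinIn (Lat v w) n (im v w B) := by
    refine fun mn g2 g1 => ⟨(card_image_of_injective _ (e_inj h)).trans g2, fun x hx => ?_, fun C hC hL => ?_⟩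
    · obtain ⟨p, -, rfl⟩ := mem_im.1 hx
      exact mem_Lat.2 ⟨p, rfl⟩
    · have e1 : im v w (C.preimage (e v w) (e_inj h).injOn) = C := by
        rw [im, image_preimage]
        exact filter_true_of_mem fun x hx => mem_Lat.1 (hL hx)
      refine ((good_iff H Metric.diam_nonneg _).1 g1).trans (e1 ▸ mn _ ?_)
      rw [← card_image_of_injective _ (e_inj h), ← im, e1, hC]
  refine ⟨64 * γ * (16 * (j0 + 1)) ^ 3, fun m n hn => ?_⟩
  rcases n.eq_zero_or_pos with rfl | n0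
  · obtain rfl : m = 0 := by simpa [show γ ≠ 0 by omega] using hn
    exact ⟨fun _ => ∅, fun _ => ⟨rfl, by simp, fun C _ _ => by simp [Metric.diam_nonneg]⟩,
      fun k l a => absurd (Subsingleton.elim (α := Fin 1) k l) a⟩
  obtain ⟨A, hA, mn⟩ := exists_min hl hh H n0
  have gA := (good_iff H Metric.diam_nonneg A).2 le_rfl
  rcases m.eq_zero_or_pos with rfl | m0
  · exact ⟨fun _ => im v w A, fun _ => mk mn hA gA,
      fun k l a => absurd (Subsingleton.elim (α := Fin 1) k l) a⟩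
  have ex : ∃ M, n ≤ γ * (M + 1) ^ 6 :=
    ⟨n, (n.le_succ.trans (Nat.le_self_pow (by norm_num) _)).trans (Nat.le_mul_of_pos_left _ γ1)⟩
  obtain ⟨M, hM⟩ : ∃ M, M = Nat.find ex := ⟨_, rfl⟩
  have u1 : n ≤ γ * (M + 1) ^ 6 := hM ▸ Nat.find_spec ex
  rw [mul_assoc, ← mul_pow] at hn
  have K1 : 1 ≤ (16 * (j0 + 1) * m) ^ 3 := Nat.one_le_pow _ _ (by positivity)
  have M1 : 1 ≤ M := Nat.pos_of_ne_zero fun c => by
    rw [c] at u1
    nlinarith
  have u2 : γ * M ^ 6 < n := by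
    have := Nat.find_min ex (show M - 1 < Nat.find ex by omega)
    rwa [Nat.sub_add_cancel M1, not_le] at this
  have u3 : n ≤ 64 * γ * (M ^ 2) ^ 3 := u1.trans (by
    have := Nat.mul_le_mul_left γ (Nat.pow_le_pow_left (show M + 1 ≤ 2 * M by omega) 6)
    calc _ ≤ _ := this
      _ = _ := by ring)
  have u4 : 16 * (j0 + 1) * m ≤ M ^ 2 :=
    (Nat.pow_le_pow_iff_left three_ne_zero).1 (Nat.le_of_mul_le_mul_left (hn.trans u3) (by omega))
  have u5 : M ^ 2 ≤ M ^ 6 := Nat.pow_le_pow_right M1 (by norm_num)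
  have u6 : M ^ 6 ≤ γ * M ^ 6 := Nat.le_mul_of_pos_left _ γ1
  have big : α * M ^ 3 ≤ Metric.diam (im v w A : Set E) := not_lt.1 fun c => by
    have a := card_le (hκ _ (β * M ^ 3) Metric.diam_nonneg (by
      push_cast
      exact (mul_le_mul_of_nonneg_left c.le κ0.le).trans
        (by rw [← mul_assoc]; exact mul_le_mul_of_nonneg_right hβ (by positivity)))) gA
    have b : (2 * (β * M ^ 3) + 1) ^ 2 ≤ ((2 * β + 1) * M ^ 3) ^ 2 :=
      Nat.pow_le_pow_left (by nlinarith [Nat.one_le_pow 3 M M1]) 2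
    rw [mul_pow, ← pow_mul M, show 3 * 2 = 6 from rfl, ← hγ] at b
    omega
  obtain ⟨r, hr, W, hW, B, inj, hB⟩ := hα _ M n M1 (by omega) big A gA hA
  have v1 : 16 * m ≤ M ^ 2 := by nlinarith
  have v2 : 16 * (j0 + 1) ≤ M ^ 2 := by nlinarith
  obtain ⟨j, rfl⟩ : ∃ j, r = j + m := ⟨r - m, by omega⟩
  have v3 : #W * #W * 2 < 2 ^ j := by
    refine lt_of_le_of_lt ?_ (hj j (by omega))
    have a : #W ≤ 2 * (64 * γ * (16 * j) ^ 3) :=
      hW.trans (Nat.mul_le_mul_left _ (u3.trans (Nat.mul_le_mul_left _ (Nat.pow_le_pow_left (by omega) 3))))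
    calc _ ≤ _ := Nat.mul_le_mul_right 2 (Nat.mul_le_mul a a)
      _ = _ := by ring
  obtain ⟨g, hg⟩ := pick (c := #W * #W * 2) (fun s t => Congr (im v w (B t)) (im v w (B s)))
    (fun s t ⟨g, hg⟩ => ⟨g.symm, by rw [← hg, ← Set.image_comp]; simp⟩)
    (fun t0 => cls h inj (fun t => (hB t).2.2) t0 (by rw [(hB t0).2.1]; omega)) (2 ^ m)
    (by rw [pow_add]; exact Nat.mul_lt_mul_of_pos_right v3 (by positivity))
  exact ⟨fun k => im v w (B (g k)), fun k => mk mn (hB _).2.1 (hB _).1, fun k l a => hg l k a.symm⟩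

end Pool.Agent.Lib.MP_509dcf_co.Rows
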