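import Mathlib

/-! Real inequalities behind the flip of a point across the line through two of its contacts. -/

namespace Pool.Agent.Lib.MP_509dcf_co.Flip

theorem sconv {a1 a2 b1 b2 x1 x2 D t : ℝ} (t0 : 0 < t) (t1 : t < 1) (hab : a1 < b1)
    (ha : (a1 - x1) ^ 2 + (a2 - x2) ^ 2 ≤ D) (hb : (b1 - x1) ^ 2 + (b2 - x2) ^ 2 ≤ D) :
    (a1 + t * (b1 - a1) - x1) ^ 2 + (a2 + t * (b2 - a2) - x2) ^ 2 < D := by
  have e : (a1 + t * (b1 - a1) - x1) ^ 2 + (a2 + t * (b2 - a2) - x2) ^ 2 =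
      (1 - t) * ((a1 - x1) ^ 2 + (a2 - x2) ^ 2) + t * ((b1 - x1) ^ 2 + (b2 - x2) ^ 2) -
        t * (1 - t) * ((b1 - a1) ^ 2 + (b2 - a2) ^ 2) := by ring
  have h1 : 0 < 1 - t := by linarith
  have h2 : 0 < t * (1 - t) * ((b1 - a1) ^ 2 + (b2 - a2) ^ 2) := by
    have : 0 < b1 - a1 := by linarith
    positivity
  have h3 := mul_le_mul_of_nonneg_left ha h1.le
  have h4 := mul_le_mul_of_nonneg_left hb t0.le
  rw [e]
  linarith

/-- A point below the segment `ab` and above a point `c` of the open disc lies in the open disc. -/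
theorem tri {a1 a2 b1 b2 w1 w2 x1 x2 D : ℝ} (h1 : a1 < w1) (h2 : w1 < b1) (h0 : 0 ≤ w2)
    (hc : (b1 - a1) * (w2 - a2) ≤ (b2 - a2) * (w1 - a1))
    (ha : (a1 - x1) ^ 2 + (a2 - x2) ^ 2 ≤ D) (hb : (b1 - x1) ^ 2 + (b2 - x2) ^ 2 ≤ D)
    (hw : (w1 - x1) ^ 2 + (0 - x2) ^ 2 < D) : (w1 - x1) ^ 2 + (w2 - x2) ^ 2 < D := by
  have hab : 0 < b1 - a1 := by linarith
  obtain ⟨t, ht⟩ : ∃ t, t * (b1 - a1) = w1 - a1 := ⟨(w1 - a1) / (b1 - a1), by field_simp⟩
  have t0 : 0 < t := by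
    by_contra c
    nlinarith [mul_nonneg (neg_nonneg.2 (not_lt.1 c)) hab.le]
  have t1 : t < 1 := by
    by_contra c
    nlinarith [mul_nonneg (sub_nonneg.2 (not_lt.1 c)) hab.le]
  have h3 := sconv t0 t1 (by linarith) ha hb
  rw [ht, show a1 + (w1 - a1) = w1 by ring] at h3
  have h4 : w2 ≤ a2 + t * (b2 - a2) := by
    rw [← ht] at hc
    have : (b1 - a1) * (w2 - a2) ≤ (b1 - a1) * (t * (b2 - a2)) := by linarith
    linarith [le_of_mul_le_mul_left this hab]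
  rcases le_total w2 x2 with c | c
  · nlinarith
  · nlinarith

theorem low {R u v : ℝ} (hR : 5 / 2 ≤ R) (c : 0 ≤ u + 2 * R * v) (hu : 0 ≤ u) : -(u / 5) ≤ v := by
  rcases le_total 0 v with h | h
  · linarith
  · nlinarith

theorem sqb {x lo hi c : ℝ} (h1 : lo ≤ x) (h2 : x ≤ hi) (h3 : lo ^ 2 ≤ c) (h4 : hi ^ 2 ≤ c) :
    x ^ 2 ≤ c := by
  rcases le_total 0 x with h | h
  · exact (pow_le_pow_left₀ h h2 2).trans h4
  · have := pow_le_pow_left₀ (neg_nonneg.2 h) (neg_le_neg h1) 2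
    rw [neg_sq, neg_sq] at this
    exact this.trans h3

theorem ges {a x : ℝ} (hx : 0 ≤ x) (h : a ^ 2 ≤ x ^ 2) : a ≤ x := (abs_le_of_sq_le_sq' h hx).2

theorem one {x y : ℝ} (h : x ^ 2 + y ^ 2 ≤ 1) : -1 ≤ x ∧ x ≤ 1 :=
  abs_le_of_sq_le_sq' (by linarith [sq_nonneg y]) zero_le_one

theorem pair {R ua va ub vb : ℝ} (hR : 5 / 2 ≤ R) (ea : ua ^ 2 + va ^ 2 = 1)
    (eb : ub ^ 2 + vb ^ 2 = 1) (ca : 0 ≤ 1 + 2 * R * va) (cb : 0 ≤ 1 + 2 * R * vb) (hv : vb < 0)
    (hu : 0 ≤ ub) (hx : 0 < vb * ua - ub * va) (hs : 1 ≤ (ua - ub) ^ 2 + (va - vb) ^ 2) :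
    97 / 100 ≤ ub ∧ ua ≤ -(97 / 100) ∧ va ≤ 21 / 100 := by
  have a1 := low hR ca zero_le_one
  have b1 := low hR cb zero_le_one
  have b3 : vb ^ 2 ≤ 1 / 25 := sqb b1 hv.le (by norm_num) (by norm_num)
  have b2 : 979 / 1000 ≤ ub := ges hu (by linarith)
  have a2 : ua < 0 := by
    by_contra c
    have c := not_lt.1 c
    have a3 : va < 0 := by
      by_contra d
      linarith [mul_nonneg hu (not_lt.1 d), mul_nonneg (neg_nonneg.2 hv.le) c]
    have a5 : va ^ 2 ≤ 1 / 25 := sqb a1 a3.le (by norm_num) (by norm_num)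
    have a4 : 979 / 1000 ≤ ua := ges c (by linarith)
    linarith [mul_pos_of_neg_of_neg a3 hv, mul_le_mul a4 b2 (by norm_num) c]
  have a3 : -1 ≤ ua := (one ea.le).1
  have a4 : va ≤ 21 / 100 := by
    by_contra d
    have d := not_le.1 d
    have h1 : (-vb) * (-ua) ≤ 1 / 5 * 1 :=
      mul_le_mul (by linarith) (by linarith) (by linarith) (by norm_num)
    linarith [mul_le_mul b2 d.le (by norm_num) hu]
  have a5 : va ^ 2 ≤ 441 / 10000 := sqb a1 a4 (by norm_num) (by norm_num)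
  have a6 : 97 / 100 ≤ -ua := ges (by linarith) (by linarith)
  exact ⟨by linarith, by linarith, a4⟩

theorem cross {ua va ub vb u v : ℝ} (ea : ua ^ 2 + va ^ 2 = 1) (eb : ub ^ 2 + vb ^ 2 = 1) :
    ((ub - ua) ^ 2 + (vb - va) ^ 2) * ((ua + ub) * (u - ua) + (va + vb) * (v - va)) =
      -(2 * (vb * ua - ub * va)) * ((ub - ua) * (v - va) - (vb - va) * (u - ua)) := by
  linear_combination (-((ub - ua) * (u - ua) + (vb - va) * (v - va))) * ea +
    ((ub - ua) * (u - ua) + (vb - va) * (v - va)) * eb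

/-- The vertical component of the flip is negative and dominates the horizontal one. -/
theorem small {ua va ub vb : ℝ} (ea : ua ^ 2 + va ^ 2 = 1) (eb : ub ^ 2 + vb ^ 2 = 1)
    (hx : 0 < vb * ua - ub * va) (a1 : ua ≤ -(97 / 100)) (b1 : 97 / 100 ≤ ub)
    (a2 : |va| ≤ 21 / 100) (b2 : |vb| ≤ 21 / 100) :
    va + vb < 0 ∧ |ua + ub| ≤ -(22 / 100 * (va + vb)) := by
  obtain ⟨a2, a3⟩ := abs_le.1 a2
  obtain ⟨b2, b3⟩ := abs_le.1 b2
  have e : (ua + ub) * (ub - ua) = -((va + vb) * (vb - va)) := by linear_combination eb - ea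
  have h1 : va + vb < 0 := by
    have := cross (u := ua) (v := va - 1) ea eb
    by_contra c
    have c := not_lt.1 c
    have h2 : 0 < (vb * ua - ub * va) * (ub - ua) := mul_pos hx (by linarith)
    have h3 : 0 ≤ ((ub - ua) ^ 2 + (vb - va) ^ 2) * (va + vb) := by positivity
    nlinarith
  refine ⟨h1, abs_le.2 ⟨?_, ?_⟩⟩
  · by_contra c
    have c := not_le.1 c
    nlinarith
  · by_contra c
    have c := not_le.1 c
    nlinarith

theorem far {R ua va ub vb u v : ℝ} (hR : 5 / 2 ≤ R) (ea : ua ^ 2 + va ^ 2 = 1)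
    (eb : ub ^ 2 + vb ^ 2 = 1) (ca : 0 ≤ 1 + 2 * R * va) (cb : 0 ≤ 1 + 2 * R * vb)
    (hx : 0 < vb * ua - ub * va) (a1 : ua ≤ -(97 / 100)) (b1 : 97 / 100 ≤ ub)
    (a2 : |va| ≤ 21 / 100) (b2 : |vb| ≤ 21 / 100) (h1 : 1 ≤ u ^ 2 + v ^ 2)
    (c : 0 ≤ u ^ 2 + v ^ 2 + 2 * R * v) (ha : 1 ≤ (u - ua) ^ 2 + (v - va) ^ 2)
    (hb : 1 ≤ (u - ub) ^ 2 + (v - vb) ^ 2)
    (hS : 0 < (ua + ub) * (u - ua) + (va + vb) * (v - va)) :
    1 < (u - (ua + ub)) ^ 2 + (v - (va + vb)) ^ 2 := by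
  by_contra d
  have d := not_lt.1 d
  obtain ⟨s1, -⟩ := small ea eb hx a1 b1 a2 b2
  have a5 := low hR ca zero_le_one
  have b5 := low hR cb zero_le_one
  obtain ⟨a2, a3⟩ := abs_le.1 a2
  obtain ⟨b2, b3⟩ := abs_le.1 b2
  have a4 : -1 ≤ ua := (one ea.le).1
  have b4 : ub ≤ 1 := (one eb.le).2
  obtain ⟨u2, u1⟩ := one d
  have hC : (ub - ua) * (v - va) < (vb - va) * (u - ua) := by
    have e := cross (u := u) (v := v) ea eb
    by_contra k
    have k := sub_nonneg.2 (not_lt.1 k)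
    have h2 : 0 < ((ub - ua) ^ 2 + (vb - va) ^ 2) *
        ((ua + ub) * (u - ua) + (va + vb) * (v - va)) := by
      have : 0 < ub - ua := by linarith
      positivity
    linarith [mul_nonneg hx.le k]
  have v1 : v ≤ 66 / 100 := by
    by_contra k
    have k := not_le.1 k
    have h2 : (vb - va) * (u - ua) ≤ 42 / 100 * (203 / 100) := by
      refine (le_abs_self _).trans ?_
      rw [abs_mul]
      exact mul_le_mul (abs_le.2 ⟨by linarith, by linarith⟩) (abs_le.2 ⟨by linarith, by linarith⟩)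
        (abs_nonneg _) (by norm_num)
    have h3 : 194 / 100 * (45 / 100) ≤ (ub - ua) * (v - va) :=
      mul_le_mul (by linarith) (by linarith) (by norm_num) (by linarith)
    linarith
  have v2 : -(2 / 5) ≤ v := by
    have h2 := low hR c (by positivity)
    have h3 : u ^ 2 + v ^ 2 ≤ 2 := by
      have h4 : (ua + ub) ^ 2 ≤ 1 / 1000 :=
        sqb (lo := -(3 / 100)) (hi := 3 / 100) (by linarith) (by linarith) (by norm_num)
          (by norm_num)
      have h5 : (va + vb) ^ 2 ≤ 16 / 100 :=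
        sqb (lo := -(2 / 5)) (hi := 0) (by linarith) (by linarith) (by norm_num) (by norm_num)
      linarith [sq_nonneg (2 / 5 * (u - (ua + ub)) - (ua + ub)),
        sq_nonneg (2 / 5 * (v - (va + vb)) - (va + vb))]
    linarith
  have v3 : v ^ 2 ≤ 44 / 100 := sqb v2 v1 (by norm_num) (by norm_num)
  rcases le_total 0 u with k | k
  · have h2 : 74 / 100 ≤ u := ges k (by linarith)
    have h3 : (u - ub) ^ 2 ≤ 7 / 100 :=
      sqb (lo := -(26 / 100)) (hi := 6 / 100) (by linarith) (by linarith) (by norm_num)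
        (by norm_num)
    have h4 : (v - vb) ^ 2 ≤ 76 / 100 :=
      sqb (lo := -(61 / 100)) (hi := 87 / 100) (by linarith) (by linarith) (by norm_num)
        (by norm_num)
    linarith
  · have h2 : 74 / 100 ≤ -u := ges (by linarith) (by linarith)
    have h3 : (u - ua) ^ 2 ≤ 7 / 100 :=
      sqb (lo := -(6 / 100)) (hi := 26 / 100) (by linarith) (by linarith) (by norm_num)
        (by norm_num)
    have h4 : (v - va) ^ 2 ≤ 76 / 100 :=
      sqb (lo := -(61 / 100)) (hi := 87 / 100) (by linarith) (by linarith) (by norm_num)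
        (by norm_num)
    linarith

end Pool.Agent.Lib.MP_509dcf_co.Flip
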