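import Pool.Agent.Lib.MP_509dcf_co.Jam
import Pool.Agent.Lib.MP_509dcf_co.Flip1

/-! Replacing one point of a minimiser; long hull edges give a flip. -/

open Finset
open scoped RealInnerProductSpace

namespace Pool.Agent.Lib.MP_509dcf_co.Flip

/-- orthonormal coordinates -/
structure Co (X Y : E → ℝ) : Prop where
  d : ∀ p q, dist p q ^ 2 = (X p - X q) ^ 2 + (Y p - Y q) ^ 2
  ex : ∀ a b, ∃ p, X p = a ∧ Y p = b

theorem co0 : Co (fun p => p 0) (fun p => p 1) :=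
  ⟨fun p q => by
    rw [EuclideanSpace.dist_eq, Real.sq_sqrt (by positivity), Fin.sum_univ_two, Real.dist_eq,
      Real.dist_eq, sq_abs, sq_abs],
    fun a b => ⟨!₂[a, b], rfl, rfl⟩⟩

variable {X Y : E → ℝ} {A : Finset E}

theorem Co.rot (h : Co X Y) {k s : ℝ} (e : k ^ 2 + s ^ 2 = 1) (x y : ℝ) :
    Co (fun p => k * (X p - x) - s * (Y p - y)) (fun p => s * (X p - x) + k * (Y p - y)) := by
  refine ⟨fun p q => ?_, fun a b => ?_⟩
  · rw [h.d]
    linear_combination (-((X p - X q) ^ 2 + (Y p - Y q) ^ 2)) * e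
  · obtain ⟨p, h1, h2⟩ := h.ex (x + k * a + s * b) (y - s * a + k * b)
    refine ⟨p, ?_, ?_⟩
    · rw [h1, h2]
      linear_combination a * e
    · rw [h1, h2]
      linear_combination b * e

theorem Co.neg (h : Co X Y) : Co (fun p => -X p) Y := by
  refine ⟨fun p q => ?_, fun a b => ?_⟩
  · rw [h.d]
    ring
  · obtain ⟨p, h1, h2⟩ := h.ex (-a) b
    exact ⟨p, by rw [h1, neg_neg], h2⟩

theorem Co.ge (h : Co X Y) {p q : E} :
    1 ≤ dist p q ↔ 1 ≤ (X p - X q) ^ 2 + (Y p - Y q) ^ 2 := by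
  rw [← h.d, one_le_sq_iff₀ dist_nonneg]

theorem Co.lt (h : Co X Y) {p q : E} {D : ℝ} (D0 : 0 ≤ D)
    (e : (X p - X q) ^ 2 + (Y p - Y q) ^ 2 < D ^ 2) : dist p q < D :=
  lt_of_pow_lt_pow_left₀ 2 D0 (by rwa [h.d])

theorem Co.le (h : Co X Y) {p q : E} (hp : p ∈ A) (hq : q ∈ A) :
    (X p - X q) ^ 2 + (Y p - Y q) ^ 2 ≤ Metric.diam (A : Set E) ^ 2 := by
  rw [← h.d]
  exact pow_le_pow_left₀ dist_nonneg
    (Metric.dist_le_diam_of_mem A.finite_toSet.isBounded hp hq) 2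

/-- Every admissible replacement of one point is held in every direction by a contact. -/
def Jm (A : Finset E) : Prop :=
  ∀ z ∈ A, ∀ w, (∀ y ∈ A, y ≠ z → 1 ≤ dist w y) → (∀ y ∈ A, dist w y < Metric.diam (A : Set E)) →
    ∀ p, p ≠ w → ∃ y ∈ A, y ≠ z ∧ dist w y = 1 ∧ dist p y ^ 2 < dist p w ^ 2 + 1

theorem jm {n : ℕ}
    (hF : ¬∃ F : ℝ → Finset E, (∀ t, IsMin n (F t)) ∧ ∀ s t, Congr (F s) (F t) → s = t)
    (hA : IsMin n A) : Jm A := by
  classical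
  intro z hz w hs hd p hp
  have hw : w ∉ A.erase z := fun c => by
    have := hs w (mem_of_mem_erase c) (ne_of_mem_erase c)
    rw [dist_self] at this
    linarith
  have hbd := A.finite_toSet.isBounded
  have mem : ∀ y ∈ insert w (A.erase z), y = w ∨ y ∈ A ∧ y ≠ z := fun y hy =>
    (mem_insert.1 hy).imp id fun c => ⟨mem_of_mem_erase c, ne_of_mem_erase c⟩
  have hc : (insert w (A.erase z)).card = n := by
    rw [card_insert_of_notMem hw, card_erase_add_one hz, hA.1]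
  have hS : Sep (insert w (A.erase z)) := by
    intro x hx y hy e
    rcases mem x hx with rfl | hx' <;> rcases mem y hy with rfl | hy'
    · exact absurd rfl e
    · exact hs y hy'.1 hy'.2
    · exact dist_comm x y ▸ hs x hx'.1 hx'.2
    · exact hA.2.1 x hx'.1 y hy'.1 e
  have D0 : 0 < Metric.diam (A : Set E) := dist_nonneg.trans_lt (hd z hz)
  have hD : Metric.diam ((insert w (A.erase z) : Finset E) : Set E) ≤ Metric.diam (A : Set E) := by
    refine Metric.diam_le_of_forall_dist_le D0.le fun x hx y hy => ?_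
    rcases mem x hx with rfl | hx' <;> rcases mem y hy with rfl | hy'
    · rw [dist_self]
      exact D0.le
    · exact (hd y hy'.1).le
    · exact dist_comm x y ▸ (hd x hx'.1).le
    · exact Metric.dist_le_diam_of_mem hbd hx'.1 hy'.1
  have hB : IsMin n (insert w (A.erase z)) :=
    ⟨hc, hS, fun C c1 c2 => hD.trans (hA.2.2 C c1 c2)⟩
  have hE := hA.2.2 _ hc hS
  by_contra c
  refine hF (flex hB (fun x => if x = w then p - w else 0) (fun x _ e => ?_)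
    ⟨w, mem_insert_self _ _, by simpa using sub_ne_zero.2 hp⟩ fun x hx y hy e => ?_)
  · have : x = w := by
      by_contra k
      simp [k] at e
    subst this
    intro y hy
    refine lt_of_lt_of_le ?_ hE
    rcases mem y hy with rfl | hy
    · rwa [dist_self]
    · exact hd y hy.1
  · have key : ∀ y ∈ A, y ≠ z → dist w y = 1 → 0 ≤ ⟪p - w, w - y⟫ := fun y hy k e => by
      have h1 : dist p w ^ 2 + 1 ≤ dist p y ^ 2 := not_lt.1 fun l => c ⟨y, hy, k, e, l⟩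
      have h2 := norm_add_sq_real (p - w) (w - y)
      rw [sub_add_sub_cancel, ← dist_eq_norm, ← dist_eq_norm, ← dist_eq_norm, e] at h2
      linarith
    by_cases k1 : x = w <;> by_cases k2 : y = w
    · simp [k1, k2]
    · subst k1
      have hy := (mem y hy).resolve_left k2
      simpa [k2] using key y hy.1 hy.2 e
    · subst k2
      have hx := (mem x hx).resolve_left k1
      have := key x hx.1 hx.2 (dist_comm x y ▸ e)
      simp only [k1, if_true, if_false, zero_sub]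
      rwa [← neg_sub y x, inner_neg_neg]
    · simp [k1, k2]

theorem Jm.co (hJ : Jm A) (h : Co X Y) {z w : E} (hz : z ∈ A)
    (hs : ∀ y ∈ A, y ≠ z → 1 ≤ dist w y) (hd : ∀ y ∈ A, dist w y < Metric.diam (A : Set E))
    {a b : ℝ} (hab : a ≠ 0 ∨ b ≠ 0) : ∃ y ∈ A, y ≠ z ∧ (X y - X w) ^ 2 + (Y y - Y w) ^ 2 = 1 ∧
      0 < a * (X y - X w) + b * (Y y - Y w) := by
  obtain ⟨p, p1, p2⟩ := h.ex (X w + a) (Y w + b)
  obtain ⟨y, hy, k, e, l⟩ := hJ z hz w hs hd p (by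
    rintro rfl
    rcases hab with c | c
    · exact c (by linarith)
    · exact c (by linarith))
  have e1 := h.d w y
  rw [e] at e1
  rw [h.d, h.d, p1, p2] at l
  exact ⟨y, hy, k, by linarith, by linarith⟩

/-- Two almost opposite contacts of a point touching a large empty disc. -/
theorem two' (hS : Sep A) (hJ : Jm A) (h : Co X Y) {z b : E} (hz : z ∈ A) (hi : Inner A z)
    (x0 : X z = 0) (y0 : Y z = 0) {R : ℝ} (hR : 5 / 2 ≤ R)
    (hc : ∀ y ∈ A, 0 ≤ X y ^ 2 + Y y ^ 2 + 2 * R * Y y) (hb : b ∈ A)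
    (eb : X b ^ 2 + Y b ^ 2 = 1) (b1 : Y b < 0) (b2 : 0 ≤ X b) :
    ∃ a ∈ A, X a ^ 2 + Y a ^ 2 = 1 ∧ 0 < Y b * X a - X b * Y a ∧ X a ≤ -(97 / 100) ∧
      97 / 100 ≤ X b ∧ |Y a| ≤ 21 / 100 ∧ |Y b| ≤ 21 / 100 := by
  obtain ⟨a, ha, -, ea, l⟩ := hJ.co h hz (fun y hy k => hS z hz y hy k.symm) hi
    (a := Y b) (b := -X b) (Or.inl b1.ne)
  rw [x0, y0, sub_zero, sub_zero] at ea l
  have l' : 0 < Y b * X a - X b * Y a := by linarith
  have ca := hc a ha
  have cb := hc b hb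
  rw [ea] at ca
  rw [eb] at cb
  obtain ⟨h1, h2, h3⟩ := pair hR ea eb ca cb b1 b2 l' (h.ge.1 (hS a ha b hb (by
    rintro rfl
    linarith)))
  have h4 := low hR ca zero_le_one
  have h5 := low hR cb zero_le_one
  exact ⟨a, ha, ea, l', h2, h1, abs_le.2 ⟨by linarith, h3⟩, abs_le.2 ⟨by linarith, by linarith⟩⟩

theorem two (hS : Sep A) (hJ : Jm A) (h : Co X Y) {z : E} (hz : z ∈ A) (hi : Inner A z)
    (x0 : X z = 0) (y0 : Y z = 0) {R : ℝ} (hR : 5 / 2 ≤ R)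
    (hc : ∀ y ∈ A, 0 ≤ X y ^ 2 + Y y ^ 2 + 2 * R * Y y) :
    ∃ a ∈ A, ∃ b ∈ A, X a ^ 2 + Y a ^ 2 = 1 ∧ X b ^ 2 + Y b ^ 2 = 1 ∧
      0 < Y b * X a - X b * Y a ∧ X a ≤ -(97 / 100) ∧
      97 / 100 ≤ X b ∧ |Y a| ≤ 21 / 100 ∧ |Y b| ≤ 21 / 100 := by
  obtain ⟨b, hb, -, eb, l⟩ := hJ.co h hz (fun y hy k => hS z hz y hy k.symm) hi
    (a := 0) (b := -1) (Or.inr (by norm_num))
  rw [x0, y0, sub_zero, sub_zero] at eb l
  have b1 : Y b < 0 := by linarith
  rcases le_total 0 (X b) with k | k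
  · obtain ⟨a, ha, ea, r⟩ := two' hS hJ h hz hi x0 y0 hR hc hb eb b1 k
    exact ⟨a, ha, b, hb, ea, eb, r⟩
  · obtain ⟨a, ha, ea, r1, r2, r3, r4, r5⟩ := two' hS hJ h.neg hz hi (by rw [x0, neg_zero]) y0 hR
      (fun y hy => by simpa using hc y hy) hb (by simpa using eb) b1 (neg_nonneg.2 k)
    exact ⟨b, hb, a, ha, eb, by simpa using ea, by linarith, by linarith, by linarith, r5, r4⟩

/-- The flip of such a point is not allowed by the diameter. -/
theorem flip (hS : Sep A) (hJ : Jm A) (h : Co X Y) {z : E} (hz : z ∈ A) (hi : Inner A z)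
    (x0 : X z = 0) (y0 : Y z = 0) {R : ℝ} (hR : 5 / 2 ≤ R)
    (hc : ∀ y ∈ A, 0 ≤ X y ^ 2 + Y y ^ 2 + 2 * R * Y y) :
    ∃ a ∈ A, ∃ b ∈ A, ∃ w, X w = X a + X b ∧ Y w = Y a + Y b ∧ 0 < Y b * X a - X b * Y a ∧
      X a ≤ -(97 / 100) ∧ 97 / 100 ≤ X b ∧ |Y a| ≤ 21 / 100 ∧ |Y b| ≤ 21 / 100 ∧
      Y w < 0 ∧ -1 ≤ R * Y w ∧ |X w| ≤ -(22 / 100 * Y w) ∧
      ¬∀ y ∈ A, dist w y < Metric.diam (A : Set E) := by
  obtain ⟨a, ha, b, hb, ea, eb, l, a1, b1, a2, b2⟩ := two hS hJ h hz hi x0 y0 hR hc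
  obtain ⟨w, w1, w2⟩ := h.ex (X a + X b) (Y a + Y b)
  have ca := hc a ha
  have cb := hc b hb
  rw [ea] at ca
  rw [eb] at cb
  obtain ⟨s1, s2⟩ := small ea eb l a1 b1 a2 b2
  refine ⟨a, ha, b, hb, w, w1, w2, l, a1, b1, a2, b2, w2 ▸ s1, by rw [w2]; linarith,
    by rwa [w1, w2], fun hd => ?_⟩
  have key : ∀ y ∈ A, y ≠ z → 1 ≤ (X y - X w) ^ 2 + (Y y - Y w) ^ 2 ∧
      ((X y - X w) ^ 2 + (Y y - Y w) ^ 2 = 1 → X w * (X y - X w) + Y w * (Y y - Y w) ≤ 0) := by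
    intro y hy k
    have h1 := h.ge.1 (hS y hy z hz k)
    rw [x0, y0, sub_zero, sub_zero] at h1
    rw [w1, w2]
    rcases le_or_gt ((X a + X b) * (X y - X a) + (Y a + Y b) * (Y y - Y a)) 0 with c | c
    · exact ⟨by linarith, fun _ => by
        linarith [sq_nonneg (X a + X b), sq_nonneg (Y a + Y b)]⟩
    · have := far hR ea eb ca cb l a1 b1 a2 b2 h1 (hc y hy)
        (h.ge.1 (hS y hy a ha (by
          rintro rfl
          simp at c)))
        (h.ge.1 (hS y hy b hb (by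
          rintro rfl
          linarith))) c
      exact ⟨this.le, fun e => absurd e this.ne'⟩
  obtain ⟨y, hy, k, e, c⟩ := hJ.co h hz (w := w)
    (fun y hy k => dist_comm y w ▸ h.ge.2 (key y hy k).1) hd (a := X w) (b := Y w)
    (Or.inr (w2 ▸ s1.ne))
  exact ((key y hy k).2 e).not_gt c

end Pool.Agent.Lib.MP_509dcf_co.Flip
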