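import Pool.Agent.Lib.MP_509dcf_co.Flip2

/-! No long hull edges. -/

open Finset

namespace Pool.Agent.Lib.MP_509dcf_co.Flip

variable {X Y : E → ℝ} {A : Finset E}

theorem num {L c x y : ℝ} (hL : 4 ≤ L) (hc : 3 * L ≤ 8 * c) (y0 : 0 < y)
    (e : x ^ 2 + y ^ 2 - L * x + 2 * c * y = 0) (h1 : 1 ≤ x ^ 2 + y ^ 2) : 3 / 5 ≤ x := by
  have c0 : 0 < c := by linarith
  have h2 : 0 < L * x := by linarith [mul_pos c0 y0]
  have x0 : 0 < x := pos_of_mul_pos_left (by rwa [mul_comm] at h2) (by linarith : (0 : ℝ) ≤ L)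
  have h3 : L * (3 * y) ≤ L * (4 * x) := by
    linarith [mul_le_mul_of_nonneg_right hc y0.le]
  have h4 : 3 * y ≤ 4 * x := le_of_mul_le_mul_left h3 (by linarith)
  have h5 := pow_le_pow_left₀ (by linarith) h4 2
  exact ges x0.le (by linarith)

theorem fin {k r R y ua va ub vb uw vw : ℝ} (kr : k ^ 2 + r ^ 2 = 1) (k1 : 3 / 5 ≤ k)
    (hR : 5 / 2 ≤ R) (y3 : 3 ≤ 2 * R * y) (a1 : ua ≤ -(97 / 100)) (b1 : 97 / 100 ≤ ub)
    (a2 : |va| ≤ 21 / 100) (b2 : |vb| ≤ 21 / 100) (w3 : vw < 0) (w4 : -1 ≤ R * vw)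
    (w5 : |uw| ≤ -(22 / 100 * vw)) : k * ua + r * va < 0 ∧ 0 < k * ub + r * vb ∧
      |k * uw + r * vw| < 3 / 5 ∧ 0 ≤ y + (k * vw - r * uw) := by
  have k2 : k ≤ 1 := (one kr.le).2
  have k3 := pow_le_pow_left₀ (by norm_num) k1 2
  have r1 : |r| ≤ 4 / 5 := abs_le.2 (abs_le_of_sq_le_sq' (by linarith) (by norm_num))
  have m1 : ∀ {v t : ℝ}, |v| ≤ t → |r * v| ≤ 4 / 5 * t := fun hv => by
    rw [abs_mul]
    exact mul_le_mul r1 hv (abs_nonneg _) (by norm_num)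
  have n1 := abs_le.1 (m1 a2)
  have n2 := abs_le.1 (m1 b2)
  have n3 := abs_le.1 (m1 w5)
  have n4 : -(2 / 5) ≤ vw := by linarith [mul_le_mul_of_nonpos_right hR w3.le]
  have n5 := abs_le.1 (m1 (abs_le.2 ⟨n4, by linarith⟩ : |vw| ≤ 2 / 5))
  have n6 : |k * uw| ≤ 1 * (1 / 10) := by
    rw [abs_mul]
    exact mul_le_mul (abs_le.2 ⟨by linarith, k2⟩) (by linarith) (abs_nonneg _) zero_le_one
  have n6 := abs_le.1 n6
  have n7 : 3 / 5 * (97 / 100) ≤ k * ub := mul_le_mul k1 b1 (by norm_num) (by linarith)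
  have n8 : 3 / 5 * (97 / 100) ≤ k * -ua := mul_le_mul k1 (by linarith) (by norm_num) (by linarith)
  refine ⟨by linarith, by linarith, abs_lt.2 ⟨by linarith, by linarith⟩, ?_⟩
  have h1 := mul_le_mul_of_nonpos_right k2 w3.le
  have h2 : 6 / 5 * vw ≤ k * vw - r * uw := by linarith
  have h3 := mul_le_mul_of_nonneg_left h2 (by linarith : 0 ≤ R)
  exact nonneg_of_mul_nonneg_right (a := R) (by linarith) (by linarith)

theorem cap {L c x y : ℝ} (hL : 4 ≤ L) (y0 : 0 < y) (s2 : (L / 2 - x) ^ 2 + (0 - y) ^ 2 < 1)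
    (h1 : 0 ≤ x ^ 2 + y ^ 2 - L * x + 2 * c * y) : 3 * L ≤ 8 * c := by
  have s4 := (one (add_comm ((L / 2 - x) ^ 2) _ ▸ s2.le)).1
  have h2 : 3 * L / 4 < 2 * c * y := by nlinarith
  have h3 : 0 < c := by
    by_contra k
    linarith [mul_nonneg (neg_nonneg.2 (not_lt.1 k)) y0.le]
  linarith [mul_le_mul_of_nonneg_left (by linarith : y ≤ 1) h3.le]

theorem edge (hS : Sep A) (hJ : Jm A) (h : Co X Y) {p q : E} (hp : p ∈ A) (hq : q ∈ A) {L : ℝ}
    (p1 : X p = 0) (p2 : Y p = 0) (q1 : X q = L) (q2 : Y q = 0) (hL : 4 ≤ L)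
    (h0 : ∀ y ∈ A, 0 ≤ Y y) : False := by
  classical
  have D0 : 0 ≤ Metric.diam (A : Set E) := Metric.diam_nonneg
  have L0 : 0 < L := by linarith
  have ch : ∀ t, 0 < t → t < L → ∀ y ∈ A,
      (t - X y) ^ 2 + (0 - Y y) ^ 2 < Metric.diam (A : Set E) ^ 2 := fun t t0 t1 y hy => by
    have := sconv (t := t / L) (div_pos t0 L0) ((div_lt_one L0).2 t1) (by rw [p1, q1]; exact L0)
      (h.le hp hy) (h.le hq hy)
    rw [p1, p2, q1, q2] at this
    simpa [div_mul_cancel₀ t L0.ne'] using this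
  have sat : ∀ z ∈ A, ∀ m, 0 < X m → X m < L → Y m = 0 → ∃ y ∈ A, y ≠ z ∧ dist m y < 1 := by
    intro z hz m m0 m1 m2
    by_contra k
    obtain ⟨y, hy, -, -, l⟩ := hJ.co h hz (w := m)
      (fun y hy e => not_lt.1 fun l => k ⟨y, hy, e, l⟩)
      (fun y hy => h.lt D0 (by rw [m2]; exact ch _ m0 m1 y hy)) (a := 0) (b := -1)
      (Or.inr (by norm_num))
    linarith [h0 y hy]
  have pos : ∀ y ∈ A, 0 < X y → X y < L → 0 < Y y := fun y hy y0 y1 => by
    refine (h0 y hy).lt_of_ne fun e => ?_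
    obtain ⟨x, hx, k, l⟩ := sat y hy y y0 y1 e.symm
    exact l.not_ge (hS y hy x hx k.symm)
  obtain ⟨m, m1, m2⟩ := h.ex (L / 2) 0
  obtain ⟨s, hs, -, s1⟩ := sat p hp m (by linarith) (by linarith) m2
  have s2 : (L / 2 - X s) ^ 2 + (0 - Y s) ^ 2 < 1 := by
    rw [← m1, ← m2, ← h.d]
    exact pow_lt_one₀ dist_nonneg s1 two_ne_zero
  have s3 := one s2.le
  have s5 := pos s hs (by linarith [s3.2]) (by linarith [s3.1])
  obtain ⟨z, hz, mx⟩ := (A.filter fun y => 0 < Y y).exists_max_image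
    (fun y => (L * X y - X y ^ 2 - Y y ^ 2) / (2 * Y y)) ⟨s, mem_filter.2 ⟨hs, s5⟩⟩
  obtain ⟨hz, z0⟩ := mem_filter.1 hz
  obtain ⟨c, hc⟩ : ∃ c, c = (L * X z - X z ^ 2 - Y z ^ 2) / (2 * Y z) := ⟨_, rfl⟩
  have ez : X z ^ 2 + Y z ^ 2 - L * X z + 2 * c * Y z = 0 := by
    rw [hc]
    field_simp
    ring
  have out : ∀ y ∈ A, 0 ≤ X y ^ 2 + Y y ^ 2 - L * X y + 2 * c * Y y := fun y hy => by
    rcases (h0 y hy).eq_or_lt with e | e
    · rw [← e]
      rcases le_or_gt (X y) 0 with k | k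
      · linarith [mul_nonneg L0.le (neg_nonneg.2 k), sq_nonneg (X y)]
      · have : L ≤ X y := not_lt.1 fun l => (pos y hy k l).ne e
        linarith [mul_le_mul_of_nonneg_right this k.le]
    · have := mx y (mem_filter.2 ⟨hy, e⟩)
      rw [← hc, div_le_iff₀ (by linarith)] at this
      linarith
  have c1 : 3 * L ≤ 8 * c := cap hL s5 s2 (out s hs)
  have c0 : 0 < c := by linarith
  have zp : z ≠ p := by
    rintro rfl
    linarith
  have zq : z ≠ q := by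
    rintro rfl
    linarith
  have d1 := hS z hz p hp zp
  have d2 := hS z hz q hq zq
  have e1 := h.d z p
  have e2 := h.d z q
  rw [p1, p2] at e1
  rw [q1, q2] at e2
  have x1 : 3 / 5 ≤ X z := num hL c1 z0 ez (by linarith [one_le_pow₀ (n := 2) d1])
  have x2 : 3 / 5 ≤ L - X z := num hL c1 z0 (by linarith) (by linarith [one_le_pow₀ (n := 2) d2])
  have hi : Inner A z := fun y hy => by
    refine h.lt D0 (not_le.1 fun k => ?_)
    have k1 := (h.le hp hy).trans k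
    have k2 := (h.le hq hy).trans k
    rw [p1, p2] at k1
    rw [q1, q2] at k2
    have k3 := mul_le_mul_of_nonneg_left k1 (by linarith : 0 ≤ L - X z)
    have k4 := mul_le_mul_of_nonneg_left k2 (by linarith : 0 ≤ X z)
    have k5 : L * (2 * Y y * Y z + 2 * c * Y z) ≤ 0 := by
      have : L * (X z ^ 2 + Y z ^ 2 - L * X z + 2 * c * Y z) = 0 := by rw [ez, mul_zero]
      linarith
    have := h0 y hy
    have : 0 < L * (2 * Y y * Y z + 2 * c * Y z) := by positivity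
    linarith
  obtain ⟨R, R0, eR⟩ : ∃ R, 0 < R ∧ R ^ 2 = c ^ 2 + L ^ 2 / 4 :=
    ⟨√(c ^ 2 + L ^ 2 / 4), Real.sqrt_pos.2 (by positivity), Real.sq_sqrt (by positivity)⟩
  have c2 := pow_le_pow_left₀ (by linarith) c1 2
  have hR : 5 / 2 ≤ R := ges R0.le (by
    linarith [pow_le_pow_left₀ (by norm_num) hL 2])
  obtain ⟨k, hk⟩ : ∃ k, k * R = Y z + c := ⟨(Y z + c) / R, div_mul_cancel₀ _ R0.ne'⟩
  obtain ⟨r, hr⟩ : ∃ r, r * R = X z - L / 2 := ⟨(X z - L / 2) / R, div_mul_cancel₀ _ R0.ne'⟩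
  have kr : k ^ 2 + r ^ 2 = 1 := by
    have : (k ^ 2 + r ^ 2) * R ^ 2 = 1 * R ^ 2 := by
      rw [add_mul, ← mul_pow, ← mul_pow, hk, hr, eR]
      linarith
    exact mul_right_cancel₀ (pow_pos R0 2).ne' this
  have k1 : 3 / 5 ≤ k := by
    have : 3 / 5 * R ≤ c := ges c0.le (by linarith)
    exact le_of_mul_le_mul_right (by linarith) R0
  have y3 : 3 ≤ 2 * R * Y z := by
    have h1 := dist_triangle_left p q z
    have h2 : L ≤ dist p q := ges dist_nonneg (by rw [h.d, p1, p2, q1, q2]; linarith)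
    have h3 : 3 ≤ dist z p * dist z q := by
      linarith [mul_nonneg (sub_nonneg.2 d1) (sub_nonneg.2 d2)]
    refine h3.trans (ges (by positivity) (le_of_eq ?_))
    have f1 : dist z p ^ 2 = L * X z - 2 * c * Y z := by linarith
    have f2 : dist z q ^ 2 = L * (L - X z) - 2 * c * Y z := by linarith
    rw [mul_pow, f1, f2, mul_pow, mul_pow, eR]
    linear_combination (-L ^ 2) * ez
  obtain ⟨a, ha, b, hb, w, w1, w2, l, a1, b1, a2, b2, w3, w4, w5, w6⟩ :=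
    flip hS hJ (h.rot kr (X z) (Y z)) hz hi (by simp) (by simp) hR fun y hy => by
      have := out y hy
      have e : (k * (X y - X z) - r * (Y y - Y z)) ^ 2 + (r * (X y - X z) + k * (Y y - Y z)) ^ 2 +
          2 * R * (r * (X y - X z) + k * (Y y - Y z)) =
          X y ^ 2 + Y y ^ 2 - L * X y + 2 * c * Y y := by
        linear_combination ((X y - X z) ^ 2 + (Y y - Y z) ^ 2) * kr + 2 * (X y - X z) * hr +
          2 * (Y y - Y z) * hk - ez
      rwa [e]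
  have inv : ∀ y, ∃ u v, u = k * (X y - X z) - r * (Y y - Y z) ∧
      v = r * (X y - X z) + k * (Y y - Y z) ∧ X y = X z + (k * u + r * v) ∧
      Y y = Y z + (k * v - r * u) := fun y =>
    ⟨_, _, rfl, rfl, by linear_combination (-(X y - X z)) * kr,
      by linear_combination (-(Y y - Y z)) * kr⟩
  obtain ⟨ua, va, i1, i2, a3, a4⟩ := inv a
  obtain ⟨ub, vb, j1, j2, b3, b4⟩ := inv b
  obtain ⟨uw, vw, l1, l2, w7, w8⟩ := inv w
  simp only [← i1, ← i2, ← j1, ← j2, ← l1, ← l2] at w1 w2 l a1 b1 a2 b2 w3 w4 w5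
  clear i1 i2 j1 j2 l1 l2
  obtain ⟨n1, n2, n3, n4⟩ := fin kr k1 hR y3 a1 b1 a2 b2 w3 w4 w5
  have n3 := abs_lt.1 n3
  refine w6 fun y hy => h.lt D0 (tri (a1 := X a) (a2 := Y a) (b1 := X b) (b2 := Y b) ?_ ?_
    (w8 ▸ n4) ?_ (h.le ha hy) (h.le hb hy)
    (ch _ (by linarith only [w7, n3.1, x1]) (by linarith only [w7, n3.2, x2]) y hy))
  · rw [w7, a3, w1, w2]
    linarith only [n2]
  · rw [w7, b3, w1, w2]
    linarith only [n1]
  · rw [w7, w8, a3, a4, b3, b4, w1, w2]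
    have : (k ^ 2 + r ^ 2) * (vb * ua - ub * va) = vb * ua - ub * va := by rw [kr, one_mul]
    linarith only [this, l]

end Pool.Agent.Lib.MP_509dcf_co.Flip
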