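import Pool.Agent.Lib.MP_509dcf_co.Flip3

/-! Supporting lines, number and directions of diameters. -/

open Finset

namespace Pool.Agent.Lib.MP_509dcf_co.Flip

variable {X Y : E → ℝ} {A : Finset E}

theorem core (hS : Sep A) (hJ : Jm A) (h : Co X Y) {a b : ℝ} (hab : a ≠ 0 ∨ b ≠ 0) {p : E}
    (hp : p ∈ A) (hm : ∀ x ∈ A, a * X p + b * Y p ≤ a * X x + b * Y x) :
    ¬Inner A p ∧ ∀ q ∈ A, a * X q + b * Y q = a * X p + b * Y p → dist p q < 4 := by
  refine ⟨fun hi => ?_, fun q hq e => not_le.1 fun hL => ?_⟩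
  · obtain ⟨y, hy, -, -, l⟩ := hJ.co h hp (fun y hy k => hS p hp y hy k.symm) hi (a := -a)
      (b := -b) (by simpa using hab)
    linarith [hm y hy]
  have n0 : 0 < a ^ 2 + b ^ 2 := by
    rcases hab with c | c <;> positivity
  obtain ⟨N, N0, eN⟩ : ∃ N, 0 < N ∧ N ^ 2 = a ^ 2 + b ^ 2 :=
    ⟨√(a ^ 2 + b ^ 2), Real.sqrt_pos.2 n0, Real.sq_sqrt n0.le⟩
  have kr : (b / N) ^ 2 + (a / N) ^ 2 = 1 := by
    field_simp
    linarith
  have h' := h.rot kr (X p) (Y p)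
  have f : ∀ y, a / N * (X y - X p) + b / N * (Y y - Y p) =
      (a * X y + b * Y y - (a * X p + b * Y p)) / N := fun y => by ring
  have h0 : ∀ y ∈ A, 0 ≤ a / N * (X y - X p) + b / N * (Y y - Y p) := fun y hy => by
    rw [f]
    exact div_nonneg (sub_nonneg.2 (hm y hy)) N0.le
  have q2 : a / N * (X q - X p) + b / N * (Y q - Y p) = 0 := by rw [f, e, sub_self, zero_div]
  have e1 := h'.d p q
  simp only [q2, sub_self, mul_zero, add_zero, zero_sub, neg_sq] at e1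
  rw [zero_pow two_ne_zero, add_zero] at e1
  rcases sq_eq_sq_iff_eq_or_eq_neg.1 e1 with c | c
  · exact edge hS hJ h' hp hq (by simp) (by simp) c.symm q2 hL h0
  · exact edge hS hJ h'.neg hp hq (by simp) (by simp) c.symm q2 hL h0

/-- The edge of the lower hull over a generic abscissa. -/
theorem lower {t : ℝ} (ht : ∀ x ∈ A, X x ≠ t) (h1 : ∃ x ∈ A, X x < t) (h2 : ∃ x ∈ A, t < X x) :
    ∃ p ∈ A, ∃ q ∈ A, X p < t ∧ t < X q ∧
      ∀ x ∈ A, (Y q - Y p) * (X x - X p) ≤ (X q - X p) * (Y x - Y p) := by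
  classical
  obtain ⟨x1, a1, a2⟩ := h1
  obtain ⟨x2, b1, b2⟩ := h2
  obtain ⟨⟨p, q⟩, hm, mn⟩ := ((A.filter fun x => X x < t) ×ˢ (A.filter fun x => t < X x)
    ).exists_min_image (fun r => (Y r.1 * (X r.2 - t) + Y r.2 * (t - X r.1)) / (X r.2 - X r.1))
      ⟨(x1, x2), mem_product.2 ⟨mem_filter.2 ⟨a1, a2⟩, mem_filter.2 ⟨b1, b2⟩⟩⟩
  obtain ⟨hp, hq⟩ := mem_product.1 hm
  obtain ⟨hp, p1⟩ := mem_filter.1 hp
  obtain ⟨hq, q1⟩ := mem_filter.1 hq
  dsimp only at hp hq p1 q1 mn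
  refine ⟨p, hp, q, hq, p1, q1, fun x hx => ?_⟩
  rcases (ht x hx).lt_or_gt with c | c
  · have := mn (x, q) (mem_product.2 ⟨mem_filter.2 ⟨hx, c⟩, mem_filter.2 ⟨hq, q1⟩⟩)
    dsimp only at this
    rw [div_le_div_iff₀ (by linarith) (by linarith)] at this
    exact le_of_mul_le_mul_left (a := X q - t) (by linarith) (by linarith)
  · have := mn (p, x) (mem_product.2 ⟨mem_filter.2 ⟨hp, p1⟩, mem_filter.2 ⟨hx, c⟩⟩)
    dsimp only at this
    rw [div_le_div_iff₀ (by linarith) (by linarith)] at this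
    exact le_of_mul_le_mul_left (a := t - X p) (by linarith) (by linarith)

theorem lower' (hS : Sep A) (hJ : Jm A) (h : Co X Y) {t : ℝ} (ht : ∀ x ∈ A, X x ≠ t)
    (h1 : ∃ x ∈ A, X x < t) (h2 : ∃ x ∈ A, t < X x) :
    ∃ p ∈ A, ∃ q ∈ A, X p < t ∧ t < X q ∧ dist p q < 4 ∧ ¬Inner A p ∧ ¬Inner A q ∧
      ∀ x ∈ A, (Y q - Y p) * (X x - X p) ≤ (X q - X p) * (Y x - Y p) := by
  obtain ⟨p, hp, q, hq, p1, q1, m⟩ := lower (Y := Y) ht h1 h2
  have n : -(Y q - Y p) ≠ 0 ∨ X q - X p ≠ 0 := Or.inr (by linarith : 0 < X q - X p).ne'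
  obtain ⟨c1, c2⟩ := core hS hJ h n hp fun x hx => by linarith [m x hx]
  exact ⟨p, hp, q, hq, p1, q1, c2 q hq (by ring), c1,
    (core hS hJ h n hq fun x hx => by linarith [m x hx]).1, m⟩

theorem Co.dx (h : Co X Y) (p q : E) : |X q - X p| ≤ dist p q ∧ |Y q - Y p| ≤ dist p q :=
  ⟨abs_le.2 (abs_le_of_sq_le_sq' (by rw [h.d]; linarith [sq_nonneg (Y p - Y q)]) dist_nonneg),
    abs_le.2 (abs_le_of_sq_le_sq' (by rw [h.d]; linarith [sq_nonneg (X p - X q)]) dist_nonneg)⟩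

theorem gen (X : E → ℝ) (A : Finset E) {u v : ℝ} (h : u < v) :
    ∃ t, u < t ∧ t < v ∧ ∀ x ∈ A, X x ≠ t := by
  classical
  obtain ⟨t, h1, h2⟩ := (Set.Ioo_infinite h).exists_notMem_finset (A.image X)
  exact ⟨t, h1.1, h1.2, fun x hx e => h2 (mem_image.2 ⟨x, hx, e⟩)⟩

theorem partner {p : E} (hp : p ∈ A) (h : ¬Inner A p) :
    ∃ y ∈ A, dist p y = Metric.diam (A : Set E) := by
  by_contra c
  exact h fun y hy => (Metric.dist_le_diam_of_mem A.finite_toSet.isBounded hp hy).lt_of_ne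
    fun e => c ⟨y, hy, e⟩

/-- A frame in which a given segment is vertical. -/
theorem Co.vert (h : Co X Y) {a b : E} {D : ℝ} (D0 : 0 < D) (e : dist a b = D) :
    Co (fun p => (Y b - Y a) / D * (X p - X a) - (X b - X a) / D * (Y p - Y a))
      (fun p => (X b - X a) / D * (X p - X a) + (Y b - Y a) / D * (Y p - Y a)) ∧
    (Y b - Y a) / D * (X b - X a) - (X b - X a) / D * (Y b - Y a) = 0 ∧
    (X b - X a) / D * (X b - X a) + (Y b - Y a) / D * (Y b - Y a) = D := by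
  have e1 := h.d a b
  rw [e] at e1
  refine ⟨h.rot ?_ _ _, by ring, ?_⟩
  · field_simp
    linarith
  · field_simp
    linarith

theorem Co.swap (h : Co X Y) : Co Y X :=
  ⟨fun p q => by rw [h.d, add_comm], fun a b => (h.ex b a).imp fun _ c => c.symm⟩

theorem many (hS : Sep A) (hJ : Jm A) :
    Metric.diam (A : Set E) / 5 - 1 ≤ {x | x ∈ A ∧ ¬Inner A x}.ncard := by
  classical
  rcases le_or_gt (Metric.diam (A : Set E)) 5 with c | c
  · linarith [Nat.cast_nonneg (α := ℝ) {x | x ∈ A ∧ ¬Inner A x}.ncard]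
  have ne : A.Nonempty := by
    rw [nonempty_iff_ne_empty]
    rintro rfl
    simp at c
    linarith
  obtain ⟨a, ha, hi⟩ := exists_diam ne
  obtain ⟨b, hb, e⟩ := partner ha hi
  obtain ⟨h, -, b1⟩ := co0.vert (by linarith) e
  obtain ⟨X, Y, h, a1, b1⟩ : ∃ X Y, Co X Y ∧ X a = 0 ∧ X b = Metric.diam (A : Set E) :=
    ⟨_, _, h.swap, by simp, b1⟩
  have key : ∀ j ∈ range ⌊Metric.diam (A : Set E) / 5⌋₊,
      ∃ p, (p ∈ A ∧ ¬Inner A p) ∧ 5 * (j : ℝ) < X p ∧ X p < 5 * (j + 1) := fun j hj => by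
    have j0 : (0 : ℝ) ≤ j := Nat.cast_nonneg j
    have j1 : (j : ℝ) + 1 ≤ Metric.diam (A : Set E) / 5 := by
      have : ((j + 1 : ℕ) : ℝ) ≤ ⌊Metric.diam (A : Set E) / 5⌋₊ := by
        exact_mod_cast mem_range.1 hj
      push_cast at this
      exact this.trans (Nat.floor_le (by linarith))
    obtain ⟨t, t1, t2, t3⟩ := gen X A (u := 5 * j + 4) (v := 5 * j + 5) (by linarith)
    obtain ⟨p, hp, q, -, p1, q1, d, i, -⟩ := lower' hS hJ h t3 ⟨a, ha, by linarith⟩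
      ⟨b, hb, by linarith⟩
    exact ⟨p, ⟨hp, i⟩, by linarith [(abs_le.1 (h.dx p q).1).2], by linarith⟩
  choose! f hf using key
  have h1 := Set.ncard_le_ncard_of_injOn f (s := (range ⌊Metric.diam (A : Set E) / 5⌋₊ : Finset ℕ))
    (t := {x | x ∈ A ∧ ¬Inner A x}) (fun j hj => (hf j hj).1) (fun i hi j hj e => by
      have h1 := (hf i hi).2
      have h2 := (hf j hj).2
      rw [e] at h1
      have h3 : (i : ℝ) < j + 1 := by linarith [h1.1, h2.2]
      have h4 : (j : ℝ) < i + 1 := by linarith [h1.2, h2.1]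
      have h3 : i < j + 1 := by exact_mod_cast h3
      have h4 : j < i + 1 := by exact_mod_cast h4
      omega) (A.finite_toSet.subset fun x hx => hx.1)
  rw [Set.ncard_coe_finset, card_range] at h1
  have h2 : (⌊Metric.diam (A : Set E) / 5⌋₊ : ℝ) ≤ {x | x ∈ A ∧ ¬Inner A x}.ncard := by
    exact_mod_cast h1
  linarith [Nat.lt_floor_add_one (Metric.diam (A : Set E) / 5)]

theorem pack (hS : Sep A) : √(A.card : ℝ) ≤ 10 / 7 * Metric.diam (A : Set E) + 1 := by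
  classical
  have D0 : 0 ≤ Metric.diam (A : Set E) := Metric.diam_nonneg
  rcases A.eq_empty_or_nonempty with rfl | ne
  · simp
  obtain ⟨a, ha, ma⟩ := A.exists_min_image (fun p => p 0) ne
  obtain ⟨b, hb, mb⟩ := A.exists_min_image (fun p => p 1) ne
  obtain ⟨N, hN⟩ : ∃ N, N = ⌊10 / 7 * Metric.diam (A : Set E)⌋₊ + 1 := ⟨_, rfl⟩
  have fl : ∀ {u v : ℝ}, 0 ≤ u → 0 ≤ v → ⌊10 / 7 * u⌋₊ = ⌊10 / 7 * v⌋₊ →
      (u - v) ^ 2 ≤ 49 / 100 := fun {u v} hu hv e => by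
    have h1 := Nat.floor_le (by linarith : 0 ≤ 10 / 7 * u)
    have h2 := Nat.floor_le (by linarith : 0 ≤ 10 / 7 * v)
    have h3 := Nat.lt_floor_add_one (10 / 7 * u)
    have h4 := Nat.lt_floor_add_one (10 / 7 * v)
    rw [e] at h1 h3
    exact sqb (lo := -(7 / 10)) (hi := 7 / 10) (by linarith) (by linarith) (by norm_num)
      (by norm_num)
  have h1 := card_le_card_of_injOn (s := A) (t := range N ×ˢ range N)
    (fun x => (⌊10 / 7 * (x 0 - a 0)⌋₊, ⌊10 / 7 * (x 1 - b 1)⌋₊))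
    (fun x hx => by
      have h1 := co0.le hx ha
      have h2 := co0.le hx hb
      have h3 : x 0 - a 0 ≤ Metric.diam (A : Set E) :=
        ges D0 (by linarith [sq_nonneg (x 1 - a 1)])
      have h4 : x 1 - b 1 ≤ Metric.diam (A : Set E) :=
        ges D0 (by linarith [sq_nonneg (x 0 - b 0)])
      simp only [coe_product, Set.mem_prod, mem_coe, mem_range, hN]
      exact ⟨Nat.lt_succ_of_le (Nat.floor_le_floor (by linarith)),
        Nat.lt_succ_of_le (Nat.floor_le_floor (by linarith))⟩)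
    (fun x hx y hy e => by
      by_contra c
      have h1 := co0.ge.1 (hS x hx y hy c)
      have h2 := fl (sub_nonneg.2 (ma x hx)) (sub_nonneg.2 (ma y hy)) (Prod.mk.inj e).1
      have h3 := fl (sub_nonneg.2 (mb x hx)) (sub_nonneg.2 (mb y hy)) (Prod.mk.inj e).2
      linarith)
  rw [card_product, card_range] at h1
  have h2 : (A.card : ℝ) ≤ (N : ℝ) ^ 2 := by
    rw [sq]
    exact_mod_cast h1
  have h3 : (N : ℝ) ≤ 10 / 7 * Metric.diam (A : Set E) + 1 := by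
    rw [hN]
    push_cast
    linarith [Nat.floor_le (by linarith : 0 ≤ 10 / 7 * Metric.diam (A : Set E))]
  exact (Real.sqrt_le_left (Nat.cast_nonneg N)).2 h2 |>.trans h3

end Pool.Agent.Lib.MP_509dcf_co.Flip
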