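import Pool.Agent.Lib.MP_509dcf_co.Flip4

/-! Directions of diameters are dense at scale `8 / D`. -/

open Finset

namespace Pool.Agent.Lib.MP_509dcf_co.Flip

variable {X Y : E → ℝ} {A : Finset E}

theorem acute (hS : Sep A) (h : Co X Y) {s t x : E} (hs : s ∈ A) (ht : t ∈ A) (hx : x ∈ A)
    (e : dist s t = Metric.diam (A : Set E)) (k : x ≠ s) :
    0 < (X t - X s) * (X x - X s) + (Y t - Y s) * (Y x - Y s) := by
  have h1 := h.le hx ht
  have h2 := h.ge.1 (hS x hx s hs k)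
  rw [← e, h.d] at h1
  linarith

theorem up {d1 d2 x v P Q : ℝ} (h1 : 0 < -(d1 * x) - d2 * v) (h2 : 0 < d1 * (P - x) + d2 * (Q - v))
    (h3 : Q * x ≤ P * v) (h4 : d1 < 0) (h5 : 0 < v) : Q < v := by
  by_contra c
  have c := sub_nonneg.2 (not_lt.1 c)
  linarith [mul_nonneg h1.le c, mul_pos h2 h5, mul_nonneg (neg_pos.2 h4).le (sub_nonneg.2 h3)]

theorem cyc {d1 d2 c1 c2 e1 e2 g1 g2 : ℝ} (d0 : d1 < 0) (c0 : c1 < 0) (e0 : 0 < e2) (g0 : 0 < g2)
    (h1 : 0 < d1 * e1 + d2 * e2) (h2 : c1 * e1 + c2 * e2 < 0) (h3 : 0 < c1 * g1 + c2 * g2)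
    (h4 : d1 * g1 + d2 * g2 < 0) : False := by
  have a1 : 0 < e2 * (d1 * c2 - d2 * c1) := by
    linarith [mul_pos (neg_pos.2 c0) h1, mul_pos (neg_pos.2 d0) (neg_pos.2 h2)]
  have a2 : 0 < g2 * (d2 * c1 - d1 * c2) := by
    linarith [mul_pos (neg_pos.2 d0) h3, mul_pos (neg_pos.2 c0) (neg_pos.2 h4)]
  linarith [pos_of_mul_pos_left (mul_comm e2 _ ▸ a1) e0.le |> fun t => t,
    pos_of_mul_pos_left (mul_comm g2 _ ▸ a2) g0.le |> fun t => t]

/-- The hull vertex following the lower end of a vertical diameter. -/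
theorem nxt (hS : Sep A) (hJ : Jm A) (h : Co X Y) {a b : E} (ha : a ∈ A) (hb : b ∈ A)
    (a1 : X a = 0) (a2 : Y a = 0) (b1 : X b = 0) (b2 : Y b = Metric.diam (A : Set E))
    (hD : 4 ≤ Metric.diam (A : Set E)) : (∀ x ∈ A, x ≠ a → 0 < Y x) ∧
      ∃ q ∈ A, 0 < X q ∧ dist a q < 4 ∧ ¬Inner A q ∧ ∀ x ∈ A, Y q * X x ≤ X q * Y x := by
  classical
  have e : dist a b = Metric.diam (A : Set E) :=
    (pow_left_inj₀ dist_nonneg (by linarith) two_ne_zero).1 (by rw [h.d, a1, a2, b1, b2]; ring)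
  have hY : ∀ x ∈ A, x ≠ a → 0 < Y x := fun x hx k => by
    have := acute hS h ha hb hx e k
    rw [a1, a2, b1, b2] at this
    exact pos_of_mul_pos_right (a := Metric.diam (A : Set E)) (by linarith) (by linarith)
  refine ⟨hY, ?_⟩
  have ne : (A.filter fun x => 0 < X x).Nonempty := by
    by_contra c
    have := (core hS hJ h (a := -1) (b := 0) (Or.inl (by norm_num)) ha fun x hx => by
      have : X x ≤ 0 := not_lt.1 fun l => c ⟨x, mem_filter.2 ⟨hx, l⟩⟩
      linarith).2 b hb (by linarith)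
    linarith
  obtain ⟨m, hm, mn⟩ := exists_min_image _ X ne
  obtain ⟨hm, m0⟩ := mem_filter.1 hm
  have gap : ∀ x ∈ A, X x ≤ 0 ∨ X m ≤ X x := fun x hx =>
    (le_or_gt (X x) 0).imp id fun l => mn x (mem_filter.2 ⟨hx, l⟩)
  obtain ⟨p, hp, q, hq, p1, q1, d, -, i, l⟩ := lower' hS hJ h (t := X m / 2)
    (fun x hx k => by rcases gap x hx with c | c <;> linarith) ⟨a, ha, by linarith⟩
    ⟨m, hm, by linarith⟩
  have q0 : 0 < X q := by linarith
  have p0 : X p ≤ 0 := (gap p hp).resolve_right (by linarith)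
  have q2 := hY q hq (by
    rintro rfl
    linarith)
  obtain rfl : p = a := by
    by_contra c
    have h1 := l a ha
    rw [a1, a2] at h1
    linarith [mul_pos q0 (hY p hp c), mul_nonneg q2.le (neg_nonneg.2 p0)]
  refine ⟨q, hq, q0, d, i, fun x hx => ?_⟩
  have := l x hx
  rw [a1, a2] at this
  linarith

/-- Next to a vertical diameter there is one tilted slightly to the left. -/
theorem tilt (hS : Sep A) (hJ : Jm A) (h : Co X Y) {a b : E} (ha : a ∈ A) (hb : b ∈ A)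
    (a1 : X a = 0) (a2 : Y a = 0) (b1 : X b = 0) (b2 : Y b = Metric.diam (A : Set E))
    (hD : 8 ≤ Metric.diam (A : Set E)) : ∃ s ∈ A, ∃ t ∈ A, dist s t = Metric.diam (A : Set E) ∧
      -8 < X t - X s ∧ X t - X s < 0 ∧ 0 ≤ Y t - Y s := by
  obtain ⟨hY, q, hq, q0, q1, qi, ql⟩ := nxt hS hJ h ha hb a1 a2 b1 b2 (by linarith)
  obtain ⟨hY', r, hr, r0, r1, ri, rl⟩ := nxt hS hJ
    (h.rot (k := -1) (s := 0) (by norm_num) 0 (Metric.diam (A : Set E))) hb ha (by simp [b1])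
    (by simp [b2]) (by simp [a1]) (by simp [a2]) (by linarith)
  replace hY' : ∀ x ∈ A, x ≠ b → Y x < Metric.diam (A : Set E) := fun x hx k => by
    linarith [hY' x hx k]
  replace r0 : X r < 0 := by linarith
  replace rl : ∀ x ∈ A, (Metric.diam (A : Set E) - Y r) * -X x ≤
      -X r * (Metric.diam (A : Set E) - Y x) := fun x hx => by linarith [rl x hx]
  obtain ⟨y, hy, ey⟩ := partner hq qi
  obtain ⟨z, hz, ez⟩ := partner hr ri
  obtain ⟨q2, q3⟩ := h.dx a q
  obtain ⟨r2, r3⟩ := h.dx b r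
  have q2 := (abs_le.1 q2).2
  have q3 := (abs_le.1 q3).2
  have r2 := (abs_le.1 r2).1
  have r3 := (abs_le.1 r3).1
  have qa : q ≠ a := by
    rintro rfl
    linarith
  have qb : q ≠ b := by
    rintro rfl
    linarith
  have ra : r ≠ a := by
    rintro rfl
    linarith
  have rb : r ≠ b := by
    rintro rfl
    linarith
  have side : ∀ s ∈ A, ∀ t ∈ A, dist s t = Metric.diam (A : Set E) → s ≠ a → s ≠ b →
      (X t - X s) * X s < 0 := fun s hs t ht e k1 k2 => by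
    have h1 := acute hS h hs ht ha e k1.symm
    have h2 := acute hS h hs ht hb e k2.symm
    rw [a1, a2] at h1
    rw [b1, b2] at h2
    have h3 := mul_pos h1 (sub_pos.2 (hY' s hs k2))
    have h4 := mul_pos h2 (hY s hs k1)
    exact neg_of_mul_neg_left (b := Metric.diam (A : Set E)) (by linarith) (by linarith)
  by_cases c1 : y = b
  · subst c1
    exact ⟨q, hq, y, hy, ey, by linarith, by linarith, by linarith⟩
  by_cases c2 : z = a
  · subst c2
    exact ⟨z, hz, r, hr, dist_comm r z ▸ ez, by linarith, by linarith, by linarith⟩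
  by_cases c3 : y = r ∨ z = q
  · refine ⟨q, hq, r, hr, ?_, by linarith, by linarith, by linarith⟩
    rcases c3 with rfl | rfl
    · exact ey
    · exact dist_comm r z ▸ ez
  obtain ⟨c3, c4⟩ := not_or.1 c3
  have ya : y ≠ a := by
    rintro rfl
    linarith [dist_comm q y]
  have zb : z ≠ b := by
    rintro rfl
    linarith [dist_comm r z]
  have ey' : dist y q = Metric.diam (A : Set E) := dist_comm q y ▸ ey
  have ez' : dist z r = Metric.diam (A : Set E) := dist_comm r z ▸ ez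
  have d0 : X y - X q < 0 := neg_of_mul_neg_left (side q hq y hy ey qa qb) q0.le
  have c0 : X r - X z < 0 := by
    have := pos_of_mul_neg_left (side r hr z hz ez ra rb) r0.le
    linarith
  have f1 := acute hS h hz hr hq ez' (Ne.symm c4)
  have f2 := acute hS h hy hq hr ey' (Ne.symm c3)
  have e0 : Y q < Y z := by
    have := acute hS h hz hr ha ez' (Ne.symm c2)
    rw [a1, a2] at this
    exact up (d1 := X r - X z) (d2 := Y r - Y z) (x := X z) (P := X q) (by linarith) f1 (ql z hz)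
      c0 (hY z hz c2)
  have g0 : Metric.diam (A : Set E) - Y r < Metric.diam (A : Set E) - Y y := by
    have := acute hS h hy hq hb ey' (Ne.symm c1)
    rw [b1, b2] at this
    exact up (d1 := X y - X q) (d2 := Y y - Y q) (x := -X y) (P := -X r) (by linarith)
      (by linarith) (rl y hy) d0 (sub_pos.2 (hY' y hy c1))
  exact (cyc (e1 := X z - X q) (e2 := Y z - Y q) (g1 := X r - X y) (g2 := Y r - Y y)
    (d2 := Y y - Y q) (c2 := Y r - Y z) d0 c0 (by linarith) (by linarith)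
    (acute hS h hq hy hz ey c4) (by linarith) (by linarith [acute hS h hr hz hy ez c3])
    (by linarith)).elim

theorem dir' (hS : Sep A) (hJ : Jm A) (h : Co X Y)
    (ne : ∃ s ∈ A, ∃ t ∈ A, dist s t = Metric.diam (A : Set E) ∧ X s ≤ X t ∧ Y s ≤ Y t) :
    ∃ s ∈ A, ∃ t ∈ A, dist s t = Metric.diam (A : Set E) ∧ |X t - X s| < 8 := by
  classical
  by_contra c
  have c : ∀ s ∈ A, ∀ t ∈ A, dist s t = Metric.diam (A : Set E) → 8 ≤ |X t - X s| :=
    fun s hs t ht e => not_lt.1 fun l => c ⟨s, hs, t, ht, e, l⟩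
  obtain ⟨s0, h1, t0, h2, h3⟩ := ne
  obtain ⟨⟨a, b⟩, hm, mn⟩ := ((A ×ˢ A).filter fun r => dist r.1 r.2 = Metric.diam (A : Set E) ∧
    X r.1 ≤ X r.2 ∧ Y r.1 ≤ Y r.2).exists_min_image (fun r => X r.2 - X r.1)
      ⟨(s0, t0), mem_filter.2 ⟨mem_product.2 ⟨h1, h2⟩, h3⟩⟩
  obtain ⟨hm, e, x0, y0⟩ := mem_filter.1 hm
  obtain ⟨ha, hb⟩ := mem_product.1 hm
  dsimp only at ha hb e x0 y0 mn
  have r8 := c a ha b hb e
  rw [abs_of_nonneg (sub_nonneg.2 x0)] at r8
  have hD : 8 ≤ Metric.diam (A : Set E) := by linarith [(abs_le.1 (h.dx a b).1).2]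
  have D0 : 0 < Metric.diam (A : Set E) := by linarith
  obtain ⟨h', b1, b2⟩ := h.vert D0 e
  obtain ⟨s, hs, t, ht, est, l1, l2, l3⟩ := tilt hS hJ h' ha hb (by simp) (by simp) b1 b2 hD
  have e2 := h'.d t s
  rw [dist_comm, est] at e2
  have e1 := h.d a b
  rw [e] at e1
  obtain ⟨k, hk⟩ : ∃ k, k = (Y b - Y a) / Metric.diam (A : Set E) := ⟨_, rfl⟩
  obtain ⟨r, hr⟩ : ∃ r, r = (X b - X a) / Metric.diam (A : Set E) := ⟨_, rfl⟩
  have kr : k ^ 2 + r ^ 2 = 1 := by
    rw [hk, hr]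
    field_simp
    linarith
  have k0 : 0 ≤ k := hk ▸ div_nonneg (sub_nonneg.2 y0) D0.le
  have r0 : 0 < r := hr ▸ div_pos (by linarith) D0
  have rD : r * Metric.diam (A : Set E) = X b - X a := hr ▸ div_mul_cancel₀ _ D0.ne'
  simp only [← hk, ← hr] at l1 l2 l3 e2
  obtain ⟨u, hu⟩ : ∃ u, u = k * (X t - X a) - r * (Y t - Y a) -
    (k * (X s - X a) - r * (Y s - Y a)) := ⟨_, rfl⟩
  obtain ⟨v, hv⟩ : ∃ v, v = r * (X t - X a) + k * (Y t - Y a) -
    (r * (X s - X a) + k * (Y s - Y a)) := ⟨_, rfl⟩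
  have i1 : X t - X s = k * u + r * v := by
    rw [hu, hv]
    linear_combination (-(X t - X s)) * kr
  have i2 : Y t - Y s = k * v - r * u := by
    rw [hu, hv]
    linear_combination (-(Y t - Y s)) * kr
  rw [← hu] at l1 l2 e2
  rw [← hv] at l3 e2
  have v1 : v < Metric.diam (A : Set E) :=
    lt_of_pow_lt_pow_left₀ 2 D0.le (by linarith [mul_pos_of_neg_of_neg l2 l2])
  have m1 := mul_nonneg k0 (neg_pos.2 l2).le
  have m2 := mul_le_mul_of_nonpos_right (one kr.le).2 l2.le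
  have m3 := mul_nonneg r0.le l3
  have m4 := mul_lt_mul_of_pos_left v1 r0
  have m5 := mul_nonneg k0 l3
  have m6 := mul_pos r0 (neg_pos.2 l2)
  have m7 : 8 ≤ X t - X s := by
    rcases le_abs.1 (c s hs t ht est) with g | g <;> linarith
  have := mn (s, t) (mem_filter.2 ⟨mem_product.2 ⟨hs, ht⟩, est, by
    dsimp only
    linarith, by
    dsimp only
    linarith⟩)
  dsimp only at this
  linarith

theorem dir (hS : Sep A) (hJ : Jm A) (h : Co X Y) (ne : A.Nonempty) :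
    ∃ s ∈ A, ∃ t ∈ A, dist s t = Metric.diam (A : Set E) ∧ |X t - X s| < 8 := by
  obtain ⟨a, ha, hi⟩ := exists_diam ne
  obtain ⟨b, hb, e⟩ := partner ha hi
  obtain ⟨a, ha, b, hb, e, y0⟩ : ∃ a ∈ A, ∃ b ∈ A, dist a b = Metric.diam (A : Set E) ∧
      Y a ≤ Y b := by
    rcases le_total (Y a) (Y b) with c | c
    · exact ⟨a, ha, b, hb, e, c⟩
    · exact ⟨b, hb, a, ha, dist_comm a b ▸ e, c⟩
  rcases le_total (X a) (X b) with c | c
  · exact dir' hS hJ h ⟨a, ha, b, hb, e, c, y0⟩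
  · obtain ⟨s, hs, t, ht, e, l⟩ := dir' hS hJ h.neg ⟨a, ha, b, hb, e, neg_le_neg c, y0⟩
    exact ⟨s, hs, t, ht, e, by rwa [← neg_sub', abs_neg] at l⟩

end Pool.Agent.Lib.MP_509dcf_co.Flip
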