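import Pool.Agent.Lib.MP_509dcf_co.Defs

open Finset Filter Topology
open scoped RealInnerProductSpace

namespace Pool.Agent.Lib.MP_509dcf_co

/-- At most `d` linear inequalities in dimension `d` have a nonzero solution. -/
theorem exists_nonneg {V ι : Type} [AddCommGroup V] [Module ℝ V] [Module.Finite ℝ V] [Fintype ι]
    (l : ι → V →ₗ[ℝ] ℝ) (h : Fintype.card ι ≤ Module.finrank ℝ V) (h0 : 0 < Module.finrank ℝ V) :
    ∃ u, u ≠ 0 ∧ ∀ i, 0 ≤ l i u := by
  classical
  rcases isEmpty_or_nonempty ι with hι | ⟨⟨j⟩⟩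
  · have := Module.nontrivial_of_finrank_pos h0
    obtain ⟨u, hu⟩ := exists_ne (0 : V)
    exact ⟨u, hu, fun i => isEmptyElim i⟩
  have hlt : Module.finrank ℝ ({i // i ≠ j} → ℝ) < Module.finrank ℝ V := by
    have := Fintype.card_pos_iff.2 ⟨j⟩
    simp only [Module.finrank_fintype_fun_eq_card, ne_eq, Fintype.card_subtype_compl,
      Fintype.card_unique]
    omega
  obtain ⟨u, hu, hu0⟩ := (Submodule.ne_bot_iff _).1
    (LinearMap.ker_ne_bot_of_finrank_lt (f := LinearMap.pi fun i : {i // i ≠ j} => l i) hlt)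
  have hz (i) (hi : i ≠ j) : l i u = 0 := congrFun (LinearMap.mem_ker.1 hu) ⟨i, hi⟩
  rcases le_total 0 (l j u) with h1 | h1
  · exact ⟨u, hu0, fun i => if hi : i = j then hi ▸ h1 else (hz i hi).ge⟩
  · refine ⟨-u, neg_ne_zero.2 hu0, fun i => ?_⟩
    rw [map_neg]
    exact if hi : i = j then hi ▸ neg_nonneg.2 h1 else by simp [hz i hi]

/-- The sum of the squared distances. -/
noncomputable def Φ (B : Finset E) : ℝ := ∑ x ∈ B, ∑ y ∈ B, dist x y ^ 2

theorem Φ_image {A : Finset E} {g : E → E} (hg : Set.InjOn g A) [DecidableEq E] :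
    Φ (A.image g) = ∑ x ∈ A, ∑ y ∈ A, dist (g x) (g y) ^ 2 := by
  simp only [Φ, sum_image hg]

theorem Congr.Φ_eq {A B : Finset E} (h : Congr A B) : Φ A = Φ B := by
  classical
  obtain ⟨f, hf⟩ := h
  have : B = A.image f := coe_injective (by rw [coe_image, hf])
  rw [this, Φ_image f.injective.injOn]
  simp only [Φ, f.dist_eq]

theorem dist_sq (x y a b : E) (t : ℝ) : dist (x + t • a) (y + t • b) ^ 2 =
    dist x y ^ 2 + 2 * t * ⟪a - b, x - y⟫ + t ^ 2 * ‖a - b‖ ^ 2 := by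
  have : x + t • a - (y + t • b) = (x - y) + t • (a - b) := by rw [smul_sub]; abel
  rw [dist_eq_norm, dist_eq_norm, this, norm_add_sq_real, inner_smul_right, norm_smul,
    real_inner_comm, mul_pow, Real.norm_eq_abs, sq_abs]
  ring

theorem exists_diam {A : Finset E} (h : A.Nonempty) : ∃ x ∈ A, ¬ Inner A x := by
  obtain ⟨p, hp, hm⟩ := (A ×ˢ A).exists_max_image (fun p => dist p.1 p.2) (h.product h)
  rw [mem_product] at hp
  refine ⟨p.1, hp.1, fun hi => (hi _ hp.2).not_ge (Metric.diam_le_of_forall_dist_le dist_nonneg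
    fun x hx y hy => hm (x, y) (mem_product.2 ⟨hx, hy⟩))⟩

/-- An infinitesimal unjamming motion gives a continuum of minimisers. -/
theorem flex {n : ℕ} {A : Finset E} (hA : IsMin n A) (u : E → E)
    (hs : ∀ x ∈ A, u x ≠ 0 → Inner A x) (h0 : ∃ x ∈ A, u x ≠ 0)
    (hc : ∀ x ∈ A, ∀ y ∈ A, dist x y = 1 → 0 ≤ ⟪u x - u y, x - y⟫) :
    ∃ F : ℝ → Finset E, (∀ t, IsMin n (F t)) ∧ ∀ s t, Congr (F s) (F t) → s = t := by
  classical
  let g : ℝ → E → E := fun t x => x + t • u x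
  have ct (x y : E) : Tendsto (fun t => dist (g t x) (g t y)) (𝓝[>] 0) (𝓝 (dist x y)) := by
    have : Continuous fun t => dist (g t x) (g t y) := by fun_prop
    simpa [g] using (this.tendsto 0).mono_left nhdsWithin_le_nhds
  have hbd := A.finite_toSet.isBounded
  have e1 : ∀ᶠ t in 𝓝[>] (0 : ℝ), ∀ x ∈ A, ∀ y ∈ A, x ≠ y → 1 ≤ dist (g t x) (g t y) := by
    simp only [eventually_all_finset]
    intro x hx y hy
    by_cases hxy : x = y
    · simp [hxy]
    rcases (hA.2.1 x hx y hy hxy).eq_or_lt with h | h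
    · filter_upwards [self_mem_nhdsWithin] with t (ht : 0 < t) _
      have := hc x hx y hy h.symm
      refine (pow_le_pow_iff_left₀ zero_le_one dist_nonneg two_ne_zero).1 ?_
      rw [dist_sq, ← h]
      nlinarith [mul_nonneg ht.le this, mul_nonneg (sq_nonneg t) (sq_nonneg ‖u x - u y‖)]
    · filter_upwards [(ct x y).eventually (lt_mem_nhds h)] with t ht _ using ht.le
  have e2 : ∀ᶠ t in 𝓝[>] (0 : ℝ), ∀ x ∈ A, ∀ y ∈ A,
      dist (g t x) (g t y) ≤ Metric.diam (A : Set E) := by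
    simp only [eventually_all_finset]
    intro x hx y hy
    by_cases h : dist x y < Metric.diam (A : Set E)
    · filter_upwards [(ct x y).eventually (gt_mem_nhds h)] with t ht using ht.le
    · have h1 : u x = 0 := by_contra fun h1 => h (hs x hx h1 y hy)
      have h2 : u y = 0 := by_contra fun h2 => h (dist_comm x y ▸ hs y hy h2 x hx)
      simpa [g, h1, h2] using Metric.dist_le_diam_of_mem hbd hx hy
  have inj {t : ℝ} (h : ∀ x ∈ A, ∀ y ∈ A, x ≠ y → 1 ≤ dist (g t x) (g t y)) : Set.InjOn (g t) A :=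
    fun x hx y hy e => by_contra fun hne => by
      have := h x hx y hy hne
      rw [e, dist_self] at this
      exact not_lt.2 this one_pos
  set b : ℝ := ∑ x ∈ A, ∑ y ∈ A, 2 * ⟪u x - u y, x - y⟫
  set c : ℝ := ∑ x ∈ A, ∑ y ∈ A, ‖u x - u y‖ ^ 2
  have hΦ {t : ℝ} (h : Set.InjOn (g t) A) : Φ (A.image (g t)) = Φ A + t * b + t ^ 2 * c := by
    rw [Φ_image h]
    simp only [g, dist_sq, sum_add_distrib, Φ, b, c, mul_sum]
    congr 2
    exact sum_congr rfl fun _ _ => sum_congr rfl fun _ _ => by ring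
  have hc0 : 0 < c := by
    obtain ⟨x, hx, hux⟩ := h0
    obtain ⟨y, hy, hyi⟩ := exists_diam ⟨x, hx⟩
    have huy : u y = 0 := by_contra fun h => hyi (hs y hy h)
    refine sum_pos' (fun _ _ => sum_nonneg fun _ _ => sq_nonneg _) ⟨x, hx, sum_pos'
      (fun _ _ => sq_nonneg _) ⟨y, hy, ?_⟩⟩
    rw [huy, sub_zero]
    exact pow_pos (norm_pos_iff.2 hux) 2
  have e3 : ∀ᶠ t in 𝓝[>] (0 : ℝ), b < 0 → 2 * c * t < -b := by
    by_cases hb : b < 0
    · have : Tendsto (fun t : ℝ => 2 * c * t) (𝓝[>] 0) (𝓝 0) := by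
        have : Continuous fun t : ℝ => 2 * c * t := by fun_prop
        simpa using (this.tendsto 0).mono_left nhdsWithin_le_nhds
      filter_upwards [this.eventually (gt_mem_nhds (neg_pos.2 hb))] with t ht _ using ht
    · exact .of_forall fun _ h => (hb h).elim
  obtain ⟨ε, hε, H⟩ := (nhdsGT_basis (0 : ℝ)).eventually_iff.1 (e1.and (e2.and e3))
  have hm (t : ℝ) : ε / (1 + Real.exp t) ∈ Set.Ioo 0 ε :=
    ⟨by positivity, div_lt_self hε (lt_add_of_pos_right _ (Real.exp_pos t))⟩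
  refine ⟨fun t => A.image (g (ε / (1 + Real.exp t))), fun t => ?_, fun s t h => ?_⟩
  · obtain ⟨h1, h2, -⟩ := H (hm t)
    refine ⟨(card_image_of_injOn (inj h1)).trans hA.1, ?_, fun C hC hC' =>
      le_trans (Metric.diam_le_of_forall_dist_le Metric.diam_nonneg ?_) (hA.2.2 C hC hC')⟩
    · simp only [Sep, mem_image]
      rintro _ ⟨x, hx, rfl⟩ _ ⟨y, hy, rfl⟩ hne
      exact h1 x hx y hy fun e => hne (e ▸ rfl)
    · simp only [coe_image]
      rintro _ ⟨x, hx, rfl⟩ _ ⟨y, hy, rfl⟩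
      exact h2 x hx y hy
  · have h1 := h.Φ_eq
    rw [hΦ (inj (H (hm s)).1), hΦ (inj (H (hm t)).1)] at h1
    have h2 : ε / (1 + Real.exp s) = ε / (1 + Real.exp t) := by
      have hs' := H (hm s)
      have ht' := H (hm t)
      have p1 := (hm s).1
      have p2 := (hm t).1
      generalize ε / (1 + Real.exp s) = p at *
      generalize ε / (1 + Real.exp t) = q at *
      have h3 : (p - q) * (b + c * (p + q)) = 0 := by linear_combination h1
      refine sub_eq_zero.1 ((mul_eq_zero.1 h3).resolve_right fun h4 => ?_)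
      have h5 : 0 < c * (p + q) := by positivity
      linarith [hs'.2.2 (by linarith), ht'.2.2 (by linarith)]
    rw [div_eq_div_iff (by positivity) (by positivity), mul_right_inj' hε.ne', add_right_inj] at h2
    exact (Real.exp_injective h2).symm

/-- A jammed set has many contacts. -/
theorem count {A S : Finset E} (hS : S.Nonempty)
    (hJ : ∀ u : E → E, (∀ x, u x ≠ 0 → x ∈ S) → (∃ x, u x ≠ 0) →
      ∃ x ∈ A, ∃ y ∈ A, dist x y = 1 ∧ ⟪u x - u y, x - y⟫ < 0) :
    2 * S.card + 1 ≤ (contacts A S).ncard := by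
  classical
  have hfin : (contacts A S).Finite := ((S ×ˢ A).image fun p => s(p.1, p.2)).finite_toSet.subset
    fun _ ⟨x, hx, y, hy, _, e⟩ => by simpa using ⟨x, y, ⟨hx, hy⟩, e.symm⟩
  have := hfin.fintype
  by_contra hlt
  choose p hp q hq hd he using fun e : contacts A S => e.2
  let U (x : E) : (S → E) →ₗ[ℝ] E := if h : x ∈ S then LinearMap.proj ⟨x, h⟩ else 0
  have hr : Module.finrank ℝ (S → E) = 2 * S.card := by
    simp [Module.finrank_pi_fintype, mul_comm]
  obtain ⟨v, hv, H⟩ := exists_nonneg (fun e : contacts A S =>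
    (innerₛₗ ℝ (p e - q e)) ∘ₗ (U (p e) - U (q e)))
    (by rw [hr, ← Nat.card_eq_fintype_card, Nat.card_coe_set_eq]; omega)
    (by rw [hr]; have := hS.card_pos; omega)
  obtain ⟨z, hz⟩ := Function.ne_iff.1 hv
  have hU (x : E) (h : U x v ≠ 0) : x ∈ S := by_contra fun hx => h (by simp [U, hx])
  obtain ⟨x, hx, y, hy, h1, h2⟩ := hJ (fun x => U x v) hU ⟨z, by simpa [U] using hz⟩
  have key (x y : E) (hx : x ∈ S) (hy : y ∈ A) (h1 : dist x y = 1) :
      0 ≤ ⟪U x v - U y v, x - y⟫ := by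
    have h3 := H ⟨_, x, hx, y, hy, h1, rfl⟩
    have h4 := he ⟨_, x, hx, y, hy, h1, rfl⟩
    generalize p ⟨_, x, hx, y, hy, h1, rfl⟩ = a at h3 h4
    generalize q ⟨_, x, hx, y, hy, h1, rfl⟩ = b at h3 h4
    simp only [LinearMap.comp_apply, LinearMap.sub_apply, innerₛₗ_apply_apply] at h3
    rw [real_inner_comm] at h3
    rcases Sym2.eq_iff.1 h4 with ⟨rfl, rfl⟩ | ⟨rfl, rfl⟩
    · exact h3
    · rwa [← neg_sub, ← neg_sub x y, inner_neg_neg] at h3
  by_cases hxS : x ∈ S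
  · exact h2.not_ge (key x y hxS hy h1)
  by_cases hyS : y ∈ S
  · have := key y x hyS hx (dist_comm x y ▸ h1)
    rw [← neg_sub, ← neg_sub x y, inner_neg_neg] at this
    exact h2.not_ge this
  · simp [U, hxS, hyS] at h2

/-- The square grid bounds the least diameter. -/
theorem diam_sq_le {n : ℕ} {A : Finset E} (hA : IsMin n A) :
    Metric.diam (A : Set E) ≤ 3 / 2 * √n := by
  classical
  let g : ℕ × ℕ → E := fun p => !₂[(p.1 : ℝ), (p.2 : ℝ)]
  have hd (p q : ℕ × ℕ) : dist (g p) (g q) ^ 2 = ((p.1 : ℝ) - q.1) ^ 2 + ((p.2 : ℝ) - q.2) ^ 2 := by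
    rw [EuclideanSpace.dist_eq, Real.sq_sqrt (by positivity)]
    simp [g, Real.dist_eq]
  have sep (p q : ℕ × ℕ) (h : p ≠ q) : 1 ≤ dist (g p) (g q) := by
    refine (pow_le_pow_iff_left₀ zero_le_one dist_nonneg two_ne_zero).1 ?_
    rw [hd, one_pow]
    have : (1 : ℤ) ≤ ((p.1 : ℤ) - q.1) ^ 2 + ((p.2 : ℤ) - q.2) ^ 2 := by
      by_contra hlt
      have h1 : (p.1 : ℤ) - q.1 = 0 := by nlinarith [sq_nonneg ((p.2 : ℤ) - q.2)]
      have h2 : (p.2 : ℤ) - q.2 = 0 := by nlinarith [sq_nonneg ((p.1 : ℤ) - q.1)]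
      exact h (Prod.ext (by omega) (by omega))
    exact_mod_cast this
  have inj : Function.Injective g := fun p q e => by_contra fun h => by
    have := sep p q h
    rw [e, dist_self] at this
    exact not_lt.2 this one_pos
  obtain ⟨T, hT, hc⟩ := exists_subset_card_eq (s := range (n.sqrt + 1) ×ˢ range (n.sqrt + 1))
    (n := n) (by simpa using (Nat.lt_succ_sqrt n).le)
  refine (hA.2.2 (T.image g) ((card_image_of_injective _ inj).trans hc) ?_).trans
    (Metric.diam_le_of_forall_dist_le (by positivity) ?_)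
  · simp only [Sep, mem_image]
    rintro _ ⟨p, -, rfl⟩ _ ⟨q, -, rfl⟩ h
    exact sep p q fun e => h (e ▸ rfl)
  · simp only [coe_image]
    rintro _ ⟨p, hp, rfl⟩ _ ⟨q, hq, rfl⟩
    refine (pow_le_pow_iff_left₀ dist_nonneg (by positivity) two_ne_zero).1 ?_
    have hp := hT hp
    have hq := hT hq
    simp only [mem_product, mem_range, Nat.lt_succ_iff] at hp hq
    have h0 : ((n.sqrt : ℕ) : ℝ) ^ 2 ≤ n := by exact_mod_cast Nat.sqrt_le' n
    have key (a b : ℕ) (ha : a ≤ n.sqrt) (hb : b ≤ n.sqrt) : ((a : ℝ) - b) ^ 2 ≤ n := by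
      have ha' : (a : ℝ) ≤ n.sqrt := by exact_mod_cast ha
      have hb' : (b : ℝ) ≤ n.sqrt := by exact_mod_cast hb
      refine le_trans (sq_le_sq' ?_ ?_) h0 <;> linarith [(Nat.cast_nonneg a : (0 : ℝ) ≤ a),
        (Nat.cast_nonneg b : (0 : ℝ) ≤ b)]
    rw [hd, mul_pow, Real.sq_sqrt n.cast_nonneg]
    linarith [key _ _ hp.1 hq.1, key _ _ hp.2 hq.2, (Nat.cast_nonneg n : (0 : ℝ) ≤ n)]

theorem quad {a b c d : ℝ} (h : a ^ 2 + b ^ 2 = c ^ 2 + d ^ 2) (h1 : 0 ≤ a ↔ 0 ≤ c)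
    (h2 : 0 ≤ b ↔ 0 ≤ d) : (a - c) ^ 2 + (b - d) ^ 2 ≤ ((|a| - |b|) - (|c| - |d|)) ^ 2 := by
  have e (x y : ℝ) (h : 0 ≤ x ↔ 0 ≤ y) : (x - y) ^ 2 = (|x| - |y|) ^ 2 := by
    by_cases hx : 0 ≤ x
    · rw [abs_of_nonneg hx, abs_of_nonneg (h.1 hx)]
    · rw [abs_of_neg (not_le.1 hx), abs_of_neg (not_le.1 (mt h.2 hx))]; ring
  rw [e a c h1, e b d h2]
  rw [← sq_abs a, ← sq_abs b, ← sq_abs c, ← sq_abs d] at h
  have := abs_nonneg a; have := abs_nonneg b; have := abs_nonneg c; have := abs_nonneg d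
  generalize |a| = a at *; generalize |b| = b at *; generalize |c| = c at *; generalize |d| = d at *
  have : (a - c) * (b - d) ≤ 0 := by
    by_contra hlt
    rcases pos_and_pos_or_neg_and_neg_of_mul_pos (not_le.1 hlt) with ⟨h3, h4⟩ | ⟨h3, h4⟩ <;>
      nlinarith
  nlinarith

/-- There are few endpoints of diameters. -/
theorem card_diam {A M : Finset E} (hA : Sep A) (hM : M ⊆ A) (h : ∀ x ∈ M, ¬ Inner A x) :
    (M.card : ℝ) ≤ 8 * Metric.diam (A : Set E) + 4 := by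
  classical
  set D := Metric.diam (A : Set E)
  have hD : 0 ≤ D := Metric.diam_nonneg
  have hle {x y : E} (hx : x ∈ A) (hy : y ∈ A) : dist x y ≤ D :=
    Metric.dist_le_diam_of_mem A.finite_toSet.isBounded hx hy
  simp only [Inner, not_forall, not_lt] at h
  choose! p hp hpd using h
  have hs (x y : E) : dist x y ^ 2 = (x 0 - y 0) ^ 2 + (x 1 - y 1) ^ 2 := by
    rw [EuclideanSpace.dist_eq, Real.sq_sqrt (by positivity)]
    simp [Real.dist_eq]
  have hw (x) (hx : x ∈ M) : (x 0 - p x 0) ^ 2 + (x 1 - p x 1) ^ 2 = D ^ 2 := by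
    rw [← hs, (hle (hM hx) (hp x hx)).antisymm (hpd x hx)]
  let f : E → Prop × Prop × ℕ := fun x =>
    (0 ≤ x 0 - p x 0, 0 ≤ x 1 - p x 1, ⌊|x 0 - p x 0| - |x 1 - p x 1| + D⌋₊)
  have hb (x) (hx : x ∈ M) : |x 0 - p x 0| ≤ D ∧ |x 1 - p x 1| ≤ D :=
    ⟨abs_le_of_sq_le_sq' (by nlinarith [hw x hx]) hD |> abs_le.2,
      abs_le_of_sq_le_sq' (by nlinarith [hw x hx]) hD |> abs_le.2⟩
  have := card_le_card_of_injOn (t := univ ×ˢ univ ×ˢ range (⌊2 * D⌋₊ + 1)) f (fun x hx => by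
    simp only [coe_product, coe_univ, coe_range, Set.mem_prod, Set.mem_univ, true_and, Set.mem_Iio,
      Nat.lt_succ_iff, f]
    exact Nat.floor_le_floor (by linarith [(hb x hx).1, abs_nonneg (x 1 - p x 1)]))
    (fun x hx y hy e => by_contra fun hne => by
      simp only [f, Prod.mk.injEq, eq_iff_iff] at e
      have h1 := quad ((hw x hx).trans (hw y hy).symm) e.1 e.2.1
      have h2 := pow_le_pow_left₀ zero_le_one (hA x (hM hx) y (hM hy) hne) 2
      have h3 := pow_le_pow_left₀ dist_nonneg (hle (hM hx) (hp y hy)) 2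
      have h4 := pow_le_pow_left₀ dist_nonneg (hle (hM hy) (hp x hx)) 2
      rw [hs] at h2 h3 h4
      have h5 := hw x hx
      have h6 := hw y hy
      have n1 : 0 ≤ |x 0 - p x 0| - |x 1 - p x 1| + D := by
        linarith [(hb x hx).2, abs_nonneg (x 0 - p x 0)]
      have n2 : 0 ≤ |y 0 - p y 0| - |y 1 - p y 1| + D := by
        linarith [(hb y hy).2, abs_nonneg (y 0 - p y 0)]
      have l1 := Nat.floor_le n1
      have l2 := Nat.floor_le n2
      have l3 := Nat.lt_floor_add_one (|x 0 - p x 0| - |x 1 - p x 1| + D)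
      have l4 := Nat.lt_floor_add_one (|y 0 - p y 0| - |y 1 - p y 1| + D)
      rw [e.2.2] at l1 l3
      have h7 : (|x 0 - p x 0| - |x 1 - p x 1| - (|y 0 - p y 0| - |y 1 - p y 1|)) ^ 2 < 1 :=
        (sq_lt_one_iff_abs_lt_one _).2 (abs_lt.2 ⟨by linarith, by linarith⟩)
      generalize |x 0 - p x 0| - |x 1 - p x 1| - (|y 0 - p y 0| - |y 1 - p y 1|) = z at h1 h7
      linarith only [h1, h2, h3, h4, h5, h6, h7, sq_nonneg (p x 0 - p y 0),
        sq_nonneg (p x 1 - p y 1)])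
  have h2 : (M.card : ℝ) ≤ 4 * (⌊2 * D⌋₊ + 1 : ℕ) := by
    simp only [card_product, card_univ, Fintype.card_prop, card_range] at this
    exact_mod_cast this.trans (by omega)
  push_cast at h2
  linarith [Nat.floor_le (by positivity : 0 ≤ 2 * D)]

end Pool.Agent.Lib.MP_509dcf_co
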