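import Pool.Agent.Lib.MP_509dcf_co.Defs

namespace Pool.Agent.Lib.MP_509dcf_co

/-- The lattice generated by two vectors. -/
def Lat (v w : E) : Set E := {x | ∃ i j : ℤ, x = i • v + j • w}

/-- An `n`-point subset of `X` of least diameter among the `n`-point subsets of `X`. -/
def IsMinIn (X : Set E) (n : ℕ) (A : Finset E) : Prop :=
  A.card = n ∧ (A : Set E) ⊆ X ∧ ∀ C : Finset E, C.card = n → (C : Set E) ⊆ X →
    Metric.diam (A : Set E) ≤ Metric.diam (C : Set E)

end Pool.Agent.Lib.MP_509dcf_co
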