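import Mathlib

/-!
Subsets of bounded diameter of a planar lattice, described row by row.
-/

open Finset

namespace Pool.Agent.Lib.MP_509dcf_co.Rows

/-- Half of the chord of the disc of radius `D` at height `y`. -/
noncomputable def f (D y : ℝ) : ℝ := √(D ^ 2 - y ^ 2)

lemma f_neg (D y : ℝ) : f D (-y) = f D y := by simp [f]

lemma f_nonneg (D y : ℝ) : 0 ≤ f D y := Real.sqrt_nonneg _

lemma f_sq {D y : ℝ} (h : y ^ 2 ≤ D ^ 2) : f D y ^ 2 = D ^ 2 - y ^ 2 := Real.sq_sqrt (by linarith)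

lemma mix {D H u a : ℝ} (hH : H ^ 2 ≤ D ^ 2) (hu : u ^ 2 ≤ D ^ 2) (h0 : 0 ≤ a) (h1 : a ≤ 1) :
    a * f D H + (1 - a) * f D u ≤ f D (a * H + (1 - a) * u) := by
  refine Real.le_sqrt_of_sq_le ?_
  nlinarith [f_sq hH, f_sq hu, mul_nonneg (mul_nonneg h0 (sub_nonneg.2 h1))
    (add_nonneg (sq_nonneg (f D H - f D u)) (sq_nonneg (H - u)))]

lemma conc {D H u s t : ℝ} (hH : H ^ 2 ≤ D ^ 2) (hu : u ^ 2 ≤ D ^ 2) (hs : s ≤ H) (ht : t ≤ H)
    (e : s + t = H + u) : f D H + f D u ≤ f D s + f D t := by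
  rcases (show u ≤ H by linarith).eq_or_lt with rfl | h
  · rw [show s = u by linarith, show t = u by linarith]
  have d : 0 < H - u := by linarith
  have a0 : 0 ≤ (s - u) / (H - u) := div_nonneg (by linarith) d.le
  have a1 : (s - u) / (H - u) ≤ 1 := (div_le_one d).2 (by linarith)
  have h1 := mix hH hu a0 a1
  have h2 := mix hH hu (sub_nonneg.2 a1) (sub_le_self _ a0)
  rw [show (s - u) / (H - u) * H + (1 - (s - u) / (H - u)) * u = s by field_simp; ring] at h1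
  rw [show (1 - (s - u) / (H - u)) * H + (1 - (1 - (s - u) / (H - u))) * u = t by
    rw [show t = H + u - s by linarith]; field_simp; ring] at h2
  linarith

lemma gap {D K h δ G : ℝ} (hh : 0 < h) (hG : 0 < G) (h1 : D - δ ≤ K) (h2 : K ≤ D)
    (h3 : 2 * (δ + 2 * h) ≤ D) (h4 : 128 * G ^ 2 * (δ + 2 * h) ^ 3 ≤ h ^ 4 * D) :
    G ≤ 2 * f D (K - h) - f D K - f D (K - 2 * h) := by
  by_contra hc
  have hD : 0 < D := by linarith
  have ha := f_sq (D := D) (y := K) (by nlinarith)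
  have hb := f_sq (D := D) (y := K - h) (by nlinarith)
  have hc2 := f_sq (D := D) (y := K - 2 * h) (by nlinarith)
  have a0 := f_nonneg D K
  have b0 := f_nonneg D (K - h)
  have c0 := f_nonneg D (K - 2 * h)
  generalize f D K = a at *
  generalize f D (K - h) = b at *
  generalize f D (K - 2 * h) = c at *
  have ac : a ≤ c := le_of_sq_le_sq (by nlinarith) c0
  have bc : b ≤ c := le_of_sq_le_sq (by nlinarith) c0
  have k1 : h * D ≤ c * (c - a) := by nlinarith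
  have cp : 0 < c := by
    rcases c0.eq_or_lt with rfl | h
    · nlinarith
    · exact h
  have k2 : (c - a) ^ 2 < G * (4 * c) := by
    rcases le_total (2 * b - a - c) 0 with k | k
    · nlinarith
    · nlinarith [mul_le_mul_of_nonneg_left (show 2 * b + a + c ≤ 4 * c by linarith) k]
  have k3 : (h * D) ^ 2 < 4 * G * c ^ 3 := by
    calc (h * D) ^ 2 ≤ (c * (c - a)) ^ 2 := pow_le_pow_left₀ (by positivity) k1 2
      _ = c ^ 2 * (c - a) ^ 2 := by ring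
      _ < c ^ 2 * (G * (4 * c)) := mul_lt_mul_of_pos_left k2 (by positivity)
      _ = _ := by ring
  have k4 : c ^ 2 ≤ 2 * (δ + 2 * h) * D := by nlinarith
  have k5 : ((h * D) ^ 2) ^ 2 < (4 * G * c ^ 3) ^ 2 := pow_lt_pow_left₀ k3 (by positivity) two_ne_zero
  have k6 := mul_le_mul_of_nonneg_left (pow_le_pow_left₀ (by positivity) k4 3)
    (show 0 ≤ 16 * G ^ 2 by positivity)
  have k7 := mul_le_mul_of_nonneg_right h4 (show 0 ≤ D ^ 3 by positivity)
  nlinarith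

lemma gap' {D K h δ G p q : ℝ} (hh : 0 < h) (hG : 0 < G) (h1 : D - δ ≤ K) (h2 : K ≤ D)
    (h3 : 2 * (δ + 2 * h) ≤ D) (h4 : 128 * G ^ 2 * (δ + 2 * h) ^ 3 ≤ h ^ 4 * D)
    (hp : h ≤ p) (hp' : p ≤ K) (hq : h ≤ q) (hq' : q ≤ K) :
    G + f D K + f D (K - p - q) ≤ f D (K - p) + f D (K - q) := by
  have a := gap hh hG h1 h2 h3 h4
  have b := conc (D := D) (H := K - h) (u := K - p - q) (s := K - p) (t := K - h - q)
    (by nlinarith) (by nlinarith) (by linarith) (by linarith) (by ring)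
  have d := conc (D := D) (H := K - h) (u := K - h - q) (s := K - q) (t := K - 2 * h)
    (by nlinarith) (by nlinarith) (by linarith) (by linarith) (by ring)
  linarith

variable (l s h D : ℝ)

/-- Abscissa of a lattice point. -/
def X (p : ℤ × ℤ) : ℝ := l * p.1 + s * p.2

/-- Two lattice points at distance at most `D`. -/
def Ok (p q : ℤ × ℤ) : Prop := (X l s p - X l s q) ^ 2 + (h * p.2 - h * q.2) ^ 2 ≤ D ^ 2

/-- Sets of diameter at most `D`. -/
def Good (A : Finset (ℤ × ℤ)) : Prop := ∀ p ∈ A, ∀ q ∈ A, Ok l s h D p q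

variable {l s h D}

lemma Ok.symm {p q : ℤ × ℤ} (a : Ok l s h D p q) : Ok l s h D q p := by
  unfold Ok at *; linarith [sub_sq_comm (X l s p) (X l s q), sub_sq_comm (h * p.2) (h * q.2)]

lemma Ok.refl (p : ℤ × ℤ) : Ok l s h D p p := by simp [Ok, sq_nonneg]

lemma ok_iff {p q : ℤ × ℤ} : Ok l s h D p q ↔ (h * p.2 - h * q.2) ^ 2 ≤ D ^ 2 ∧
    -f D (h * p.2 - h * q.2) ≤ X l s p - X l s q ∧ X l s p - X l s q ≤ f D (h * p.2 - h * q.2) :=
  ⟨fun a => ⟨(le_add_of_nonneg_left (sq_nonneg _)).trans a,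
    abs_le.1 (Real.abs_le_sqrt (le_sub_iff_add_le.2 a))⟩,
    fun a => le_sub_iff_add_le.1 ((Real.sq_le (sub_nonneg.2 a.1)).2 a.2)⟩

lemma extend (hl : 0 < l) {A : Finset (ℤ × ℤ)} (h0 : A.Nonempty) (j : ℤ)
    (h1 : ∀ q ∈ A, (h * j - h * q.2) ^ 2 ≤ D ^ 2) (h2 : ∀ i, ¬ ∀ q ∈ A, Ok l s h D (i, j) q) :
    ∃ p ∈ A, ∃ q ∈ A, f D (h * j - h * p.2) + f D (h * j - h * q.2) - l < X l s q - X l s p := by
  by_contra hc
  push Not at hc
  obtain ⟨q, hq, hm⟩ := exists_max_image A (fun q => X l s q - f D (h * j - h * q.2)) h0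
  refine h2 ⌈(X l s q - f D (h * j - h * q.2) - s * j) / l⌉ fun p hp => ok_iff.2 ⟨h1 p hp, ?_, ?_⟩
  · have := (div_le_iff₀ hl).1 (Int.le_ceil ((X l s q - f D (h * j - h * q.2) - s * j) / l))
    have := hm p hp
    simp only [X] at *
    linarith
  · have := (lt_div_iff₀ hl).1 (sub_lt_iff_lt_add.2
      (Int.ceil_lt_add_one ((X l s q - f D (h * j - h * q.2) - s * j) / l)))
    have := hc p hp q hq
    simp only [X] at *
    linarith

/-- A maximal set of diameter at most `D` has height almost `D`. -/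
lemma tall (hl : 0 < l) (hh : 0 < h) (hD : l ≤ D) {A : Finset (ℤ × ℤ)} (hA : Good l s h D A)
    (hmax : ∀ p, (∀ q ∈ A, Ok l s h D p q) → p ∈ A) {P Q : ℤ × ℤ} (hP : P ∈ A)
    (top : ∀ q ∈ A, q.2 ≤ P.2) (bot : ∀ q ∈ A, Q.2 ≤ q.2) :
    D - (l + 2 * h) ≤ h * P.2 - h * Q.2 := by
  by_contra hc
  have t : ∀ q ∈ A, h * q.2 ≤ h * P.2 := fun q hq =>
    mul_le_mul_of_nonneg_left (by exact_mod_cast top q hq) hh.le
  have b : ∀ q ∈ A, h * Q.2 ≤ h * q.2 := fun q hq =>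
    mul_le_mul_of_nonneg_left (by exact_mod_cast bot q hq) hh.le
  obtain ⟨p, hp, q, hq, e⟩ := extend (s := s) (h := h) (D := D) hl ⟨P, hP⟩ (P.2 + 1)
    (fun q hq => by push_cast; nlinarith [t q hq, b q hq])
    fun i c => by have := top _ (hmax _ c); simp at this
  obtain ⟨p', hp', q', hq', e'⟩ := extend (s := s) (h := h) (D := D) hl ⟨P, hP⟩ (Q.2 - 1)
    (fun q hq => by push_cast; nlinarith [t q hq, b q hq])
    fun i c => by have := bot _ (hmax _ c); simp at this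
  obtain ⟨a1, -, a2⟩ := ok_iff.1 (hA q hq p' hp')
  obtain ⟨b1, -, b2⟩ := ok_iff.1 (hA q' hq' p hp)
  push_cast at e e'
  rw [← f_neg D (h * (Q.2 - 1) - _), ← f_neg D (h * (Q.2 - 1) - _)] at e'
  have hH : (h * P.2 - h * Q.2 + 2 * h) ^ 2 ≤ D ^ 2 - l ^ 2 := by nlinarith [b P hP]
  have c0 : l ≤ f D (h * P.2 - h * Q.2 + 2 * h) := Real.le_sqrt_of_sq_le (by linarith)
  have c1 := conc (D := D) (H := h * P.2 - h * Q.2 + 2 * h) (u := -(h * q.2 - h * p'.2))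
    (s := h * (P.2 + 1) - h * q.2) (t := -(h * (Q.2 - 1) - h * p'.2)) (by nlinarith)
    (by rwa [neg_sq]) (by linarith [b q hq]) (by linarith [t p' hp']) (by ring)
  have c2 := conc (D := D) (H := h * P.2 - h * Q.2 + 2 * h) (u := h * q'.2 - h * p.2)
    (s := h * (P.2 + 1) - h * p.2) (t := -(h * (Q.2 - 1) - h * q'.2)) (by nlinarith)
    b1 (by linarith [b p hp]) (by linarith [t q' hq']) (by ring)
  rw [f_neg] at c1
  linarith

/-- Either the top row can be extended to the right or the bottom row to the left, up to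
conflicts with the opposite row. -/
lemma swap (hl : 0 < l) (hh : 0 < h) (hD : 0 ≤ D) {δ : ℝ} {T : ℕ} (hT : 1 ≤ T) (h3 : 2 * (δ + 2 * h) ≤ D)
    (h4 : 128 * (2 * T * l) ^ 2 * (δ + 2 * h) ^ 3 ≤ h ^ 4 * D) {A : Finset (ℤ × ℤ)}
    (hA : Good l s h D A) {P Q : ℤ × ℤ} (hP : P ∈ A) (hQ : Q ∈ A) (top : ∀ q ∈ A, q.2 ≤ P.2)
    (bot : ∀ q ∈ A, Q.2 ≤ q.2) (hK : D - δ ≤ h * P.2 - h * Q.2) :
    (∀ t : ℕ, t ≤ T → ∀ z ∈ A, z.2 ≠ Q.2 → Ok l s h D (P.1 + t, P.2) z) ∨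
      ∀ t : ℕ, t ≤ T → ∀ z ∈ A, z.2 ≠ P.2 → Ok l s h D (Q.1 - t, Q.2) z := by
  by_contra hc
  push Not at hc
  obtain ⟨⟨t, ht, z, hz, z1, a⟩, t', ht', z', hz', z2, b⟩ := hc
  have T1 : (1 : ℝ) ≤ T := by exact_mod_cast hT
  have t1 : l * t ≤ l * T := mul_le_mul_of_nonneg_left (by exact_mod_cast ht) hl.le
  have t2 : l * t' ≤ l * T := mul_le_mul_of_nonneg_left (by exact_mod_cast ht') hl.le
  have t3 : 0 ≤ l * t := by positivity
  have t4 : 0 ≤ l * t' := by positivity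
  have m : ∀ {a b : ℤ}, a ≤ b → h * a ≤ h * b := fun c =>
    mul_le_mul_of_nonneg_left (by exact_mod_cast c) hh.le
  have z3 := m (show Q.2 + 1 ≤ z.2 by have := bot z hz; omega)
  have z4 := m (show z'.2 + 1 ≤ P.2 by have := top z' hz'; omega)
  push_cast at z3 z4
  obtain ⟨a1, a2, -⟩ := ok_iff.1 (hA P hP z hz)
  obtain ⟨b1, -, b2⟩ := ok_iff.1 (hA Q hQ z' hz')
  obtain ⟨c1, -, c2⟩ := ok_iff.1 (hA P hP Q hQ)
  obtain ⟨-, -, d2⟩ := ok_iff.1 (hA z' hz' z hz)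
  have g := gap' (D := D) (K := h * P.2 - h * Q.2) (p := h * z.2 - h * Q.2)
    (q := h * P.2 - h * z'.2) hh (show 0 < 2 * T * l by positivity) hK
    (le_of_sq_le_sq c1 hD) h3 h4 (by linarith)
    (by linarith [m (top z hz)]) (by linarith) (by linarith [m (bot z' hz')])
  rw [show h * P.2 - h * Q.2 - (h * z.2 - h * Q.2) - (h * P.2 - h * z'.2) = h * z'.2 - h * z.2 by ring,
    show h * P.2 - h * Q.2 - (h * z.2 - h * Q.2) = h * P.2 - h * z.2 by ring,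
    show h * P.2 - h * Q.2 - (h * P.2 - h * z'.2) = -(h * Q.2 - h * z'.2) by ring, f_neg] at g
  rw [ok_iff] at a b
  simp only [X, not_and, not_le] at *
  push_cast at a b
  have a' := a a1 (by linarith)
  rcases le_or_gt (-f D (h * Q.2 - h * z'.2)) (l * (Q.1 - t') + s * Q.2 - (l * z'.1 + s * z'.2))
    with k | k
  · linarith [b b1 k]
  · linarith

/-- Moving `t` points from the left end of the bottom row to the right end of the top row. -/
lemma shift (hl : 0 < l) {A : Finset (ℤ × ℤ)} (hA : Good l s h D A) {P Q : ℤ × ℤ} (hP : P ∈ A)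
    (hQ : Q ∈ A) (PQ : P.2 ≠ Q.2) (top : ∀ q ∈ A, q.2 = P.2 → q.1 ≤ P.1)
    (bot : ∀ q ∈ A, q.2 = Q.2 → Q.1 ≤ q.1) (t : ℕ)
    (H : ∀ u : ℕ, u ≤ t → ∀ z ∈ A, z.2 ≠ Q.2 → Ok l s h D (P.1 + u, P.2) z) :
    ∃ B : Finset (ℤ × ℤ), Good l s h D B ∧ #A ≤ #B ∧ (∀ z ∈ A, z.2 = P.2 → z ∈ B) ∧
      (∀ u : ℕ, u ≤ t → (P.1 + u, P.2) ∈ B) ∧
      ∀ z ∈ B, z ∈ A ∨ (z.2 = P.2 ∧ P.1 ≤ z.1 ∧ z.1 ≤ P.1 + t) := by
  have inj : ∀ a b : ℤ, Function.Injective fun u : ℕ => (a + u, b) := fun a b u u' e => by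
    simpa using e
  let R := (range t).image fun u : ℕ => (Q.1 + u, Q.2)
  let N := (range t).image fun u : ℕ => (P.1 + 1 + u, P.2)
  have hN : ∀ z ∈ N, ∃ u : ℕ, 1 ≤ u ∧ u ≤ t ∧ z = (P.1 + u, P.2) := fun z hz => by
    obtain ⟨u, hu, rfl⟩ := mem_image.1 hz
    exact ⟨u + 1, by omega, mem_range.1 hu, by push_cast; rw [add_assoc, add_comm 1]⟩
  have k : ∀ z ∈ N, ∀ y ∈ A \ R, Ok l s h D z y := fun z hz y hy => by
    obtain ⟨u, -, hu, rfl⟩ := hN z hz
    obtain ⟨yA, yR⟩ := mem_sdiff.1 hy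
    by_cases c : y.2 = Q.2
    swap
    · exact H u hu y yA c
    have y1 : Q.1 + t ≤ y.1 := not_lt.1 fun c' => yR (mem_image.2 ⟨(y.1 - Q.1).toNat, by
      have := bot y yA c; simp; omega, Prod.ext (by have := bot y yA c; simp; omega) c.symm⟩)
    have y2 : l * (Q.1 + u) ≤ l * y.1 :=
      mul_le_mul_of_nonneg_left (by exact_mod_cast (by omega : Q.1 + u ≤ y.1)) hl.le
    obtain ⟨a1, a2, -⟩ := ok_iff.1 (hA P hP y yA)
    obtain ⟨-, -, b2⟩ := ok_iff.1 (hA P hP Q hQ)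
    have : 0 ≤ l * u := by positivity
    refine ok_iff.2 ⟨a1, ?_, ?_⟩ <;> simp only [X, c] at * <;> push_cast <;> linarith
  refine ⟨A \ R ∪ N, fun p hp q hq => ?_, ?_, fun z hz e => ?_, fun u hu => ?_, fun z hz => ?_⟩
  · rcases mem_union.1 hp with hp | hp <;> rcases mem_union.1 hq with hq | hq
    · exact hA p (mem_sdiff.1 hp).1 q (mem_sdiff.1 hq).1
    · exact (k q hq p hp).symm
    · exact k p hp q hq
    · obtain ⟨u, -, hu, rfl⟩ := hN p hp
      obtain ⟨u', -, hu', rfl⟩ := hN q hq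
      have a := H t le_rfl P hP PQ
      have b : (u : ℝ) ≤ t := by exact_mod_cast hu
      have b' : (u' : ℝ) ≤ t := by exact_mod_cast hu'
      have c : ((u : ℝ) - u') ^ 2 ≤ t ^ 2 :=
        sq_le_sq' (by linarith [u.cast_nonneg (α := ℝ)]) (by linarith [u'.cast_nonneg (α := ℝ)])
      simp only [Ok, X] at a ⊢
      push_cast at a ⊢
      nlinarith [mul_le_mul_of_nonneg_left c (sq_nonneg l)]
  · rw [card_union_of_disjoint (disjoint_left.2 fun z hz hz' => ?_), card_image_of_injective _ (inj _ _)]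
    · have := le_card_sdiff R A
      rw [card_image_of_injective _ (inj _ _)] at this
      omega
    · obtain ⟨u, u1, -, rfl⟩ := hN z hz'
      have := top _ (mem_sdiff.1 hz).1 rfl
      simp at this; omega
  · refine mem_union_left _ (mem_sdiff.2 ⟨hz, fun c => ?_⟩)
    obtain ⟨u, -, rfl⟩ := mem_image.1 c
    exact PQ e.symm
  · rcases u with _ | u
    · refine mem_union_left _ (mem_sdiff.2 ⟨by simpa using hP, fun c => ?_⟩)
      obtain ⟨u, -, e⟩ := mem_image.1 c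
      exact PQ (congrArg Prod.snd e).symm
    · exact mem_union_right _ (mem_image.2 ⟨u, mem_range.2 hu, by push_cast; rw [add_assoc, add_comm 1]⟩)
  · rcases mem_union.1 hz with hz | hz
    · exact .inl (mem_sdiff.1 hz).1
    · obtain ⟨u, -, hu, rfl⟩ := hN z hz
      exact .inr ⟨rfl, by simp, by simpa using hu⟩

lemma Ok.sub {p q : ℤ × ℤ} (a : Ok l s h D p q) (d : ℤ × ℤ) : Ok l s h D (p - d) (q - d) := by
  simp only [Ok, X, Prod.fst_sub, Prod.snd_sub] at *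
  push_cast
  convert a using 3 <;> ring

lemma Ok.neg {p q : ℤ × ℤ} (a : Ok l s h D p q) : Ok l s h D (-p) (-q) := by
  have := a.symm
  simp only [Ok, X, Prod.fst_neg, Prod.snd_neg] at *
  push_cast
  convert this using 3 <;> ring

lemma Good.neg {A : Finset (ℤ × ℤ)} (hA : Good l s h D A) : Good l s h D (A.image Neg.neg) :=
  fun p hp q hq => by
    obtain ⟨p, a, rfl⟩ := mem_image.1 hp
    obtain ⟨q, b, rfl⟩ := mem_image.1 hq
    exact (hA p a q b).neg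

/-- The square of integer points of radius `R`. -/
noncomputable def box (R : ℕ) : Finset (ℤ × ℤ) := Icc (-(R : ℤ)) R ×ˢ Icc (-(R : ℤ)) R

lemma card_box (R : ℕ) : #(box R) = (2 * R + 1) ^ 2 := by
  rw [box, card_product, Int.card_Icc, sq]
  congr 1 <;> omega

lemma exists_box (hl : 0 < l) (hh : 0 < h) (s : ℝ) : ∃ κ : ℝ, 0 < κ ∧ ∀ (D : ℝ) (R : ℕ), 0 ≤ D →
    κ * D ≤ R → ∀ p q, Ok l s h D p q → p - q ∈ box R := by
  refine ⟨1 / h + (1 + |s| / h) / l, by positivity, fun D R hD hR p q a => ?_⟩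
  have a1 : |h * p.2 - h * q.2| ≤ D :=
    abs_le_of_sq_le_sq ((le_add_of_nonneg_left (sq_nonneg _)).trans a) hD
  have a2 : |X l s p - X l s q| ≤ D :=
    abs_le_of_sq_le_sq ((le_add_of_nonneg_right (sq_nonneg _)).trans a) hD
  rw [← mul_sub, abs_mul, abs_of_pos hh, ← le_div_iff₀' hh] at a1
  have a3 : |(p.1 : ℝ) - q.1| ≤ (D + |s| * (D / h)) / l := by
    rw [le_div_iff₀' hl, ← abs_of_pos hl, ← abs_mul,
      show l * (p.1 - q.1) = X l s p - X l s q - s * (p.2 - q.2) by simp only [X]; ring]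
    refine (abs_sub _ _).trans (add_le_add a2 ?_)
    rw [abs_mul]
    exact mul_le_mul_of_nonneg_left a1 (abs_nonneg _)
  have e : (1 / h + (1 + |s| / h) / l) * D = D / h + (D + |s| * (D / h)) / l := by ring
  have b1 : 0 ≤ D / h := by positivity
  have b2 : 0 ≤ (D + |s| * (D / h)) / l := by positivity
  have c1 : |p.1 - q.1| ≤ (R : ℤ) := by exact_mod_cast (show |(p.1 : ℝ) - q.1| ≤ R by linarith)
  have c2 : |p.2 - q.2| ≤ (R : ℤ) := by exact_mod_cast (show |(p.2 : ℝ) - q.2| ≤ R by linarith)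
  exact mem_product.2 ⟨mem_Icc.2 (abs_le.1 c1), mem_Icc.2 (abs_le.1 c2)⟩

lemma card_le {R : ℕ} (hR : ∀ p q, Ok l s h D p q → p - q ∈ box R) {A : Finset (ℤ × ℤ)}
    (hA : Good l s h D A) : #A ≤ (2 * R + 1) ^ 2 := by
  rcases A.eq_empty_or_nonempty with rfl | ⟨q, hq⟩
  · simp
  rw [← card_box]
  exact card_le_card_of_injOn (· - q) (fun p hp => hR p q (hA p hp q hq)) sub_left_injective.injOn

lemma exists_ends {A : Finset (ℤ × ℤ)} (h0 : A.Nonempty) :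
    ∃ P ∈ A, ∀ q ∈ A, q.2 ≤ P.2 ∧ (q.2 = P.2 → q.1 ≤ P.1) := by
  obtain ⟨P', h1, h2⟩ := exists_max_image A Prod.snd h0
  obtain ⟨P, h3, h4⟩ := exists_max_image (A.filter fun q => q.2 = P'.2) Prod.fst
    ⟨P', mem_filter.2 ⟨h1, rfl⟩⟩
  obtain ⟨h5, h6⟩ := mem_filter.1 h3
  exact ⟨P, h5, fun q hq => ⟨h6 ▸ h2 q hq, fun e => h4 q (mem_filter.2 ⟨hq, e.trans h6⟩)⟩⟩

/-- The sets of the family: the top row is `j`, it starts at `a` and ends at `b` and contains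
`b - 1`. -/
structure Mem (B : Finset (ℤ × ℤ)) (j a b : ℤ) : Prop where
  left : (a, j) ∈ B
  right : (b, j) ∈ B
  prev : (b - 1, j) ∈ B
  bd : ∀ z ∈ B, z.2 ≤ j ∧ (z.2 = j → a ≤ z.1 ∧ z.1 ≤ b)

lemma family0 (hl : 0 < l) {A : Finset (ℤ × ℤ)} (hA : Good l s h D A) {P Q : ℤ × ℤ} (hP : P ∈ A)
    (hQ : Q ∈ A) (PQ : P.2 ≠ Q.2) (top : ∀ q ∈ A, q.2 ≤ P.2 ∧ (q.2 = P.2 → q.1 ≤ P.1))
    (bot : ∀ q ∈ A, q.2 = Q.2 → Q.1 ≤ q.1) {T n : ℕ} (h3 : 3 ≤ n) (hn : n ≤ #A)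
    (H : ∀ u : ℕ, u ≤ T → ∀ z ∈ A, z.2 ≠ Q.2 → Ok l s h D (P.1 + u, P.2) z) :
    ∃ j a b : ℤ, ∀ t < T, ∃ B, Good l s h D B ∧ #B = n ∧ Mem B j a (b + t) := by
  obtain ⟨P0, h1, h2⟩ := exists_min_image (A.filter fun q => q.2 = P.2) Prod.fst
    ⟨P, mem_filter.2 ⟨hP, rfl⟩⟩
  obtain ⟨h4, h5⟩ := mem_filter.1 h1
  have h6 := (top P0 h4).2 h5
  refine ⟨P.2, P0.1, P.1 + 1, fun t ht => ?_⟩
  obtain ⟨B, b1, b2, b3, b4, b5⟩ := shift hl hA hP hQ PQ (fun q hq => (top q hq).2) bot (t + 1)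
    fun u hu => H u (by omega)
  obtain ⟨C, c1, c2, c3⟩ := exists_subsuperset_card_eq
    (s := {(P0.1, P.2), (P.1 + 1 + t, P.2), (P.1 + 1 + t - 1, P.2)}) (t := B) (n := n)
    (by
      simp only [insert_subset_iff, singleton_subset_iff]
      refine ⟨h5 ▸ b3 P0 h4 h5, ?_, ?_⟩
      · convert b4 (t + 1) le_rfl using 2; push_cast; ring
      · convert b4 t (by omega) using 2; ring)
    (card_le_three.trans h3) (hn.trans b2)
  refine ⟨C, fun p hp q hq => b1 p (c2 hp) q (c2 hq), c3, c1 (by simp), c1 (by simp), c1 (by simp),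
    fun z hz => ?_⟩
  rcases b5 z (c2 hz) with c | c
  · refine ⟨(top z c).1, fun e => ⟨h2 z (mem_filter.2 ⟨c, e⟩), ?_⟩⟩
    have := (top z c).2 e
    omega
  · push_cast at c
    omega

/-- Many sets with the same number of points and different top rows. -/
lemma family (hl : 0 < l) (hh : 0 < h) (s : ℝ) : ∃ α : ℝ, 0 < α ∧ ∀ (D : ℝ) (T n : ℕ), 1 ≤ T → 3 ≤ n →
    α * T ^ 2 ≤ D → ∀ A0, Good l s h D A0 → #A0 = n →
    ∃ j a b : ℤ, ∀ t < T, ∃ B, Good l s h D B ∧ #B = n ∧ Mem B j a (b + t) := by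
  classical
  obtain ⟨κ, κ0, hκ⟩ := exists_box hl hh s
  refine ⟨512 * l ^ 2 * (l + 4 * h) ^ 3 / h ^ 4 + 2 * (l + 4 * h), by positivity,
    fun D T n hT hn hD A0 g0 c0 => ?_⟩
  have T1 : (1 : ℝ) ≤ T ^ 2 := one_le_pow₀ (by exact_mod_cast hT)
  have p1 : 0 ≤ 512 * l ^ 2 * (l + 4 * h) ^ 3 / h ^ 4 * T ^ 2 := by positivity
  have d1 : 2 * (l + 2 * h + 2 * h) ≤ D := by nlinarith
  have d2 : 128 * (2 * T * l) ^ 2 * (l + 2 * h + 2 * h) ^ 3 ≤ h ^ 4 * D := by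
    rw [← div_le_iff₀' (by positivity)]
    refine le_trans (le_of_eq (by ring)) ((le_add_of_nonneg_right
      (show 0 ≤ 2 * (l + 4 * h) * T ^ 2 by positivity)).trans ((add_mul _ _ _).ge.trans hD))
  have D0 : 0 ≤ D := by linarith
  have bd : BddAbove {k | ∃ A, Good l s h D A ∧ #A = k} :=
    ⟨_, by rintro _ ⟨A, a, rfl⟩; exact card_le (hκ D _ D0 (Nat.le_ceil _)) a⟩
  obtain ⟨A, hA, e⟩ := Nat.sSup_mem (s := {k | ∃ A, Good l s h D A ∧ #A = k}) ⟨n, A0, g0, c0⟩ bd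
  have mx : ∀ B, Good l s h D B → #B ≤ #A := fun B b => e ▸ le_csSup bd ⟨B, b, rfl⟩
  have nA : n ≤ #A := c0 ▸ mx A0 g0
  have h0 : A.Nonempty := card_pos.1 (by omega)
  obtain ⟨P, hP, top⟩ := exists_ends h0
  obtain ⟨Q', hQ', bot'⟩ := exists_ends (h0.image Neg.neg)
  obtain ⟨Q, hQ, rfl⟩ := mem_image.1 hQ'
  have bot : ∀ q ∈ A, Q.2 ≤ q.2 ∧ (q.2 = Q.2 → Q.1 ≤ q.1) := fun q hq => by
    simpa using bot' _ (mem_image_of_mem _ hq)
  have hK := tall hl hh (by linarith) hA (fun p hp => by_contra fun c => by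
    have := mx (insert p A) fun x hx y hy => by
      rcases mem_insert.1 hx with rfl | a <;> rcases mem_insert.1 hy with rfl | b
      exacts [Ok.refl _, hp y b, (hp x a).symm, hA x a y b]
    rw [card_insert_of_notMem c] at this
    omega) hP (fun q hq => (top q hq).1) fun q hq => (bot q hq).1
  have PQ : P.2 ≠ Q.2 := fun e => by rw [e] at hK; linarith
  rcases swap hl hh D0 hT d1 d2 hA hP hQ (fun q hq => (top q hq).1) (fun q hq => (bot q hq).1) hK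
    with H | H
  · exact family0 hl hA hP hQ PQ top (fun q hq => (bot q hq).2) hn nA H
  · refine family0 hl hA.neg hQ' (mem_image_of_mem _ hP) (by simpa using PQ.symm) bot'
      (fun q hq => ?_) hn (by rwa [card_image_of_injective _ neg_injective]) fun u hu z hz c => ?_
    · obtain ⟨q, a, rfl⟩ := mem_image.1 hq
      simpa using (top q a).2
    · obtain ⟨z, a, rfl⟩ := mem_image.1 hz
      convert (H u hu z a (by simpa using c)).neg using 1
      ext <;> simp [neg_add_eq_sub]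

/-- Translates in the family coincide. -/
lemma Mem.eq_of_add {B B' : Finset (ℤ × ℤ)} {j a b b' : ℤ} (m : Mem B j a b) (m' : Mem B' j a b')
    {d : ℤ × ℤ} (h1 : ∀ p ∈ B, p + d ∈ B') (h2 : ∀ p ∈ B', p - d ∈ B) : b = b' := by
  have a1 := m'.bd _ (h1 _ m.left)
  have a2 := m.bd _ (h2 _ m'.left)
  have a3 := m'.bd _ (h1 _ m.right)
  have a4 := m.bd _ (h2 _ m'.right)
  simp only [Prod.fst_add, Prod.snd_add, Prod.fst_sub, Prod.snd_sub] at *
  omega

end Pool.Agent.Lib.MP_509dcf_co.Rows
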