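import Pool.Agent.Lib.MP_509dcf_co.LatDefs
import Pool.Agent.Lib.MP_509dcf_co.Rows

/-!
Many non-congruent subsets of least diameter of a planar lattice.
-/

open Finset
open scoped RealInnerProductSpace

namespace Pool.Agent.Lib.MP_509dcf_co.Rows

variable {v w : E}

/-- The lattice point with given coordinates. -/
noncomputable def e (v w : E) (p : ℤ × ℤ) : E := (p.1 : ℝ) • v + (p.2 : ℝ) • w

lemma e_sub (p q : ℤ × ℤ) : e v w (p - q) = e v w p - e v w q := by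
  simp only [e, Prod.fst_sub, Prod.snd_sub, Int.cast_sub, sub_smul]; abel

lemma mem_Lat {x : E} : x ∈ Lat v w ↔ ∃ p, e v w p = x := by
  simp only [Lat, e, Int.cast_smul_eq_zsmul, Set.mem_ofPred_eq, Prod.exists, eq_comm]

lemma e_inj (h : LinearIndependent ℝ ![v, w]) : Function.Injective (e v w) := fun p q a => by
  have := LinearIndependent.pair_iff.1 h _ _ ((e_sub p q).trans (sub_eq_zero.2 a))
  exact sub_eq_zero.1 (Prod.ext (by exact_mod_cast this.1) (by exact_mod_cast this.2))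

lemma coords (h : LinearIndependent ℝ ![v, w]) : ∃ l s h : ℝ, 0 < l ∧ 0 < h ∧
    ∀ D p q, 0 ≤ D → (Ok l s h D p q ↔ dist (e v w p) (e v w q) ≤ D) := by
  have v0 : 0 < ‖v‖ := norm_pos_iff.2 (h.ne_zero 0)
  have n : ∀ a b : ℝ, ‖a • v + b • w‖ ^ 2 =
      (‖v‖ * a + ⟪v, w⟫ / ‖v‖ * b) ^ 2 + (‖w‖ ^ 2 - (⟪v, w⟫ / ‖v‖) ^ 2) * b ^ 2 := fun a b => by
    rw [norm_add_sq_real, norm_smul, norm_smul, mul_pow, mul_pow, Real.norm_eq_abs, Real.norm_eq_abs,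
      sq_abs, sq_abs, real_inner_smul_left, real_inner_smul_right]
    field_simp
    ring
  have h0 : 0 < ‖w‖ ^ 2 - (⟪v, w⟫ / ‖v‖) ^ 2 := by
    have a := n (-(⟪v, w⟫ / ‖v‖ / ‖v‖)) 1
    rw [show ‖v‖ * -(⟪v, w⟫ / ‖v‖ / ‖v‖) + ⟪v, w⟫ / ‖v‖ * 1 = 0 by field_simp; ring] at a
    have b := pow_pos (norm_pos_iff.2 fun c =>
      one_ne_zero (LinearIndependent.pair_iff.1 h (-(⟪v, w⟫ / ‖v‖ / ‖v‖)) 1 c).2) 2
    linarith
  refine ⟨‖v‖, ⟪v, w⟫ / ‖v‖, _, v0, Real.sqrt_pos.2 h0, fun D p q hD => ?_⟩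
  rw [dist_eq_norm, ← e_sub, ← sq_le_sq₀ (norm_nonneg _) hD, e, n, Ok, ← mul_sub, mul_pow,
    Real.sq_sqrt h0.le]
  simp only [X, Prod.fst_sub, Prod.snd_sub, Int.cast_sub]
  constructor <;> intro a <;> linarith

open Classical in
/-- The point set with given coordinates. -/
noncomputable def im (v w : E) (A : Finset (ℤ × ℤ)) : Finset E := A.image (e v w)

lemma mem_im {A : Finset (ℤ × ℤ)} {x : E} : x ∈ (im v w A : Set E) ↔ ∃ p ∈ A, e v w p = x := by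
  simp [im]

lemma good_iff {l s h : ℝ} (H : ∀ D p q, 0 ≤ D → (Ok l s h D p q ↔ dist (e v w p) (e v w q) ≤ D))
    {D : ℝ} (hD : 0 ≤ D) (A : Finset (ℤ × ℤ)) :
    Good l s h D A ↔ Metric.diam (im v w A : Set E) ≤ D := by
  refine ⟨fun a => Metric.diam_le_of_forall_dist_le hD fun x hx y hy => ?_, fun a p hp q hq =>
    (H D p q hD).2 ((Metric.dist_le_diam_of_mem (im v w A).finite_toSet.isBounded
      (mem_im.2 ⟨p, hp, rfl⟩) (mem_im.2 ⟨q, hq, rfl⟩)).trans a)⟩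
  obtain ⟨p, hp, rfl⟩ := mem_im.1 hx
  obtain ⟨q, hq, rfl⟩ := mem_im.1 hy
  exact (H D p q hD).1 (a p hp q hq)

lemma exists_min {l s h : ℝ} (hl : 0 < l) (hh : 0 < h)
    (H : ∀ D p q, 0 ≤ D → (Ok l s h D p q ↔ dist (e v w p) (e v w q) ≤ D)) {n : ℕ} (hn : 0 < n) :
    ∃ A : Finset (ℤ × ℤ), #A = n ∧ ∀ C : Finset (ℤ × ℤ), #C = n →
      Metric.diam (im v w A : Set E) ≤ Metric.diam (im v w C : Set E) := by
  obtain ⟨κ, κ0, hκ⟩ := exists_box hl hh s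
  obtain ⟨C0, h0⟩ := Infinite.exists_subset_card_eq (ℤ × ℤ) n
  have k : ∀ C : Finset (ℤ × ℤ), #C = n →
      Metric.diam (im v w C : Set E) ≤ Metric.diam (im v w C0 : Set E) →
      ∃ C' ∈ powersetCard n (box ⌈κ * Metric.diam (im v w C0 : Set E)⌉₊),
        Metric.diam (im v w C' : Set E) ≤ Metric.diam (im v w C : Set E) := fun C hC c => by
    obtain ⟨q, hq⟩ : C.Nonempty := card_pos.1 (hC ▸ hn)
    refine ⟨C.image (· - q), mem_powersetCard.2 ⟨fun x hx => ?_, ?_⟩,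
      (good_iff H Metric.diam_nonneg _).1 fun x hx y hy => ?_⟩
    · obtain ⟨p, hp, rfl⟩ := mem_image.1 hx
      exact hκ _ _ Metric.diam_nonneg (Nat.le_ceil _) p q
        ((good_iff H Metric.diam_nonneg _).2 c p hp q hq)
    · rw [card_image_of_injective _ sub_left_injective, hC]
    · obtain ⟨p, hp, rfl⟩ := mem_image.1 hx
      obtain ⟨p', hp', rfl⟩ := mem_image.1 hy
      exact ((good_iff H Metric.diam_nonneg _).2 le_rfl p hp p' hp').sub q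
  obtain ⟨C1, c1, c2⟩ := k C0 h0 le_rfl
  obtain ⟨A, a1, a2⟩ := exists_min_image _ (fun C => Metric.diam (im v w C : Set E)) ⟨C1, c1⟩
  refine ⟨A, (mem_powersetCard.1 a1).2, fun C hC => ?_⟩
  rcases le_total (Metric.diam (im v w C : Set E)) (Metric.diam (im v w C0 : Set E)) with c | c
  · obtain ⟨C', c3, c4⟩ := k C hC c
    exact (a2 C' c3).trans c4
  · exact ((a2 C1 c1).trans c2).trans c

lemma lin (g : E ≃ᵢ E) : ∃ L : E →ₗᵢ[ℝ] E, ∀ x y, g x - g y = L (x - y) :=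
  ⟨g.toRealAffineIsometryEquiv.linearIsometryEquiv.toLinearIsometry, fun x y =>
    (g.toRealAffineIsometryEquiv.map_vsub x y).symm⟩

lemma two_d {a b c : E} (h0 : a ≠ 0) (h1 : ⟪a, b⟫ = ⟪a, c⟫) (h2 : ‖b‖ = ‖c‖)
    (h3 : 0 ≤ a 0 * b 1 - a 1 * b 0 ↔ 0 ≤ a 0 * c 1 - a 1 * c 0) : b = c := by
  have n : ∀ x : E, ‖x‖ ^ 2 = x 0 ^ 2 + x 1 ^ 2 := fun x => by
    simp [EuclideanSpace.norm_sq_eq, Fin.sum_univ_two]
  have a0 : 0 < a 0 ^ 2 + a 1 ^ 2 := n a ▸ pow_pos (norm_pos_iff.2 h0) 2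
  have h4 : b 0 ^ 2 + b 1 ^ 2 = c 0 ^ 2 + c 1 ^ 2 := by rw [← n, ← n, h2]
  simp only [PiLp.inner_apply, Fin.sum_univ_two, RCLike.inner_apply, conj_trivial] at h1
  have h5 : (a 0 * b 1 - a 1 * b 0) ^ 2 = (a 0 * c 1 - a 1 * c 0) ^ 2 := by
    linear_combination (a 0 ^ 2 + a 1 ^ 2) * h4 -
      (b 0 * a 0 + b 1 * a 1 + (c 0 * a 0 + c 1 * a 1)) * h1
  have h6 : a 0 * b 1 - a 1 * b 0 = a 0 * c 1 - a 1 * c 0 := by
    rcases sq_eq_sq_iff_eq_or_eq_neg.1 h5 with k | k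
    · exact k
    · rcases le_or_gt 0 (a 0 * b 1 - a 1 * b 0) with k' | k'
      · linarith [h3.1 k']
      · linarith [lt_of_not_ge (mt h3.2 k'.not_ge)]
  ext i
  refine mul_left_cancel₀ a0.ne' ?_
  fin_cases i
  · simp only [Fin.zero_eta]; linear_combination a 0 * h1 - a 1 * h6
  · simp only [Fin.mk_one]; linear_combination a 1 * h1 + a 0 * h6

lemma transl (h : LinearIndependent ℝ ![v, w]) {B B' : Finset (ℤ × ℤ)} {g g' : E ≃ᵢ E}
    {L L' : E →ₗᵢ[ℝ] E} (hL : ∀ x y, g x - g y = L (x - y)) (hL' : ∀ x y, g' x - g' y = L' (x - y))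
    (hv : L v = L' v) (hw : L w = L' w) (hg : g '' (im v w B : Set E) = g' '' (im v w B' : Set E))
    {p0 : ℤ × ℤ} (h0 : p0 ∈ B) : ∃ d, (∀ p ∈ B, p + d ∈ B') ∧ ∀ p ∈ B', p - d ∈ B := by
  obtain ⟨_, hx, e0⟩ := hg.le ⟨_, mem_im.2 ⟨p0, h0, rfl⟩, rfl⟩
  obtain ⟨q0, -, rfl⟩ := mem_im.1 hx
  have k : ∀ p q, g' (e v w q) = g (e v w p) → q - q0 = p - p0 := fun p q c => by
    refine e_inj h (L'.injective ?_)
    rw [e_sub, ← hL', c, e0, hL, ← e_sub]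
    simp [e, hv, hw]
  refine ⟨q0 - p0, fun p hp => ?_, fun q hq => ?_⟩
  · obtain ⟨_, hx, c⟩ := hg.le ⟨_, mem_im.2 ⟨p, hp, rfl⟩, rfl⟩
    obtain ⟨q, hq, rfl⟩ := mem_im.1 hx
    rwa [show p + (q0 - p0) = q by linear_combination -k p q c]
  · obtain ⟨_, hx, c⟩ := hg.ge ⟨_, mem_im.2 ⟨q, hq, rfl⟩, rfl⟩
    obtain ⟨p, hp, rfl⟩ := mem_im.1 hx
    rwa [show q - (q0 - p0) = p by linear_combination k p q c.symm]

lemma pick {T c : ℕ} (r : Fin T → Fin T → Prop) [DecidableRel r] (symm : ∀ s t, r s t → r t s)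
    (hc : ∀ s, #(univ.filter fun t => r t s) ≤ c) (m : ℕ) (hT : c * m < T) :
    ∃ g : Fin m → Fin T, ∀ k l, k ≠ l → ¬ r (g k) (g l) := by
  induction m with
  | zero => exact ⟨Fin.elim0, fun k => k.elim0⟩
  | succ m ih =>
    obtain ⟨g, hg⟩ := ih (lt_of_le_of_lt (Nat.mul_le_mul_left _ m.le_succ) hT)
    obtain ⟨t, -, ht⟩ := exists_mem_notMem_of_card_lt_card
      (s := univ.biUnion fun k => univ.filter fun t => r t (g k)) (t := univ) (by
        refine (card_biUnion_le_card_mul _ _ c fun k _ => hc _).trans_lt ?_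
        simp only [card_univ, Fintype.card_fin]
        nlinarith)
    simp only [mem_biUnion, mem_univ, mem_filter, true_and, not_exists] at ht
    refine ⟨Fin.cons t g, fun k l => ?_⟩
    refine Fin.cases ?_ (fun k => ?_) k <;> refine Fin.cases ?_ (fun l => ?_) l
    · simp
    · exact fun _ => ht l
    · exact fun _ a => ht k (symm _ _ a)
    · exact fun a => hg k l fun b => a (congrArg _ b)

theorem many (h : LinearIndependent ℝ ![v, w]) : ∃ C : ℕ, ∀ m n : ℕ, C * m ^ 4 ≤ n →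
    ∃ F : Fin m → Finset E, (∀ k, IsMinIn (Lat v w) n (F k)) ∧
      ∀ k l, k ≠ l → ¬ Congr (F k) (F l) := by
  classical
  obtain ⟨l, s, h', hl, hh, H⟩ := coords h
  obtain ⟨κ, κ0, hκ⟩ := exists_box hl hh s
  obtain ⟨α, α0, hα⟩ := family hl hh s
  obtain ⟨R, hR⟩ : ∃ R : ℕ, κ * ‖v‖ ≤ R := ⟨_, Nat.le_ceil _⟩
  obtain ⟨β, hβ⟩ : ∃ β : ℕ, κ * α ≤ β := ⟨_, Nat.le_ceil _⟩
  obtain ⟨c, hc⟩ : ∃ c, c = (2 * R + 1) ^ 2 * 2 := ⟨_, rfl⟩
  refine ⟨(2 * β + 1) ^ 2 * (c + 1) ^ 4 + 3, fun m n hn => ?_⟩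
  rcases m.eq_zero_or_pos with rfl | m0
  · exact ⟨Fin.elim0, fun k => k.elim0, fun k => k.elim0⟩
  obtain ⟨T, hT⟩ : ∃ T, T = (c + 1) * m := ⟨_, rfl⟩
  have m4 : 1 ≤ m ^ 4 := Nat.one_le_pow _ _ m0
  have T1 : 1 ≤ T := hT ▸ Nat.mul_pos c.succ_pos m0
  rw [add_mul, mul_assoc, ← mul_pow, ← hT] at hn
  obtain ⟨A, hA, mn⟩ := exists_min hl hh H (show 0 < n by omega)
  obtain ⟨D, hD⟩ : ∃ D, D = Metric.diam (im v w A : Set E) := ⟨_, rfl⟩
  have D0 : 0 ≤ D := hD ▸ Metric.diam_nonneg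
  have gA := (good_iff H D0 A).2 hD.ge
  have big : α * T ^ 2 ≤ D := not_lt.1 fun c => by
    have a := card_le (hκ D (β * T ^ 2) D0 (by
      push_cast
      exact (mul_le_mul_of_nonneg_left c.le κ0.le).trans
        (by rw [← mul_assoc]; exact mul_le_mul_of_nonneg_right hβ (by positivity)))) gA
    have b : (2 * (β * T ^ 2) + 1) ^ 2 ≤ ((2 * β + 1) * T ^ 2) ^ 2 :=
      Nat.pow_le_pow_left (by nlinarith [Nat.one_le_pow 2 T T1]) 2
    rw [mul_pow, ← pow_mul T, show 2 * 2 = 4 from rfl] at b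
    omega
  obtain ⟨j, a, b, hB⟩ := hα D T n T1 (by omega) big A gA hA
  choose B g1 g2 g3 using fun t : Fin T => hB t t.2
  refine (pick (c := c) (fun s t => Congr (im v w (B s)) (im v w (B t)))
    (fun s t ⟨g, hg⟩ => ⟨g.symm, by rw [← hg, ← Set.image_comp]; simp⟩) (fun t0 => ?_) m
    (by rw [hT]; nlinarith)).elim fun g hg => ?_
  swap
  · refine ⟨fun k => im v w (B (g k)), fun k => ⟨?_, fun x hx => ?_, fun C hC hL => ?_⟩, hg⟩
    · exact (card_image_of_injective _ (e_inj h)).trans (g2 _)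
    · obtain ⟨p, -, rfl⟩ := mem_im.1 hx
      exact mem_Lat.2 ⟨p, rfl⟩
    · have e1 : im v w (C.preimage (e v w) (e_inj h).injOn) = C := by
        rw [im, image_preimage]
        exact filter_true_of_mem fun x hx => mem_Lat.1 (hL hx)
      refine ((good_iff H D0 _).1 (g1 _)).trans (hD ▸ e1 ▸ mn _ ?_)
      rw [← card_image_of_injective _ (e_inj h), ← im, e1, hC]
  have k : ∀ t, ∃ (g : E ≃ᵢ E) (L : E →ₗᵢ[ℝ] E) (u : ℤ × ℤ), (∀ x y, g x - g y = L (x - y)) ∧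
      (Congr (im v w (B t)) (im v w (B t0)) →
        g '' (im v w (B t) : Set E) = im v w (B t0) ∧ u ∈ box R ∧ L v = e v w u) := fun t => by
    by_cases c : Congr (im v w (B t)) (im v w (B t0))
    · obtain ⟨g, hg⟩ := c
      obtain ⟨L, hL⟩ := lin g
      obtain ⟨p, -, e1⟩ := mem_im.1 (hg.le ⟨_, mem_im.2 ⟨_, (g3 t).right, rfl⟩, rfl⟩)
      obtain ⟨q, -, e2⟩ := mem_im.1 (hg.le ⟨_, mem_im.2 ⟨_, (g3 t).prev, rfl⟩, rfl⟩)
      have e3 : L v = e v w (p - q) := by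
        rw [e_sub, e1, e2, hL, ← e_sub]; simp [e]
      refine ⟨g, L, p - q, hL, fun _ => ⟨hg, hκ _ _ (norm_nonneg _) hR p q
        ((H _ p q (norm_nonneg _)).2 ?_), e3⟩⟩
      rw [dist_eq_norm, ← e_sub, ← e3, L.norm_map]
    · exact ⟨.refl _, .id, 0, fun _ _ => rfl, fun a => absurd a c⟩
  choose G L u k1 k2 using k
  rw [hc, ← card_box, ← Fintype.card_bool, ← card_univ, ← card_product]
  refine card_le_card_of_injOn (fun t => (u t, decide (0 ≤ L t v 0 * L t w 1 - L t v 1 * L t w 0)))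
    (fun t ht => mem_coe.2 (mem_product.2 ⟨(k2 t (mem_filter.1 ht).2).2.1, mem_univ _⟩))
    fun t ht t' ht' e0 => ?_
  obtain ⟨a1, -, a2⟩ := k2 t (mem_filter.1 ht).2
  obtain ⟨b1, -, b2⟩ := k2 t' (mem_filter.1 ht').2
  obtain ⟨e1, e2⟩ := Prod.ext_iff.1 e0
  have hv : L t v = L t' v := by rw [a2, b2]; exact congrArg _ e1
  have hw : L t w = L t' w := two_d (a := L t v)
    (fun c => h.ne_zero 0 ((L t).injective (c.trans (map_zero _).symm)))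
    (by rw [(L t).inner_map_map, hv, (L t').inner_map_map]) (by rw [(L t).norm_map, (L t').norm_map])
    (by simpa only [decide_eq_decide, ← hv] using e2)
  obtain ⟨d, d1, d2⟩ := transl h (k1 t) (k1 t') hv hw (a1.trans b1.symm) (g3 t).left
  have := (g3 t).eq_of_add (g3 t') d1 d2
  exact Fin.ext (by omega)

end Pool.Agent.Lib.MP_509dcf_co.Rows
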