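import Mathlib

/-! Coordinates along a unit vector, packing bounds, strong convexity of discs. -/

namespace Pool.Agent.Lib.MP_509dcf_co.Layer

open Finset

abbrev E := EuclideanSpace ℝ (Fin 2)

/-- orthonormal coordinates whose first axis is `v` -/
structure Fr (v : E) (X Y : E → ℝ) : Prop where
  d : ∀ p q, dist p q ^ 2 = (X p - X q) ^ 2 + (Y p - Y q) ^ 2
  xv : ∀ p, X (p + v) = X p + 1
  yv : ∀ p, Y (p + v) = Y p
  ex : ∀ a b, ∃ p, X p = a ∧ Y p = b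

theorem dsq (p q : E) : dist p q ^ 2 = (p 0 - q 0) ^ 2 + (p 1 - q 1) ^ 2 := by
  rw [EuclideanSpace.dist_eq, Real.sq_sqrt (by positivity), Fin.sum_univ_two, Real.dist_eq,
    Real.dist_eq, sq_abs, sq_abs]

theorem fr_ex {v : E} (hv : ‖v‖ = 1) : ∃ X Y, Fr v X Y := by
  have h : v 0 ^ 2 + v 1 ^ 2 = 1 := by
    have := dsq v 0
    rw [dist_zero_right, hv] at this
    simpa using this.symm
  refine ⟨fun p => p 0 * v 0 + p 1 * v 1, fun p => p 1 * v 0 - p 0 * v 1, fun p q => ?_,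
    fun p => ?_, fun p => ?_, fun a b => ⟨!₂[a * v 0 - b * v 1, a * v 1 + b * v 0], ?_, ?_⟩⟩
  · rw [dsq]
    linear_combination (-((p 0 - q 0) ^ 2 + (p 1 - q 1) ^ 2)) * h
  · simp only [PiLp.add_apply]
    linear_combination h
  · simp only [PiLp.add_apply]
    ring
  · simp
    linear_combination a * h
  · simp
    linear_combination b * h

variable {v : E} {X Y : E → ℝ}

theorem Fr.neg (h : Fr v X Y) : Fr (-v) (fun p => -X p) Y := by
  refine ⟨fun p q => by rw [h.d]; ring, fun p => ?_, fun p => ?_, fun a b => ?_⟩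
  · have := h.xv (p + -v)
    rw [neg_add_cancel_right] at this
    linarith
  · have := h.yv (p + -v)
    rw [neg_add_cancel_right] at this
    exact this.symm
  · obtain ⟨p, h1, h2⟩ := h.ex (-a) b
    exact ⟨p, by rw [h1, neg_neg], h2⟩

theorem Fr.ax (h : Fr v X Y) (p q : E) : |X p - X q| ≤ dist p q :=
  abs_le_of_sq_le_sq' (by rw [h.d]; nlinarith) dist_nonneg |> abs_le.2

theorem Fr.ay (h : Fr v X Y) (p q : E) : |Y p - Y q| ≤ dist p q :=
  abs_le_of_sq_le_sq' (by rw [h.d]; nlinarith) dist_nonneg |> abs_le.2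

theorem Fr.ext (h : Fr v X Y) {p q : E} (h1 : X p = X q) (h2 : Y p = Y q) : p = q := by
  have := h.d p q
  rw [h1, h2, sub_self, sub_self] at this
  exact dist_eq_zero.1 (pow_eq_zero_iff two_ne_zero |>.1 (by simpa using this))

theorem Fr.le (h : Fr v X Y) {p q : E} {r : ℝ} (hr : 0 ≤ r)
    (e : (X p - X q) ^ 2 + (Y p - Y q) ^ 2 ≤ r ^ 2) : dist p q ≤ r :=
  (abs_le_of_sq_le_sq' (by rwa [h.d]) hr).2

theorem Fr.sq (h : Fr v X Y) {p q : E} {r : ℝ} (e : dist p q ≤ r) :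
    (X p - X q) ^ 2 + (Y p - Y q) ^ 2 ≤ r ^ 2 := by
  rw [← h.d]
  exact pow_le_pow_left₀ dist_nonneg e 2

/-- rows are far apart -/
theorem Fr.gap (h : Fr v X Y) {P : Set E} (per : ∀ x, x ∈ P ↔ x + v ∈ P)
    (sep : ∀ x ∈ P, ∀ y ∈ P, x ≠ y → 1 ≤ dist x y) {x y : E} (hx : x ∈ P) (hy : y ∈ P)
    (e : |Y x - Y y| < 4 / 5) : Y x = Y y := by
  have key : ∀ j : ℤ, ∃ z ∈ P, X z = X x + j ∧ Y z = Y x := fun j => by
    induction j using Int.induction_on with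
    | zero => exact ⟨x, hx, by simp, rfl⟩
    | succ j ih =>
      obtain ⟨z, h1, h2, h3⟩ := ih
      exact ⟨z + v, (per z).1 h1, by rw [h.xv, h2]; push_cast; ring, by rw [h.yv, h3]⟩
    | pred j ih =>
      obtain ⟨z, h1, h2, h3⟩ := ih
      refine ⟨z + -v, (per _).2 (by rwa [neg_add_cancel_right]), ?_, by rw [h.neg.yv, h3]⟩
      have := h.neg.xv z
      push_cast at h2 ⊢
      linarith
  obtain ⟨z, h1, h2, h3⟩ := key (round (X y - X x))
  by_cases c : z = y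
  · rw [← h3, c]
  have a := sep z h1 y hy c
  have b := abs_sub_round (X y - X x)
  have d := h.d z y
  rw [h2, h3] at d
  rw [abs_lt] at e
  rw [abs_le] at b
  nlinarith

theorem pack {S : Finset E} {z : E} {R : ℝ} (hR : 0 ≤ R)
    (sep : ∀ x ∈ S, ∀ y ∈ S, x ≠ y → 1 ≤ dist x y) (h : ∀ x ∈ S, dist x z ≤ R) :
    (S.card : ℝ) ≤ (4 * R + 2) ^ 2 := by
  have c : ∀ x ∈ S, ∀ i : Fin 2, |x i - z i| ≤ R := fun x hx i =>
    (PiLp.dist_apply_le x z i).trans (h x hx)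
  have m : ∀ x ∈ S, ∀ i : Fin 2, ⌊2 * (x i - z i)⌋ ∈ Icc ⌊-(2 * R)⌋ ⌊2 * R⌋ := fun x hx i => by
    have := abs_le.1 (c x hx i)
    exact mem_Icc.2 ⟨Int.floor_le_floor (by linarith), Int.floor_le_floor (by linarith)⟩
  have := card_le_card_of_injOn (s := S) (t := Icc ⌊-(2 * R)⌋ ⌊2 * R⌋ ×ˢ Icc ⌊-(2 * R)⌋ ⌊2 * R⌋)
    (fun x => (⌊2 * (x 0 - z 0)⌋, ⌊2 * (x 1 - z 1)⌋))
    (fun x hx => by simpa only [coe_product, Set.mem_prod, mem_coe] using ⟨m x hx 0, m x hx 1⟩)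
    (fun x hx y hy e => by
      by_contra c
      have a := sep x hx y hy c
      have b1 := abs_lt.1 (Int.abs_sub_lt_one_of_floor_eq_floor (Prod.mk.inj e).1)
      have b2 := abs_lt.1 (Int.abs_sub_lt_one_of_floor_eq_floor (Prod.mk.inj e).2)
      have d := dsq x y
      nlinarith)
  have e : ((Icc ⌊-(2 * R)⌋ ⌊2 * R⌋).card : ℝ) ≤ 4 * R + 2 := by
    have l : ⌊-(2 * R)⌋ ≤ ⌊2 * R⌋ + 1 := 
      (Int.floor_le_floor (by linarith)).trans (Int.le_add_one le_rfl)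
    have := Int.card_Icc_of_le _ _ l
    have e2 : ((Icc ⌊-(2 * R)⌋ ⌊2 * R⌋).card : ℝ) = ⌊2 * R⌋ + 1 - ⌊-(2 * R)⌋ := by
      exact_mod_cast this
    linarith [Int.floor_le (2 * R), Int.lt_floor_add_one (-(2 * R))]
  rw [card_product] at this
  rw [sq]
  refine le_trans ?_ (mul_le_mul e e (Nat.cast_nonneg _) (by linarith))
  exact_mod_cast this

theorem grid {P : Set E} {ρ : ℝ} (hρ : 1 ≤ ρ) (den : ∀ z, ∃ x ∈ P, dist z x ≤ ρ) {n : ℕ}
    (hn : 1 ≤ n) : ∃ A : Finset E, ↑A ⊆ P ∧ A.card = n ∧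
      ∀ x ∈ A, ∀ y ∈ A, dist x y ≤ 20 * ρ * √n := by
  classical
  choose g g1 g2 using den
  obtain ⟨s, s1, s2⟩ : ∃ s : ℕ, n ≤ s * s ∧ (s : ℝ) ≤ 2 * √n := by
    refine ⟨n.sqrt + 1, (Nat.lt_succ_sqrt n).le, ?_⟩
    have a : (n.sqrt : ℝ) ≤ √n := Real.nat_sqrt_le_real_sqrt
    have b : (1 : ℝ) ≤ √n := Real.one_le_sqrt.2 (by exact_mod_cast hn)
    push_cast
    linarith
  have b : (1 : ℝ) ≤ √n := Real.one_le_sqrt.2 (by exact_mod_cast hn)
  let q : ℕ × ℕ → E := fun i => !₂[3 * ρ * i.1, 3 * ρ * i.2]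
  have qd : ∀ i j, dist (q i) (q j) ^ 2 =
      9 * ρ ^ 2 * (((i.1 : ℝ) - j.1) ^ 2 + ((i.2 : ℝ) - j.2) ^ 2) := fun i j => by
    rw [dsq]
    simp [q]
    ring
  have inj : Function.Injective fun i => g (q i) := fun i j e => by
    have e : g (q i) = g (q j) := e
    have d := dist_triangle_right (q i) (q j) (g (q i))
    have d1 := g2 (q i)
    have d2 := g2 (q j)
    rw [← e] at d2
    have d3 := pow_le_pow_left₀ dist_nonneg (show dist (q i) (q j) ≤ 2 * ρ by linarith) 2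
    rw [qd] at d3
    have d4 : ((i.1 : ℝ) - j.1) ^ 2 + ((i.2 : ℝ) - j.2) ^ 2 < 1 := by
      by_contra c
      nlinarith
    have d5 : ((i.1 : ℤ) - j.1) ^ 2 + ((i.2 : ℤ) - j.2) ^ 2 < 1 := by exact_mod_cast d4
    refine Prod.ext ?_ ?_
    · have : (i.1 : ℤ) - j.1 = 0 := by nlinarith [sq_nonneg ((i.2 : ℤ) - j.2)]
      omega
    · have : (i.2 : ℤ) - j.2 = 0 := by nlinarith [sq_nonneg ((i.1 : ℤ) - j.1)]
      omega
  obtain ⟨A, a1, a2⟩ := exists_subset_card_eq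
    (s := (range s ×ˢ range s).image fun i => g (q i)) (n := n)
    (by rwa [card_image_of_injective _ inj, card_product, card_range])
  refine ⟨A, fun x hx => ?_, a2, fun x hx y hy => ?_⟩
  · obtain ⟨i, -, rfl⟩ := mem_image.1 (a1 hx)
    exact g1 _
  · obtain ⟨i, hi, rfl⟩ := mem_image.1 (a1 hx)
    obtain ⟨j, hj, rfl⟩ := mem_image.1 (a1 hy)
    simp only [mem_product, mem_range] at hi hj
    have f : ∀ {a b : ℕ}, a < s → b < s → ((a : ℝ) - b) ^ 2 ≤ (2 * √n) ^ 2 := fun {a b} h1 h2 => by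
      have : (a : ℝ) < s := by exact_mod_cast h1
      have : (b : ℝ) < s := by exact_mod_cast h2
      have := a.cast_nonneg (α := ℝ)
      have := b.cast_nonneg (α := ℝ)
      exact sq_le_sq' (by linarith) (by linarith)
    have d : dist (q i) (q j) ≤ 12 * ρ * √n := by
      refine (abs_le_of_sq_le_sq' ?_ (by positivity)).2
      rw [qd]
      nlinarith [mul_le_mul_of_nonneg_left (add_le_add (f hi.1 hj.1) (f hi.2 hj.2))
        (sq_nonneg ρ), mul_nonneg (sq_nonneg ρ) (sq_nonneg √n)]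
    have t := dist_triangle4 (g (q i)) (q i) (q j) (g (q j))
    rw [dist_comm (g (q i)) (q i)] at t
    nlinarith [g2 (q i), g2 (q j)]

/-- strong convexity of the disc -/
theorem Fr.sc (h : Fr v X Y) {p q c m : E} {D s : ℝ} (hD : 0 < D) (hp : dist p c ≤ D)
    (hq : dist q c ≤ D) (s0 : 0 ≤ s) (s1 : s ≤ 1) (hx : X m = X p + s * (X q - X p))
    (hy : Y m = Y p + s * (Y q - Y p)) :
    dist m c ≤ D - s * (1 - s) * dist p q ^ 2 / (2 * D) := by
  have t := dist_triangle_right p q c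
  have t2 := pow_le_pow_left₀ dist_nonneg (show dist p q ≤ 2 * D by linarith) 2
  obtain ⟨e, he⟩ : ∃ e, e = s * (1 - s) * dist p q ^ 2 / (2 * D) := ⟨_, rfl⟩
  have e1 : 2 * D * e = s * (1 - s) * dist p q ^ 2 := by
    rw [he]
    field_simp
  rw [← he]
  have e2 : e ≤ D := by
    refine le_of_mul_le_mul_left ?_ (show 0 < 2 * D by linarith)
    nlinarith [sq_nonneg (dist p q), sq_nonneg (2 * s - 1), mul_nonneg s0 (sub_nonneg.2 s1)]
  refine h.le (by linarith) ?_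
  rw [h.d] at e1
  rw [hx, hy]
  nlinarith [mul_le_mul_of_nonneg_left (h.sq hp) (sub_nonneg.2 s1),
    mul_le_mul_of_nonneg_left (h.sq hq) s0, sq_nonneg e]

/-- the ball hull has width at least `D` -/
theorem Fr.top (h : Fr v X Y) {A : Finset E} {D : ℝ} (hD : 0 < D) (ne : A.Nonempty)
    (hA : ∀ x ∈ A, ∀ y ∈ A, dist x y ≤ D) : ∃ u l : E, (∀ a ∈ A, dist u a ≤ D) ∧
      (∀ a ∈ A, dist l a ≤ D) ∧ X l = X u ∧ Y l = Y u - D := by
  obtain ⟨a₀, h₀⟩ := ne
  have cy : Continuous Y := (LipschitzWith.of_dist_le_mul (K := 1) fun p q => by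
    simpa [Real.dist_eq] using h.ay p q).continuous
  have cp : IsCompact {z : E | ∀ a ∈ A, dist z a ≤ D} := by
    refine (isCompact_closedBall a₀ D).of_isClosed_subset ?_ fun z hz => hz a₀ h₀
    simp only [Set.ofPred_forall]
    exact isClosed_iInter fun a => isClosed_iInter fun _ =>
      isClosed_le (by fun_prop) continuous_const
  obtain ⟨u, u1, u2⟩ := cp.exists_isMaxOn ⟨a₀, fun a ha => hA _ h₀ a ha⟩ cy.continuousOn
  obtain ⟨l, l1, l2⟩ := h.ex (X u) (Y u - D)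
  refine ⟨u, l, u1, fun a ha => h.le hD.le ?_, l1, l2⟩
  by_contra c
  rw [not_le, l1, l2] at c
  have y0 : Y a ≤ Y u := u2 (fun b hb => hA a ha b hb)
  have d := h.d u a
  obtain ⟨δ, hδ⟩ : ∃ δ, δ = dist u a ^ 2 + 2 * D * (Y a - Y u) := ⟨_, rfl⟩
  have δ0 : 0 < δ := by nlinarith
  have δ1 : δ ≤ dist u a ^ 2 := by nlinarith
  have d0 : 0 < dist u a ^ 2 := by linarith
  obtain ⟨s, hs⟩ : ∃ s, s = δ / (2 * dist u a ^ 2) := ⟨_, rfl⟩
  have s0 : 0 < s := by rw [hs]; positivity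
  have s2 : s * (2 * dist u a ^ 2) = δ := by rw [hs, div_mul_cancel₀ _ (by linarith)]
  have s1 : s ≤ 1 := by nlinarith
  obtain ⟨e, he⟩ : ∃ e, e = s * (1 - s) * dist u a ^ 2 / (2 * D) := ⟨_, rfl⟩
  have e0 : 0 ≤ e := by
    have := sub_nonneg.2 s1
    rw [he]
    positivity
  have e1 : 2 * D * e = s * (1 - s) * dist u a ^ 2 := by
    rw [he]
    field_simp
  obtain ⟨m, m1, m2⟩ := h.ex (X u + s * (X a - X u)) (Y u + s * (Y a - Y u))
  obtain ⟨z, z1, z2⟩ := h.ex (X m) (Y m + e)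
  have z3 : dist z m ≤ e := h.le e0 (by rw [z1, z2]; nlinarith)
  have z4 : Y z ≤ Y u := u2 (fun b hb => by
    have := h.sc hD (u1 b hb) (hA a ha b hb) s0.le s1 m1 m2
    linarith [dist_triangle z m b])
  rw [z2, m2] at z4
  have : s * (δ - s * dist u a ^ 2) ≤ 0 := by nlinarith
  nlinarith [mul_pos s0 δ0]

end Pool.Agent.Lib.MP_509dcf_co.Layer
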