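import Pool.Agent.Lib.MP_509dcf_co.LayerA

/-! Exchange of row ends. -/

namespace Pool.Agent.Lib.MP_509dcf_co.Layer

open Finset

theorem kth {α : Type*} [LinearOrder α] (H : Finset α) (b : α) {k : ℕ} (k0 : 1 ≤ k)
    (hk : k ≤ (H.filter (· ≤ b)).card) : ∃ q ∈ H, q ≤ b ∧ (H.filter (· ≤ q)).card = k := by
  have mx : ∀ S : Finset α, S ⊆ H → 1 ≤ S.card → (∀ x ∈ H, ∀ y ∈ S, x ≤ y → x ∈ S) →
      ∃ q ∈ S, H.filter (· ≤ q) = S := fun S s1 s2 s3 => by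
    obtain ⟨q, q1, q2⟩ := S.exists_max_image id (card_pos.1 s2)
    exact ⟨q, q1, Subset.antisymm (fun x hx => s3 x (mem_filter.1 hx).1 q q1 (mem_filter.1 hx).2)
      fun x hx => mem_filter.2 ⟨s1 hx, q2 x hx⟩⟩
  obtain ⟨q₀, a1, a2⟩ := mx (H.filter (· ≤ b)) (filter_subset _ _) (k0.trans hk)
    fun x hx y hy e => mem_filter.2 ⟨hx, e.trans (mem_filter.1 hy).2⟩
  obtain ⟨q, q1, q2⟩ := (H.filter fun q => k ≤ (H.filter (· ≤ q)).card).exists_min_image id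
    ⟨q₀, mem_filter.2 ⟨(mem_filter.1 a1).1, by rwa [a2]⟩⟩
  obtain ⟨q3, q4⟩ := mem_filter.1 q1
  refine ⟨q, q3, (q2 q₀ (mem_filter.2 ⟨(mem_filter.1 a1).1, by rwa [a2]⟩)).trans
    (mem_filter.1 a1).2, le_antisymm ?_ q4⟩
  have e : H.filter (· ≤ q) = insert q (H.filter (· < q)) := by
    ext x
    simp only [mem_filter, mem_insert, le_iff_eq_or_lt]
    constructor
    · rintro ⟨h1, h2 | h2⟩
      exacts [Or.inl h2, Or.inr ⟨h1, h2⟩]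
    · rintro (h | h)
      exacts [⟨h ▸ q3, Or.inl h⟩, ⟨h.1, Or.inr h.2⟩]
  by_contra c
  have c2 : k ≤ (H.filter (· < q)).card := by
    have := card_insert_le q (H.filter (· < q))
    rw [← e] at this
    omega
  obtain ⟨r, r1, r2⟩ := mx (H.filter (· < q)) (filter_subset _ _) (k0.trans c2)
    fun x hx y hy e => mem_filter.2 ⟨hx, e.trans_lt (mem_filter.1 hy).2⟩
  exact absurd (q2 r (mem_filter.2 ⟨(mem_filter.1 r1).1, by rwa [r2]⟩))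
    (not_le.2 (mem_filter.1 r1).2)

theorem cc {D x y l a b : ℝ} (l0 : 0 ≤ l) (l1 : l ≤ 1) (ha : a ^ 2 + x ^ 2 = D ^ 2)
    (hb : b ^ 2 + y ^ 2 = D ^ 2) :
    l * a + (1 - l) * b ≤ √(D ^ 2 - (l * x + (1 - l) * y) ^ 2) := by
  refine Real.le_sqrt_of_sq_le ?_
  nlinarith [mul_nonneg (mul_nonneg l0 (sub_nonneg.2 l1))
    (add_nonneg (sq_nonneg (a - b)) (sq_nonneg (x - y)))]

theorem sqs {D x : ℝ} (h1 : -D ≤ x) (h2 : x ≤ D) : √(D ^ 2 - x ^ 2) ^ 2 + x ^ 2 = D ^ 2 := by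
  rw [Real.sq_sqrt (by nlinarith)]
  ring

theorem cc4 {D x1 x2 x3 x4 : ℝ} (h1 : -D ≤ x1) (h2 : x1 ≤ x2) (h3 : x1 ≤ x3) (h4 : x4 ≤ D)
    (e : x1 + x4 = x2 + x3) :
    √(D ^ 2 - x1 ^ 2) + √(D ^ 2 - x4 ^ 2) ≤ √(D ^ 2 - x2 ^ 2) + √(D ^ 2 - x3 ^ 2) := by
  rcases eq_or_lt_of_le (show x1 ≤ x4 by linarith) with c | c
  · rw [show x2 = x1 by linarith, show x3 = x4 by linarith]
  obtain ⟨l, hl⟩ : ∃ l, l = (x4 - x2) / (x4 - x1) := ⟨_, rfl⟩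
  have l2 : l * (x4 - x1) = x4 - x2 := by rw [hl, div_mul_cancel₀ _ (by linarith)]
  have l0 : 0 ≤ l := by rw [hl]; exact div_nonneg (by linarith) (by linarith)
  have l1 : l ≤ 1 := by rw [hl, div_le_one (by linarith)]; linarith
  have a := sqs h1 (by linarith)
  have b := sqs (by linarith) h4
  have c1 := cc l0 l1 a b
  have c2 := cc l0 l1 b a
  rw [show l * x1 + (1 - l) * x4 = x2 by linarith] at c1
  rw [show l * x4 + (1 - l) * x1 = x3 by linarith] at c2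
  linarith

theorem second {D V κ : ℝ} (k0 : 0 ≤ κ) (h1 : D - κ ≤ V) (h2 : V ≤ D)
    (hD : 1250 * (κ + 2) ^ 3 ≤ D) :
    √(D ^ 2 - V ^ 2) + √(D ^ 2 - (V - 8 / 5) ^ 2) + 2 ≤ 2 * √(D ^ 2 - (V - 4 / 5) ^ 2) := by
  have k1 : 4 * (κ + 2) ≤ (κ + 2) ^ 3 := by nlinarith [sq_nonneg κ, mul_nonneg k0 (sq_nonneg κ)]
  have a := sqs (show -D ≤ V by linarith) h2
  have b := sqs (show -D ≤ V - 4 / 5 by linarith) (by linarith)
  have c := sqs (show -D ≤ V - 8 / 5 by linarith) (by linarith)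
  have a0 := Real.sqrt_nonneg (D ^ 2 - V ^ 2)
  have b0 := Real.sqrt_nonneg (D ^ 2 - (V - 4 / 5) ^ 2)
  have c0 := Real.sqrt_nonneg (D ^ 2 - (V - 8 / 5) ^ 2)
  generalize √(D ^ 2 - V ^ 2) = x at *
  generalize √(D ^ 2 - (V - 4 / 5) ^ 2) = y at *
  generalize √(D ^ 2 - (V - 8 / 5) ^ 2) = z at *
  have D0 : 0 < D := by linarith
  have xz : x ≤ z := abs_le_of_sq_le_sq' (by nlinarith) c0 |>.2
  have yz : y ≤ z := abs_le_of_sq_le_sq' (by nlinarith) c0 |>.2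
  have z2 : z ^ 2 ≤ 2 * D * (κ + 2) := by nlinarith
  have z0 : 0 < z := by
    rcases c0.eq_or_lt with e | e
    · rw [← e] at c
      nlinarith
    · exact e
  have z3 : z ^ 3 ≤ 0.08 * D ^ 2 := by
    refine (abs_le_of_sq_le_sq' ?_ (by positivity)).2
    have := pow_le_pow_left₀ (sq_nonneg z) z2 3
    nlinarith [mul_le_mul_of_nonneg_left hD (pow_nonneg D0.le 3)]
  have w : 0.8 * D ≤ (z - x) * z := by nlinarith [mul_nonneg (sub_nonneg.2 xz) (sub_nonneg.2 xz)]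
  have w2 := pow_le_pow_left₀ (by positivity) w 2
  have w3 : 8 * z ≤ (z - x) ^ 2 := by
    refine le_of_mul_le_mul_right ?_ (pow_pos z0 2)
    nlinarith
  by_contra c'
  have : 2 * y ≤ x + z + 2 := by linarith
  nlinarith [mul_nonneg (sub_nonneg.2 this) (show 0 ≤ 2 * y + (x + z) by linarith)]

theorem monge {D κ t1 t2 s1 s2 a1 a2 b1 b2 : ℝ} (k0 : 0 ≤ κ) (hD : 1250 * (κ + 2) ^ 3 ≤ D)
    (ht : t1 + 4 / 5 ≤ t2) (hs : s1 + 4 / 5 ≤ s2) (hV : D - κ ≤ t2 - s1)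
    (e1 : D ^ 2 < (b1 + 1 - a1) ^ 2 + (s1 - t1) ^ 2) (f1 : (b1 - a1) ^ 2 + (s1 - t1) ^ 2 ≤ D ^ 2)
    (e2 : D ^ 2 < (b2 + 1 - a2) ^ 2 + (s2 - t2) ^ 2) (f2 : (b2 - a2) ^ 2 + (s2 - t2) ^ 2 ≤ D ^ 2)
    (f3 : (b1 - a2) ^ 2 + (s1 - t2) ^ 2 ≤ D ^ 2) (f4 : (b2 - a1) ^ 2 + (s2 - t1) ^ 2 ≤ D ^ 2) :
    False := by
  have D0 : 0 ≤ D := le_trans (by positivity) hD
  have g1 : √(D ^ 2 - (t1 - s1) ^ 2) < b1 + 1 - a1 :=
    (Real.sqrt_lt' (by nlinarith)).2 (by nlinarith)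
  have g2 : √(D ^ 2 - (t2 - s2) ^ 2) < b2 + 1 - a2 :=
    (Real.sqrt_lt' (by nlinarith)).2 (by nlinarith)
  have g3 : b1 - a2 ≤ √(D ^ 2 - (t2 - s1) ^ 2) := Real.le_sqrt_of_sq_le (by nlinarith)
  have g4 : b2 - a1 ≤ √(D ^ 2 - (t1 - s2) ^ 2) := Real.le_sqrt_of_sq_le (by nlinarith)
  have v1 : t2 - s1 ≤ D := (abs_le_of_sq_le_sq' (by nlinarith) D0).2
  have v2 : -D ≤ t1 - s2 := (abs_le_of_sq_le_sq' (by nlinarith) D0).1
  have m1 := cc4 (x2 := t1 - s1) (x3 := t2 - s2 - 4 / 5) (x4 := t2 - s1 - 4 / 5) v2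
    (by linarith) (by linarith) (by linarith) (by ring)
  have m2 := cc4 (D := D) (x1 := t2 - s2 - 4 / 5) (x2 := t2 - s2) (x3 := t2 - s1 - 8 / 5)
    (x4 := t2 - s1 - 4 / 5) (by linarith) (by linarith) (by linarith) (by linarith) (by ring)
  linarith [second k0 hV v1 hD]

variable {v : E} {X Y : E → ℝ}

/-- `L t`, `R t` are the two ends of the row of `A` at height `t` -/
structure Ends (X Y : E → ℝ) (A : Finset E) (L R : ℝ → E) : Prop where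
  l : ∀ a ∈ A, L (Y a) ∈ A ∧ Y (L (Y a)) = Y a ∧ X (L (Y a)) ≤ X a
  r : ∀ a ∈ A, R (Y a) ∈ A ∧ Y (R (Y a)) = Y a ∧ X a ≤ X (R (Y a))

theorem Ends.neg {A : Finset E} {L R : ℝ → E} (h : Ends X Y A L R) :
    Ends (fun p => -X p) Y A R L :=
  ⟨fun a ha => ⟨(h.r a ha).1, (h.r a ha).2.1, neg_le_neg (h.r a ha).2.2⟩,
    fun a ha => ⟨(h.l a ha).1, (h.l a ha).2.1, neg_le_neg (h.l a ha).2.2⟩⟩

theorem ends_ex (X Y : E → ℝ) (A : Finset E) : ∃ L R, Ends X Y A L R := by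
  classical
  have key : ∀ X : E → ℝ, ∃ L : ℝ → E, ∀ a ∈ A,
      L (Y a) ∈ A ∧ Y (L (Y a)) = Y a ∧ X (L (Y a)) ≤ X a := fun X => by
    have : ∀ t : ℝ, ∃ p : E, ∀ a ∈ A, Y a = t → p ∈ A ∧ Y p = t ∧ X p ≤ X a := fun t => by
      by_cases c : (A.filter (Y · = t)).Nonempty
      · obtain ⟨p, p1, p2⟩ := exists_min_image _ X c
        exact ⟨p, fun a ha e => ⟨(mem_filter.1 p1).1, (mem_filter.1 p1).2,
          p2 a (mem_filter.2 ⟨ha, e⟩)⟩⟩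
      · exact ⟨0, fun a ha e => absurd ⟨a, mem_filter.2 ⟨ha, e⟩⟩ c⟩
    choose L hL using this
    exact ⟨L, fun a ha => hL _ a ha rfl⟩
  obtain ⟨L, hL⟩ := key X
  obtain ⟨R, hR⟩ := key fun p => -X p
  exact ⟨L, R, hL, fun a ha => ⟨(hR a ha).1, (hR a ha).2.1, neg_le_neg_iff.1 (hR a ha).2.2⟩⟩

/-- `B` is obtained from `A` by changing exactly the rows with heights in `T` and `S` -/
structure Mv (Y : E → ℝ) (P : Set E) (D : ℝ) (A B : Finset E) (T S : Finset ℝ) : Prop where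
  sub : ↑B ⊆ P
  card : B.card = A.card
  diam : ∀ x ∈ B, ∀ y ∈ B, dist x y ≤ D
  few : (A \ B).card ≤ T.card
  same : ∀ x, Y x ∉ T → Y x ∉ S → (x ∈ B ↔ x ∈ A)
  chT : ∀ t ∈ T, ∃ x, Y x = t ∧ ¬(x ∈ B ↔ x ∈ A)
  chS : ∀ t ∈ S, ∃ x, Y x = t ∧ ¬(x ∈ B ↔ x ∈ A)

theorem move (h : Fr v X Y) {P : Set E} (per : ∀ x, x ∈ P ↔ x + v ∈ P)
    (sep : ∀ x ∈ P, ∀ y ∈ P, x ≠ y → 1 ≤ dist x y) {A : Finset E} (hP : ↑A ⊆ P) {D : ℝ}
    (hA : ∀ x ∈ A, ∀ y ∈ A, dist x y ≤ D) {L R : ℝ → E} (en : Ends X Y A L R) {T S : Finset ℝ}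
    (hT : T ⊆ A.image Y) (hS : S ⊆ A.image Y) (hc : T.card = S.card)
    (nb : ∀ s ∈ S, ∀ t ∈ A.image Y, t ∉ T → dist (R s + v) (L t) ≤ D) :
    ∃ B, Mv Y P D A B T S := by
  classical
  have l : ∀ t ∈ A.image Y, L t ∈ A ∧ Y (L t) = t := fun t ht => by
    obtain ⟨a, ha, rfl⟩ := mem_image.1 ht
    exact ⟨(en.l a ha).1, (en.l a ha).2.1⟩
  have r : ∀ t ∈ A.image Y, R t ∈ A ∧ Y (R t) = t := fun t ht => by
    obtain ⟨a, ha, rfl⟩ := mem_image.1 ht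
    exact ⟨(en.r a ha).1, (en.r a ha).2.1⟩
  have ry : ∀ s ∈ S, Y (R s + v) = s := fun s hs => by rw [h.yv, (r s (hS hs)).2]
  have rn : ∀ s ∈ S, R s + v ∉ A := fun s hs c => by
    have := (en.r _ c).2.2
    rw [ry s hs, h.xv] at this
    linarith
  have c1 : (T.image L).card = T.card := card_image_of_injOn fun s hs t ht e => by
    rw [← (l s (hT hs)).2, e, (l t (hT ht)).2]
  have c2 : (S.image fun s => R s + v).card = S.card := card_image_of_injOn fun s hs t ht e => by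
    rw [← ry s hs, show R s + v = R t + v from e, ry t ht]
  have s1 : T.image L ⊆ A := fun x hx => by
    obtain ⟨t, ht, rfl⟩ := mem_image.1 hx
    exact (l t (hT ht)).1
  have D0 : ∀ s ∈ S, 0 ≤ D := fun s hs => dist_nonneg.trans (hA _ (r s (hS hs)).1 _ (r s (hS hs)).1)
  have mix : ∀ s ∈ S, ∀ a ∈ A \ T.image L, dist (R s + v) a ≤ D := fun s hs a ha => by
    obtain ⟨a1, a2⟩ := mem_sdiff.1 ha
    obtain ⟨b1, b2, b3⟩ := en.l a a1
    by_cases c : a = L (Y a)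
    · rw [c]
      exact nb s hs _ (mem_image_of_mem _ a1) fun e => a2 (c ▸ mem_image_of_mem _ e)
    have d := h.d a (L (Y a))
    have d1 := sep a (hP a1) _ (hP b1) c
    have d2 : X (L (Y a)) + 1 ≤ X a := by
      rw [b2, sub_self] at d
      nlinarith
    have d3 := h.sq (hA _ (r s (hS hs)).1 _ b1)
    have d4 := h.sq (hA _ (r s (hS hs)).1 _ a1)
    refine h.le (D0 s hs) ?_
    rw [b2] at d3
    rw [h.xv, h.yv]
    rcases le_total (X a) (X (R s) + 1) with e | e <;> nlinarith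
  refine ⟨(A \ T.image L) ∪ S.image fun s => R s + v, fun x hx => ?_, ?_, fun x hx y hy => ?_,
    ?_, fun x h1 h2 => ?_, fun t ht => ⟨L t, (l t (hT ht)).2, fun c => ?_⟩,
    fun s hs => ⟨R s + v, ry s hs, fun c => rn s hs
      (c.1 (mem_union_right _ (mem_image_of_mem _ hs)))⟩⟩
  · rcases mem_union.1 hx with c | c
    · exact hP (mem_sdiff.1 c).1
    · obtain ⟨s, hs, rfl⟩ := mem_image.1 c
      exact (per _).1 (hP (r s (hS hs)).1)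
  · rw [card_union_of_disjoint (disjoint_right.2 fun x hx c => by
      obtain ⟨s, hs, rfl⟩ := mem_image.1 hx
      exact rn s hs (mem_sdiff.1 c).1), c2, ← hc, ← c1, card_sdiff_add_card_eq_card s1]
  · rcases mem_union.1 hx with c | c <;> rcases mem_union.1 hy with c' | c'
    · exact hA _ (mem_sdiff.1 c).1 _ (mem_sdiff.1 c').1
    · obtain ⟨s, hs, rfl⟩ := mem_image.1 c'
      rw [dist_comm]
      exact mix s hs x c
    · obtain ⟨s, hs, rfl⟩ := mem_image.1 c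
      exact mix s hs y c'
    · obtain ⟨s, hs, rfl⟩ := mem_image.1 c
      obtain ⟨t, ht, rfl⟩ := mem_image.1 c'
      rw [dist_add_right]
      exact hA _ (r s (hS hs)).1 _ (r t (hS ht)).1
  · refine le_trans (card_le_card fun x hx => ?_) c1.le
    by_contra c
    exact (mem_sdiff.1 hx).2 (mem_union_left _ (mem_sdiff.2 ⟨(mem_sdiff.1 hx).1, c⟩))
  · refine ⟨fun c => ?_, fun c => mem_union_left _ (mem_sdiff.2 ⟨c, fun e => ?_⟩)⟩
    · rcases mem_union.1 c with c | c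
      · exact (mem_sdiff.1 c).1
      · obtain ⟨s, hs, rfl⟩ := mem_image.1 c
        exact absurd (by rwa [ry s hs]) h2
    · obtain ⟨t, ht, rfl⟩ := mem_image.1 e
      exact h1 (by rwa [(l t (hT ht)).2])
  · rcases mem_union.1 (c.2 (l t (hT ht)).1) with c | c
    · exact (mem_sdiff.1 c).2 (mem_image_of_mem _ ht)
    · obtain ⟨s, hs, e⟩ := mem_image.1 c
      exact rn s hs (e ▸ (l t (hT ht)).1)

theorem cut (h : Fr v X Y) {P : Set E} (per : ∀ x, x ∈ P ↔ x + v ∈ P)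
    (sep : ∀ x ∈ P, ∀ y ∈ P, x ≠ y → 1 ≤ dist x y) {A : Finset E} (hP : ↑A ⊆ P) {D κ p q : ℝ}
    (hA : ∀ x ∈ A, ∀ y ∈ A, dist x y ≤ D) (k0 : 0 ≤ κ) (hD : 1250 * (κ + 2) ^ 3 ≤ D)
    (hV : D - κ ≤ p - q)
    (hc : ((A.image Y).filter (p ≤ ·)).card = ((A.image Y).filter (· ≤ q)).card) :
    ∃ B, Mv Y P D A B ((A.image Y).filter (p ≤ ·)) ((A.image Y).filter (· ≤ q)) := by
  obtain ⟨L, R, en⟩ := ends_ex X Y A
  have D0 : 0 ≤ D := le_trans (by positivity) hD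
  by_cases c1 : ∀ s ∈ (A.image Y).filter (· ≤ q), ∀ t ∈ A.image Y,
      t ∉ (A.image Y).filter (p ≤ ·) → dist (R s + v) (L t) ≤ D
  · exact move h per sep hP hA en (filter_subset _ _) (filter_subset _ _) hc c1
  by_cases c2 : ∀ t ∈ (A.image Y).filter (p ≤ ·), ∀ s ∈ A.image Y,
      s ∉ (A.image Y).filter (· ≤ q) → dist (L t + -v) (R s) ≤ D
  · obtain ⟨B, hB⟩ := move h.neg (fun x => by rw [per (x + -v), neg_add_cancel_right]) sep hP hA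
      en.neg (filter_subset _ _) (filter_subset _ _) hc.symm c2
    exact ⟨B, hB.sub, hB.card, hB.diam, hc ▸ hB.few, fun x h1 h2 => hB.same x h2 h1, hB.chS,
      hB.chT⟩
  exfalso
  push Not at c1 c2
  obtain ⟨s1, a1, t1, a2, a3, a4⟩ := c1
  obtain ⟨t2, b1, s2, b2, b3, b4⟩ := c2
  obtain ⟨a1, a5⟩ := mem_filter.1 a1
  obtain ⟨b1, b5⟩ := mem_filter.1 b1
  have a6 : t1 < p := not_le.1 fun e => a3 (mem_filter.2 ⟨a2, e⟩)
  have b6 : q < s2 := not_le.1 fun e => b3 (mem_filter.2 ⟨b2, e⟩)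
  obtain ⟨x1, u1, rfl⟩ := mem_image.1 a1
  obtain ⟨y1, w1, rfl⟩ := mem_image.1 a2
  obtain ⟨y2, w2, rfl⟩ := mem_image.1 b1
  obtain ⟨x2, u2, rfl⟩ := mem_image.1 b2
  have g : ∀ {x y : E}, x ∈ A → y ∈ A → Y x < Y y → Y x + 4 / 5 ≤ Y y := fun hx hy e => by
    by_contra c
    exact e.ne (h.gap per sep (hP hx) (hP hy) (abs_lt.2 ⟨by linarith, by linarith⟩))
  have e1 := pow_lt_pow_left₀ a4 D0 two_ne_zero
  have e2 := pow_lt_pow_left₀ b4 D0 two_ne_zero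
  have f := fun {x y : E} (hx : x ∈ A) (hy : y ∈ A) => h.sq (hA _ (en.r x hx).1 _ (en.l y hy).1)
  have f1 := f u1 w1
  have f2 := f u2 w2
  have f3 := f u1 w2
  have f4 := f u2 w1
  have n := h.neg.xv (L (Y y2))
  rw [h.d] at e1 e2
  rw [h.xv, h.yv] at e1
  rw [h.neg.yv, neg_eq_iff_eq_neg.1 n] at e2
  simp only [(en.r _ u1).2.1, (en.r _ u2).2.1, (en.l _ w1).2.1, (en.l _ w2).2.1]
    at e1 e2 f1 f2 f3 f4
  exact monge k0 hD (g w1 w2 (by linarith)) (g u1 u2 (by linarith)) (by linarith) e1 f1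
    (by linarith) f2 f3 f4

end Pool.Agent.Lib.MP_509dcf_co.Layer
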