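import Pool.Agent.Lib.MP_509dcf_co.LayerB

/-! Counting congruence classes. -/

namespace Pool.Agent.Lib.MP_509dcf_co.Layer

open Finset

def Cong (B B' : Finset E) : Prop := ∃ f : E ≃ᵢ E, f '' (B : Set E) = (B' : Set E)

theorem Cong.symm {B B' : Finset E} (h : Cong B B') : Cong B' B := by
  obtain ⟨f, hf⟩ := h
  exact ⟨f.symm, by rw [← hf, ← Set.image_comp]; simp⟩

theorem cong_refl (B : Finset E) : Cong B B := ⟨IsometryEquiv.refl _, Set.image_id _⟩

open Classical in
theorem fam {ι : Type*} (G : Finset ι) (β : ι → Finset E) {C : ℝ}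
    (h : ∀ x ∈ G, ((G.filter fun y => Cong (β x) (β y)).card : ℝ) ≤ C) :
    ∃ F : Finset (Finset E), (∀ B ∈ F, ∃ i ∈ G, β i = B) ∧
      (∀ B ∈ F, ∀ B' ∈ F, B ≠ B' → ¬Cong B B') ∧ (G.card : ℝ) ≤ C * F.card := by
  obtain ⟨I, hI⟩ : ∃ I : Finset ι → Prop, ∀ S, I S ↔ ∀ x ∈ S, ∀ y ∈ S, x ≠ y →
    ¬Cong (β x) (β y) := ⟨_, fun _ => Iff.rfl⟩
  obtain ⟨S, s1, s2⟩ := (G.powerset.filter I).exists_max_image card ⟨∅, by simp [hI]⟩
  obtain ⟨s1, s3⟩ := mem_filter.1 s1
  rw [hI] at s3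
  rw [mem_powerset] at s1
  have cov : G ⊆ S.biUnion fun x => G.filter fun y => Cong (β x) (β y) := fun y hy => by
    by_contra c
    simp only [mem_biUnion, mem_filter, not_exists, not_and] at c
    have n : y ∉ S := fun e => c y e hy (cong_refl _)
    have := s2 (insert y S) (mem_filter.2 ⟨mem_powerset.2 (insert_subset hy s1),
      (hI _).2 fun a ha b hb e => by
        rcases mem_insert.1 ha with ha | ha <;> rcases mem_insert.1 hb with hb | hb
        · exact absurd (ha.trans hb.symm) e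
        · exact fun g => c b hb hy (ha ▸ g.symm)
        · exact fun g => c a ha hy (hb ▸ g)
        · exact s3 a ha b hb e⟩)
    rw [card_insert_of_notMem n] at this
    omega
  refine ⟨S.image β, fun B hB => ?_, fun B hB B' hB' e => ?_, ?_⟩
  · obtain ⟨i, hi, rfl⟩ := mem_image.1 hB
    exact ⟨i, s1 hi, rfl⟩
  · obtain ⟨i, hi, rfl⟩ := mem_image.1 hB
    obtain ⟨j, hj, rfl⟩ := mem_image.1 hB'
    exact s3 i hi j hj fun c => e (c ▸ rfl)
  · rw [card_image_of_injOn fun i hi j hj e => by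
      by_contra c
      exact s3 i hi j hj c (e ▸ cong_refl _)]
    have a : (G.card : ℝ) ≤ ∑ x ∈ S, ((G.filter fun y => Cong (β x) (β y)).card : ℝ) := by
      exact_mod_cast (card_le_card cov).trans card_biUnion_le
    refine a.trans ((sum_le_card_nsmul _ _ C fun x hx => h x (s1 hx)).trans (le_of_eq ?_))
    rw [nsmul_eq_mul, mul_comm]

end Pool.Agent.Lib.MP_509dcf_co.Layer
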