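import Pool.Agent.Lib.MP_509dcf_co.LayerC

/-! Exponentially many non-congruent sets of the same size and no larger diameter. -/

namespace Pool.Agent.Lib.MP_509dcf_co.Layer

open Finset

variable {v : E} {X Y : E → ℝ}

theorem icc_card {a b : ℝ} (h : a ≤ b) : ((Icc ⌊a⌋ ⌊b⌋).card : ℝ) ≤ b - a + 2 := by
  have e : ((Icc ⌊a⌋ ⌊b⌋).card : ℝ) = ⌊b⌋ + 1 - ⌊a⌋ := by
    exact_mod_cast Int.card_Icc_of_le _ _ ((Int.floor_le_floor h).trans (Int.le_add_one le_rfl))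
  linarith [Int.floor_le b, Int.lt_floor_add_one a]

theorem Fr.strip (h : Fr v X Y) {S : Finset E} {z : E} {D a b : ℝ} (D0 : 0 ≤ D) (ab : a ≤ b)
    (sep : ∀ x ∈ S, ∀ y ∈ S, x ≠ y → 1 ≤ dist x y) (h1 : ∀ x ∈ S, dist x z ≤ D)
    (h2 : ∀ x ∈ S, a ≤ Y x ∧ Y x ≤ b) : (S.card : ℝ) ≤ (4 * D + 2) * (2 * (b - a) + 2) := by
  have := card_le_card_of_injOn (s := S) (t := Icc ⌊-(2 * D)⌋ ⌊2 * D⌋ ×ˢ Icc ⌊2 * a⌋ ⌊2 * b⌋)
    (fun x => (⌊2 * (X x - X z)⌋, ⌊2 * Y x⌋))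
    (fun x hx => by
      have := abs_le.1 ((h.ax x z).trans (h1 x hx))
      have := h2 x hx
      simp only [coe_product, Set.mem_prod, mem_coe, mem_Icc]
      exact ⟨⟨Int.floor_le_floor (by linarith), Int.floor_le_floor (by linarith)⟩,
        Int.floor_le_floor (by linarith), Int.floor_le_floor (by linarith)⟩)
    (fun x hx y hy e => by
      by_contra c
      have a := sep x hx y hy c
      have b1 := abs_lt.1 (Int.abs_sub_lt_one_of_floor_eq_floor (Prod.mk.inj e).1)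
      have b2 := abs_lt.1 (Int.abs_sub_lt_one_of_floor_eq_floor (Prod.mk.inj e).2)
      have d := h.d x y
      nlinarith)
  rw [card_product] at this
  refine le_trans ?_ (mul_le_mul ((icc_card (show -(2 * D) ≤ 2 * D by linarith)).trans
    (by linarith)) ((icc_card (show 2 * a ≤ 2 * b by linarith)).trans (by linarith))
    (Nat.cast_nonneg _) (by linarith))
  exact_mod_cast this

theorem Fr.triple (h : Fr v X Y) {P : Set E} (per : ∀ x, x ∈ P ↔ x + v ∈ P)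
    (sep : ∀ x ∈ P, ∀ y ∈ P, x ≠ y → 1 ≤ dist x y) {B : Finset E} (hP : ↑B ⊆ P) {D : ℝ}
    (D0 : 0 ≤ D) (hB : ∀ x ∈ B, ∀ y ∈ B, dist x y ≤ D) (hn : (4 * D + 2) * 2 < B.card) :
    ∃ a ∈ B, ∃ b ∈ B, ∃ c ∈ B, ∀ x y, dist x a = dist y a → dist x b = dist y b →
      dist x c = dist y c → x = y := by
  obtain ⟨z, hz⟩ : B.Nonempty := card_pos.1 (by
    have : (0 : ℝ) < B.card := by linarith
    exact_mod_cast this)
  obtain ⟨a, ha, b, hb, ab, e⟩ := exists_ne_map_eq_of_card_lt_of_maps_to (s := B)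
    (t := Icc ⌊-(2 * D)⌋ ⌊2 * D⌋) (by
      have := icc_card (show -(2 * D) ≤ 2 * D by linarith)
      exact_mod_cast (show ((Icc ⌊-(2 * D)⌋ ⌊2 * D⌋).card : ℝ) < B.card by linarith))
    (f := fun x => ⌊2 * (Y x - Y z)⌋) fun x hx => by
      have := abs_le.1 ((h.ay x z).trans (hB x hx z hz))
      exact mem_coe.2 (mem_Icc.2 ⟨Int.floor_le_floor (by linarith),
        Int.floor_le_floor (by linarith)⟩)
  have b1 := abs_lt.1 (Int.abs_sub_lt_one_of_floor_eq_floor e)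
  have b2 := h.gap per sep (hP ha) (hP hb) (abs_lt.2 ⟨by linarith, by linarith⟩)
  obtain ⟨c, hc, e2⟩ : ∃ c ∈ B, Y c ≠ Y a := by
    by_contra g
    push Not at g
    have := h.strip (a := Y a) (b := Y a) D0 le_rfl
      (fun x hx y hy => sep x (hP hx) y (hP hy)) (fun x hx => hB x hx z hz)
      fun x hx => ⟨(g x hx).ge, (g x hx).le⟩
    linarith
  refine ⟨a, ha, b, hb, c, hc, fun x y ea eb ec => ?_⟩
  have fa := (h.d x a).symm.trans (ea ▸ h.d y a)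
  have fb := (h.d x b).symm.trans (eb ▸ h.d y b)
  have fc := (h.d x c).symm.trans (ec ▸ h.d y c)
  rw [← b2] at fb
  have g1 : X x = X y := sub_eq_zero.1 ((mul_eq_zero.1
    (show (X x - X y) * (X b - X a) = 0 by linarith)).resolve_right
      fun g => ab (h.ext (sub_eq_zero.1 g).symm b2))
  rw [g1] at fa fc
  exact h.ext g1 (sub_eq_zero.1 ((mul_eq_zero.1
    (show (Y x - Y y) * (Y c - Y a) = 0 by linarith)).resolve_right (sub_ne_zero.2 e2)))

/-- `B` agrees with `A` at the heights between `β + a` and `β + D - a` -/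
structure Ag (Y : E → ℝ) (P : Set E) (D β a : ℝ) (A B : Finset E) : Prop where
  sub : ↑B ⊆ P
  card : B.card = A.card
  diam : ∀ x ∈ B, ∀ y ∈ B, dist x y ≤ D
  same : ∀ x, β + a ≤ Y x → Y x ≤ β + D - a → (x ∈ B ↔ x ∈ A)

theorem step (h : Fr v X Y) {P : Set E} (per : ∀ x, x ∈ P ↔ x + v ∈ P)
    (sep : ∀ x ∈ P, ∀ y ∈ P, x ≠ y → 1 ≤ dist x y) {B : Finset E} {D β a w : ℝ} (a0 : 0 ≤ a)
    (w0 : 0 ≤ w) (hD : 1250 * (2 * (a + w) + 2) ^ 3 ≤ D) (hP : ↑B ⊆ P)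
    (hB : ∀ x ∈ B, ∀ y ∈ B, dist x y ≤ D) (lo : ∃ x ∈ B, β + a ≤ Y x ∧ Y x < β + (a + w))
    (hi : ∃ x ∈ B, β + D - (a + w) < Y x ∧ Y x ≤ β + D - a) :
    ∃ B', Ag Y P D β (a + w) B B' ∧ (∀ x ∈ B', Y x ∈ B.image Y) ∧
      ∃ x, β + a ≤ Y x ∧ Y x ≤ β + D - a ∧ ¬(x ∈ B' ↔ x ∈ B) := by
  classical
  have big : 2 * (a + w) + 2 ≤ D := by
    have := le_self_pow₀ (show 1 ≤ 2 * (a + w) + 2 by linarith) (show 3 ≠ 0 by norm_num)
    linarith
  obtain ⟨x, x1, x2, x3⟩ := lo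
  obtain ⟨y, y1, y2, y3⟩ := hi
  have n1 : ((B.image Y).filter (· < β + a)).card < ((B.image Y).filter (· ≤ Y x)).card :=
    card_lt_card ⟨fun t ht => mem_filter.2 ⟨(mem_filter.1 ht).1, by linarith [(mem_filter.1 ht).2]⟩,
      fun c => absurd (mem_filter.1 (c (mem_filter.2 ⟨mem_image_of_mem Y x1, le_rfl⟩))).2
        (not_lt.2 x2)⟩
  have n2 : ((B.image Y).filter (β + D - a < ·)).card < ((B.image Y).filter (Y y ≤ ·)).card :=
    card_lt_card ⟨fun t ht => mem_filter.2 ⟨(mem_filter.1 ht).1, by linarith [(mem_filter.1 ht).2]⟩,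
      fun c => absurd (mem_filter.1 (c (mem_filter.2 ⟨mem_image_of_mem Y y1, le_rfl⟩))).2
        (not_lt.2 y3)⟩
  obtain ⟨k, hk⟩ : ∃ k, k = min ((B.image Y).filter (· < β + a)).card
    ((B.image Y).filter (β + D - a < ·)).card + 1 := ⟨_, rfl⟩
  obtain ⟨p, p1, p2, p3⟩ := kth (α := ℝᵒᵈ) (B.image Y) (Y y) (k := k) (by omega)
    (show k ≤ ((B.image Y).filter (Y y ≤ ·)).card by omega)
  obtain ⟨q, q1, q2, q3⟩ := kth (B.image Y) (Y x) (k := k) (by omega) (by omega)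
  have p2 : Y y ≤ OrderDual.ofDual p := p2
  have p3 : ((B.image Y).filter (OrderDual.ofDual p ≤ ·)).card = k := p3
  have p1 : OrderDual.ofDual p ∈ B.image Y := p1
  generalize OrderDual.ofDual p = p at *
  obtain ⟨B', b⟩ := cut h per sep hP hB (κ := 2 * (a + w)) (p := p) (q := q)
    (by linarith) hD (by linarith) (p3.trans q3.symm)
  refine ⟨B', ⟨b.sub, b.card, b.diam, fun z h1 h2 => b.same z
    (fun c => by linarith [(mem_filter.1 c).2]) fun c => by linarith [(mem_filter.1 c).2]⟩,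
    fun z hz => ?_, ?_⟩
  · by_contra c
    exact c (mem_image_of_mem Y ((b.same z (fun g => c (mem_filter.1 g).1)
      fun g => c (mem_filter.1 g).1).1 hz))
  by_cases c : β + a ≤ q
  · obtain ⟨z, z1, z2⟩ := b.chS q (mem_filter.2 ⟨q1, le_rfl⟩)
    exact ⟨z, by linarith, by linarith, z2⟩
  by_cases c2 : p ≤ β + D - a
  · obtain ⟨z, z1, z2⟩ := b.chT p (mem_filter.2 ⟨p1, le_rfl⟩)
    exact ⟨z, by linarith, by linarith, z2⟩
  have m1 := card_le_card (monotone_filter_right (B.image Y) (p := (· ≤ q)) (q := (· < β + a))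
    fun t _ g => by linarith [not_le.1 c])
  have m2 := card_le_card (monotone_filter_right (B.image Y) (p := (p ≤ ·)) (q := (β + D - a < ·))
    fun t _ g => by linarith [not_le.1 c2])
  omega

theorem levels (h : Fr v X Y) {P : Set E} {ρ : ℝ} (hρ : 1 ≤ ρ) (den : ∀ z, ∃ x ∈ P, dist z x ≤ ρ)
    {A : Finset E} {D : ℝ} (hD : 8 * ρ ≤ D) (ne : A.Nonempty)
    (hA : ∀ x ∈ A, ∀ y ∈ A, dist x y ≤ D) (st : ∀ p ∈ P, (∀ a ∈ A, dist p a ≤ D) → p ∈ A) :
    ∃ β, (∀ a ∈ A, β ≤ Y a ∧ Y a ≤ β + D) ∧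
      ∀ t, β + 4 * ρ ≤ t → t ≤ β + D - 4 * ρ → ∃ a ∈ A, |Y a - t| ≤ ρ := by
  have Dp : 0 < D := by linarith
  obtain ⟨u, l, u1, l1, l2, l3⟩ := h.top Dp ne hA
  refine ⟨Y l, fun a ha => ⟨by linarith [abs_le.1 ((h.ay u a).trans (u1 a ha))],
    by linarith [abs_le.1 ((h.ay l a).trans (l1 a ha))]⟩, fun t d1 d2 => ?_⟩
  obtain ⟨d, rfl⟩ : ∃ d, t = Y u - d := ⟨Y u - t, by ring⟩
  obtain ⟨z, z1, z2⟩ := h.ex (X u) (Y u - d)
  obtain ⟨p, p1, p2⟩ := den z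
  refine ⟨p, st p p1 fun a ha => ?_, ?_⟩
  · have s := h.sc (s := d / D) (m := z) Dp (u1 a ha) (l1 a ha) (div_nonneg (by linarith) Dp.le)
      ((div_le_one Dp).2 (by linarith)) (by rw [z1, l2]; ring) (by rw [z2, l3]; field_simp; ring)
    have e : ρ ≤ d / D * (1 - d / D) * dist u l ^ 2 / (2 * D) := by
      rw [h.d, l2, l3, le_div_iff₀ (by linarith)]
      have : d / D * (1 - d / D) * ((X u - X u) ^ 2 + (Y u - (Y u - D)) ^ 2) =
        d * (D - d) := by field_simp; ring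
      rw [this]
      nlinarith [mul_nonneg (show 0 ≤ d - 4 * ρ by linarith) (show 0 ≤ D - 4 * ρ - d by linarith)]
    linarith [dist_triangle_left p a z]
  · rw [← z2, abs_sub_comm]
    exact (h.ay z p).trans p2

theorem ins {B : Finset E} {p : E} {D : ℝ} (D0 : 0 ≤ D) (hB : ∀ x ∈ B, ∀ y ∈ B, dist x y ≤ D)
    (hp : ∀ a ∈ B, dist p a ≤ D) : ∀ x ∈ insert p B, ∀ y ∈ insert p B, dist x y ≤ D :=
  fun x hx y hy => by
    rcases mem_insert.1 hx with hx | hx <;> rcases mem_insert.1 hy with hy | hy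
    · rwa [hx, hy, dist_self]
    · exact hx ▸ hp y hy
    · rw [hy, dist_comm]
      exact hp x hx
    · exact hB x hx y hy

theorem tree (h : Fr v X Y) {P : Set E} (per : ∀ x, x ∈ P ↔ x + v ∈ P)
    (sep : ∀ x ∈ P, ∀ y ∈ P, x ≠ y → 1 ≤ dist x y) {ρ : ℝ} (hρ : 1 ≤ ρ)
    (den : ∀ z, ∃ x ∈ P, dist z x ≤ ρ) {D β : ℝ} {N : ℕ} (N0 : 0 < N)
    (mx : ∀ B : Finset E, ↑B ⊆ P → (∀ x ∈ B, ∀ y ∈ B, dist x y ≤ D) → B.card ≤ N) (j : ℕ)
    (hD : 1250 * (2 * (12 * ρ * j) + 2) ^ 3 ≤ D) : ∀ B : Finset E, ↑B ⊆ P → B.card = N →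
      (∀ x ∈ B, ∀ y ∈ B, dist x y ≤ D) → (∀ a ∈ B, β ≤ Y a ∧ Y a ≤ β + D) →
      ∃ G : Finset (Finset E), G.card = 2 ^ j ∧ ∀ C ∈ G, Ag Y P D β (12 * ρ * j) B C := by
  classical
  induction j with
  | zero => exact fun B h1 _ h3 _ => ⟨{B}, rfl, fun C hC => by
      rw [mem_singleton.1 hC]
      exact ⟨h1, rfl, h3, fun _ _ _ => Iff.rfl⟩⟩
  | succ j ih =>
    intro B h1 h2 h3 h4
    have a0 : 0 ≤ 12 * ρ * j := by positivity
    rw [show 12 * ρ * (j + 1 : ℕ) = 12 * ρ * j + 12 * ρ by push_cast; ring] at hD ⊢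
    have big : 2 * (12 * ρ * j + 12 * ρ) + 2 ≤ D := by
      have := le_self_pow₀ (show 1 ≤ 2 * (12 * ρ * j + 12 * ρ) + 2 by linarith)
        (show 3 ≠ 0 by norm_num)
      linarith
    replace ih := ih (le_trans (mul_le_mul_of_nonneg_left
      (pow_le_pow_left₀ (by linarith) (by linarith) 3) (by norm_num)) hD)
    obtain ⟨γ, -, g⟩ := levels h hρ den (by linarith) (card_pos.1 (h2 ▸ N0)) h3 fun p p1 p2 => by
      by_contra c
      have := mx (insert p B) (by rw [coe_insert]; exact Set.insert_subset p1 h1)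
        (ins (by linarith) h3 p2)
      rw [card_insert_of_notMem c] at this
      omega
    obtain ⟨x, x1, x2⟩ := g (γ + 4 * ρ) le_rfl (by linarith)
    obtain ⟨y, y1, y2⟩ := g (γ + D - 4 * ρ) (by linarith) le_rfl
    have g1 : β - 5 * ρ ≤ γ := by linarith [abs_le.1 x2, h4 x x1]
    have g2 : γ ≤ β + 5 * ρ := by linarith [abs_le.1 y2, h4 y y1]
    obtain ⟨B', b1, b2, z, z1, z2, z3⟩ := step h per sep (β := β) a0
      (show 0 ≤ 12 * ρ by linarith) hD h1 h3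
      ((g (β + 12 * ρ * j + 10 * ρ) (by linarith) (by linarith)).imp fun x hx =>
        ⟨hx.1, by linarith [abs_le.1 hx.2], by linarith [abs_le.1 hx.2]⟩)
      ((g (β + D - 12 * ρ * j - 10 * ρ) (by linarith) (by linarith)).imp fun x hx =>
        ⟨hx.1, by linarith [abs_le.1 hx.2], by linarith [abs_le.1 hx.2]⟩)
    obtain ⟨G, c1, c2⟩ := ih B h1 h2 h3 h4
    obtain ⟨G', d1, d2⟩ := ih B' b1.sub (b1.card.trans h2) b1.diam fun a ha => by
      obtain ⟨b, hb, e⟩ := mem_image.1 (b2 a ha)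
      exact e ▸ h4 b hb
    refine ⟨G ∪ G', ?_, fun C hC => ?_⟩
    · rw [card_union_of_disjoint (disjoint_left.2 fun C e1 e2 =>
        z3 (((d2 C e2).same z z1 z2).symm.trans ((c2 C e1).same z z1 z2))), c1, d1, pow_succ,
        mul_two]
    · rcases mem_union.1 hC with e | e
      · exact ⟨(c2 C e).sub, (c2 C e).card, (c2 C e).diam,
          fun x h1 h2 => (c2 C e).same x (by linarith) (by linarith)⟩
      · exact ⟨(d2 C e).sub, (d2 C e).card.trans b1.card, (d2 C e).diam, fun x h1 h2 =>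
          ((d2 C e).same x (by linarith) (by linarith)).trans (b1.same x h1 h2)⟩

theorem classes (h : Fr v X Y) {P : Set E} (per : ∀ x, x ∈ P ↔ x + v ∈ P)
    (sep : ∀ x ∈ P, ∀ y ∈ P, x ≠ y → 1 ≤ dist x y) {G : Finset (Finset E)} {D : ℝ} {z : E}
    (D0 : 0 ≤ D) (hG : ∀ C ∈ G, ↑C ⊆ P ∧ (4 * D + 2) * 2 < C.card ∧
      (∀ x ∈ C, ∀ y ∈ C, dist x y ≤ D) ∧ z ∈ C) : ∃ F ⊆ G,
      (∀ B ∈ F, ∀ B' ∈ F, B ≠ B' → ¬Cong B B') ∧ (G.card : ℝ) ≤ (4 * D + 2) ^ 6 * F.card := by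
  classical
  obtain ⟨F, f1, f2, f3⟩ := fam G id (C := (4 * D + 2) ^ 6) fun B hB => by
    obtain ⟨b1, b2, b3, -⟩ := hG B hB
    obtain ⟨a, ha, b, hb, c, hc, t⟩ := h.triple per sep b1 D0 b3 b2
    have : ∀ C, Cong B C → ∃ f : E ≃ᵢ E, f '' (B : Set E) = (C : Set E) := fun _ g => g
    choose f hf using this
    have wc := pack (S := G.biUnion id) (z := z) D0 (fun x hx y hy => by
      obtain ⟨C, e1, e2⟩ := mem_biUnion.1 hx
      obtain ⟨C', e3, e4⟩ := mem_biUnion.1 hy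
      exact sep x ((hG C e1).1 e2) y ((hG C' e3).1 e4)) fun x hx => by
        obtain ⟨C, e1, e2⟩ := mem_biUnion.1 hx
        exact (hG C e1).2.2.1 x e2 z (hG C e1).2.2.2
    have mW : ∀ C ∈ G, ∀ g : Cong B C, ∀ a ∈ B, f C g a ∈ G.biUnion id := fun C hC g a ha =>
      mem_biUnion.2 ⟨C, hC, by
        rw [id, ← mem_coe, ← hf C g]
        exact Set.mem_image_of_mem _ ha⟩
    have := card_le_card_of_injOn (s := G.filter fun C => Cong B C)
      (t := G.biUnion id ×ˢ G.biUnion id ×ˢ G.biUnion id)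
      (fun C => if g : Cong B C then (f C g a, f C g b, f C g c) else 0)
      (fun C hC => by
        obtain ⟨hC, g⟩ := mem_filter.1 hC
        simp only [dif_pos g, coe_product, Set.mem_prod, mem_coe]
        exact ⟨mW C hC g a ha, mW C hC g b hb, mW C hC g c hc⟩)
      (fun k hk k' hk' e => by
        obtain ⟨-, g⟩ := mem_filter.1 hk
        obtain ⟨-, g'⟩ := mem_filter.1 hk'
        simp only [dif_pos g, dif_pos g', Prod.mk.injEq] at e
        have z : ∀ x y, f k g y = f k' g' y →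
            dist ((f k' g').symm (f k g x)) y = dist x y := fun x y e => by
          rw [← (f k' g').dist_eq, IsometryEquiv.apply_symm_apply, ← e, (f k g).dist_eq]
        have e2 : ∀ x, f k g x = f k' g' x := fun x => by
          rw [← (f k' g').apply_symm_apply (f k g x),
            t _ _ (z x a e.1) (z x b e.2.1) (z x c e.2.2)]
        refine coe_injective ?_
        show (k : Set E) = k'
        rw [← hf k g, ← hf k' g', funext e2])
    rw [card_product, card_product] at this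
    calc _ ≤ ((G.biUnion id).card : ℝ) ^ 3 := by
          rw [pow_three]
          exact_mod_cast this
      _ ≤ ((4 * D + 2) ^ 2) ^ 3 := pow_le_pow_left₀ (Nat.cast_nonneg _) wc 3
      _ = _ := by ring
  refine ⟨F, fun C hC => ?_, f2, f3⟩
  obtain ⟨k, hk, rfl⟩ := f1 C hC
  exact hk

theorem core (h : Fr v X Y) {P : Set E} (per : ∀ x, x ∈ P ↔ x + v ∈ P)
    (sep : ∀ x ∈ P, ∀ y ∈ P, x ≠ y → 1 ≤ dist x y) {ρ : ℝ} (hρ : 1 ≤ ρ)
    (den : ∀ z, ∃ x ∈ P, dist z x ≤ ρ) {A : Finset E} (hP : ↑A ⊆ P) {D : ℝ}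
    (hA : ∀ x ∈ A, ∀ y ∈ A, dist x y ≤ D) {j : ℕ} (j1 : 1 ≤ j)
    (hD : 1250 * (2 * (12 * ρ * j) + 2) ^ 3 ≤ D)
    (hn : 2 * ((4 * D + 2) * (2 * (12 * ρ * j) + 2)) < A.card) : ∃ F : Finset (Finset E),
      (∀ B ∈ F, ↑B ⊆ P ∧ B.card = A.card ∧ ∀ x ∈ B, ∀ y ∈ B, dist x y ≤ D) ∧
      (∀ B ∈ F, ∀ B' ∈ F, B ≠ B' → ¬Cong B B') ∧ (2 : ℝ) ^ j ≤ (4 * D + 2) ^ 6 * F.card := by
  classical
  have j2 : (1 : ℝ) ≤ j := by exact_mod_cast j1
  obtain ⟨a, ha⟩ : ∃ a, a = 12 * ρ * j := ⟨_, rfl⟩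
  have a1 : 12 * ρ ≤ a := by rw [ha]; nlinarith
  have big : 2 * a + 2 ≤ D := by
    have := le_self_pow₀ (show 1 ≤ 2 * a + 2 by linarith) (show 3 ≠ 0 by norm_num)
    rw [← ha] at hD
    linarith
  have D0 : 0 ≤ D := by linarith
  have p0 : (4 * D + 2) * 2 ≤ (4 * D + 2) * (2 * a + 2) := by nlinarith
  rw [← ha] at hn
  have bd : BddAbove {n | ∃ B : Finset E, ↑B ⊆ P ∧ (∀ x ∈ B, ∀ y ∈ B, dist x y ≤ D) ∧
      B.card = n} := ⟨⌈(4 * D + 2) ^ 2⌉₊, by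
    rintro n ⟨B, b1, b2, rfl⟩
    rcases B.eq_empty_or_nonempty with e | ⟨z, hz⟩
    · simp [e]
    · exact_mod_cast (pack D0 (fun x hx y hy => sep x (b1 hx) y (b1 hy))
        fun x hx => b2 x hx z hz).trans (Nat.le_ceil _)⟩
  obtain ⟨B, b1, b2, b3⟩ := Nat.sSup_mem (Set.nonempty_of_mem (x := A.card) (by exact ⟨A, hP, hA, rfl⟩)) bd
  have mx : ∀ C : Finset E, ↑C ⊆ P → (∀ x ∈ C, ∀ y ∈ C, dist x y ≤ D) → C.card ≤ B.card :=
    fun C c1 c2 => b3 ▸ le_csSup bd ⟨C, c1, c2, rfl⟩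
  have n0 : 0 < A.card := by
    have : (0 : ℝ) < A.card := by linarith
    exact_mod_cast this
  have N0 := n0.trans_le (mx A hP hA)
  obtain ⟨β, l1, -⟩ := levels h hρ den (by linarith) (card_pos.1 N0) b2 fun p p1 p2 => by
    by_contra c
    have := mx (insert p B) (by rw [coe_insert]; exact Set.insert_subset p1 b1) (ins D0 b2 p2)
    rw [card_insert_of_notMem c] at this
    omega
  obtain ⟨G, g1, g2⟩ := tree h per sep hρ den N0 mx j hD B b1 rfl b2 l1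
  rw [← ha] at g2
  obtain ⟨z₀, h₀⟩ := card_pos.1 N0
  have st : ∀ (S : Finset E) (s : ℝ), S ⊆ B → (∀ x ∈ S, s ≤ Y x ∧ Y x ≤ s + a) →
      (S.card : ℝ) ≤ (4 * D + 2) * (2 * a + 2) := fun S s s1 s2 => by
    have := h.strip D0 (show s ≤ s + a by linarith)
      (fun x hx y hy => sep x (b1 (s1 hx)) y (b1 (s1 hy))) (fun x hx => b2 x (s1 hx) z₀ h₀) s2
    rwa [add_sub_cancel_left] at this
  have o1 : (B.filter (Y · < β + a) ∪ B.filter (β + D - a < Y ·)).card < A.card := by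
    have e1 := st (B.filter (Y · < β + a)) β (filter_subset _ _) fun x hx =>
      ⟨(l1 x (mem_filter.1 hx).1).1, (mem_filter.1 hx).2.le⟩
    have e2 := st (B.filter (β + D - a < Y ·)) (β + D - a) (filter_subset _ _) fun x hx =>
      ⟨(mem_filter.1 hx).2.le, by linarith [(l1 x (mem_filter.1 hx).1).2]⟩
    have e3 : (((B.filter (Y · < β + a)).card + (B.filter (β + D - a < Y ·)).card : ℕ) : ℝ) <
      A.card := by push_cast; linarith
    exact (card_union_le _ _).trans_lt (by exact_mod_cast e3)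
  obtain ⟨A', s1, s2, s3⟩ := exists_subsuperset_card_eq
    (union_subset (filter_subset _ _) (filter_subset _ _)) o1.le (mx A hP hA)
  have mid : ∀ x ∈ B, x ∉ B.filter (Y · < β + a) ∪ B.filter (β + D - a < Y ·) → ∀ C ∈ G, x ∈ C :=
    fun x hx c C hC => ((g2 C hC).same x
      (not_lt.1 fun e => c (mem_union_left _ (mem_filter.2 ⟨hx, e⟩)))
      (not_lt.1 fun e => c (mem_union_right _ (mem_filter.2 ⟨hx, e⟩)))).2 hx
  have zs : ∀ C ∈ G, B \ A' ⊆ C := fun C hC x hx =>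
    mid x (mem_sdiff.1 hx).1 (fun c => (mem_sdiff.1 hx).2 (s1 c)) C hC
  obtain ⟨z, z1, z2⟩ := exists_mem_notMem_of_card_lt_card (s3 ▸ o1)
  have cd : ∀ C ∈ G, (C \ (B \ A')).card = A.card := fun C hC => by
    have e1 := card_sdiff_add_card_eq_card (zs C hC)
    have e2 := card_sdiff_add_card_eq_card s2
    have e3 := (g2 C hC).card
    omega
  have pr : ∀ C' ∈ G.image (· \ (B \ A')), ↑C' ⊆ P ∧ C'.card = A.card ∧
      (∀ x ∈ C', ∀ y ∈ C', dist x y ≤ D) ∧ z ∈ C' := fun C' hC' => by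
    obtain ⟨C, hC, rfl⟩ := mem_image.1 hC'
    exact ⟨(coe_subset.2 sdiff_subset).trans (g2 C hC).sub, cd C hC,
      fun x hx y hy => (g2 C hC).diam x (mem_sdiff.1 hx).1 y (mem_sdiff.1 hy).1,
      mem_sdiff.2 ⟨mid z (s2 z1) z2 C hC, fun c => (mem_sdiff.1 c).2 z1⟩⟩
  obtain ⟨F, f1, f2, f3⟩ := classes h per sep (G := G.image (· \ (B \ A'))) (z := z) D0
    fun C hC => ⟨(pr C hC).1, by rw [(pr C hC).2.1]; linarith, (pr C hC).2.2⟩
  rw [card_image_of_injOn fun C hC C' hC' e => by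
    rw [← sdiff_union_of_subset (zs C hC), show C \ (B \ A') = C' \ (B \ A') from e,
      sdiff_union_of_subset (zs C' hC')], g1] at f3
  exact ⟨F, fun C hC => ⟨(pr C (f1 hC)).1, (pr C (f1 hC)).2.1, (pr C (f1 hC)).2.2.1⟩, f2,
    by exact_mod_cast f3⟩

theorem mainExp (ρ : ℝ) : ∃ C : ℕ, ∀ (P : Set E) (v : E), ‖v‖ = 1 → (∀ x, x ∈ P ↔ x + v ∈ P) →
    (∀ x ∈ P, ∀ y ∈ P, x ≠ y → 1 ≤ dist x y) → (∀ z, ∃ x ∈ P, dist z x ≤ ρ) →
    ∀ (A : Finset E) (k : ℕ), ↑A ⊆ P → C * k ^ 6 ≤ A.card → ∃ F : Finset (Finset E),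
      2 ^ k ≤ F.card ∧
      (∀ B ∈ F, ↑B ⊆ P ∧ B.card = A.card ∧ Metric.diam (B : Set E) ≤ Metric.diam (A : Set E)) ∧
      ∀ B ∈ F, ∀ B' ∈ F, B ≠ B' → ¬Cong B B' := by
  classical
  obtain ⟨r, r1, r2⟩ : ∃ r, 1 ≤ r ∧ ρ ≤ r := ⟨max 1 ρ, le_max_left _ _, le_max_right _ _⟩
  obtain ⟨c, hc⟩ : ∃ c, c = 10 ^ 9 * r ^ 3 := ⟨_, rfl⟩
  have r3 : r ^ 2 ≤ r ^ 3 := pow_le_pow_right₀ r1 (by norm_num)
  have r4 : 1 ≤ r ^ 2 := one_le_pow₀ r1
  have c0 : 1 ≤ c := by linarith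
  obtain ⟨L, hL⟩ : ∃ L : ℕ, ∀ i ≥ L, (82 * r * c * 64) ^ 6 * (i : ℝ) ^ 18 ≤ 2 ^ i := by
    have t := (tendsto_pow_const_div_const_pow_of_one_lt 18 (one_lt_two (α := ℝ))).const_mul
      ((82 * r * c * 64) ^ 6)
    rw [mul_zero] at t
    obtain ⟨L, hL⟩ := Filter.eventually_atTop.1 (t.eventually_le_const one_pos)
    exact ⟨L, fun i hi => by
      have := hL i hi
      rwa [← mul_div_assoc, div_le_one (by positivity)] at this⟩
  refine ⟨⌈(c * (2 * (L + 1)) ^ 3) ^ 2⌉₊, fun P v hv per sep den A k hP hk => ?_⟩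
  have den : ∀ z, ∃ x ∈ P, dist z x ≤ r := fun z => (den z).imp fun x h => ⟨h.1, h.2.trans r2⟩
  obtain ⟨X, Y, h⟩ := fr_ex hv
  rcases Nat.eq_zero_or_pos k with rfl | k0
  · exact ⟨{A}, le_rfl, by simpa using hP, by simp⟩
  have m0 := Real.sqrt_nonneg (A.card : ℝ)
  have hm := Real.sq_sqrt (Nat.cast_nonneg (α := ℝ) A.card)
  have sm : c * (2 * ((L + 1) * k : ℕ)) ^ 3 ≤ √(A.card : ℝ) := by
    refine Real.le_sqrt_of_sq_le (le_trans ?_ (Nat.cast_le.2 hk))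
    push_cast
    calc _ = (c * (2 * (L + 1)) ^ 3) ^ 2 * (k : ℝ) ^ 6 := by ring
      _ ≤ _ := mul_le_mul_of_nonneg_right (Nat.le_ceil _) (by positivity)
  have ex : ∃ i : ℕ, √(A.card : ℝ) < c * (2 * ((i : ℝ) + 1)) ^ 3 := by
    obtain ⟨K, hK⟩ := exists_nat_gt √(A.card : ℝ)
    have := le_self_pow₀ (show (1 : ℝ) ≤ 2 * (K + 1) by linarith) (show 3 ≠ 0 by norm_num)
    exact ⟨K, by nlinarith⟩
  have i1 := Nat.find_spec ex
  have i0 : (L + 1) * k ≤ Nat.find ex := by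
    by_contra e
    have : (Nat.find ex : ℝ) + 1 ≤ ((L + 1) * k : ℕ) := by exact_mod_cast not_le.1 e
    have := mul_le_mul_of_nonneg_left (pow_le_pow_left₀ (by positivity)
      (mul_le_mul_of_nonneg_left this (show (0 : ℝ) ≤ 2 by norm_num)) 3) (show 0 ≤ c by linarith)
    linarith
  have i3 : L + 1 ≤ Nat.find ex := le_trans (Nat.le_mul_of_pos_right _ k0) i0
  have i4 : k ≤ Nat.find ex := le_trans (Nat.le_mul_of_pos_left _ (by omega)) i0
  have i2 := Nat.find_min ex (m := Nat.find ex - 1) (by omega)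
  rw [Nat.cast_sub (by omega), Nat.cast_one, sub_add_cancel, not_lt] at i2
  generalize Nat.find ex = i at *
  have i5 : (1 : ℝ) ≤ i := by exact_mod_cast (show 1 ≤ i by omega)
  obtain ⟨w, hw⟩ : ∃ w, w = r * (2 * i) := ⟨_, rfl⟩
  have w1 : r ≤ w := by nlinarith
  have w2 : w ^ 2 ≤ w ^ 3 := pow_le_pow_right₀ (by linarith) (by norm_num)
  have w3 : r * w ≤ w ^ 2 := by nlinarith
  have w4 : 1 ≤ r * w := by nlinarith
  rw [hc, mul_assoc, ← mul_pow, ← hw] at i2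
  have n1 : 1 ≤ A.card := by
    have : (1 : ℝ) ≤ A.card := by nlinarith
    exact_mod_cast this
  obtain ⟨A', D, a1, a2, a3, D1, D2⟩ : ∃ (A' : Finset E) (D : ℝ), ↑A' ⊆ P ∧ A'.card = A.card ∧
      (∀ x ∈ A', ∀ y ∈ A', dist x y ≤ D) ∧ D ≤ Metric.diam (A : Set E) ∧
      D ≤ 20 * r * √(A.card : ℝ) := by
    rcases le_total (Metric.diam (A : Set E)) (20 * r * √(A.card : ℝ)) with e | e
    · exact ⟨A, _, hP, rfl, fun x hx y hy =>
        Metric.dist_le_diam_of_mem A.finite_toSet.isBounded hx hy, le_rfl, e⟩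
    · obtain ⟨A', b1, b2, b3⟩ := grid r1 den n1
      exact ⟨A', _, b1, b2, b3, e, le_rfl⟩
  generalize √(A.card : ℝ) = m at *
  obtain ⟨a₀, h₀⟩ := card_pos.1 (a2 ▸ n1 : 0 < A'.card)
  have D0 : 0 ≤ D := dist_nonneg.trans (a3 _ h₀ _ h₀)
  have D3 : m ≤ 4 * D + 2 := (abs_le_of_sq_le_sq' (by
    rw [hm, ← a2]
    exact pack D0 (fun x hx y hy => sep x (a1 hx) y (a1 hy)) fun x hx => a3 x hx a₀ h₀)
    (by linarith)).2
  have D4 : 4 * D + 2 ≤ 82 * r * m := by nlinarith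
  have e : 12 * r * ((2 * i : ℕ) : ℝ) = 12 * w := by rw [hw]; push_cast; ring
  obtain ⟨F, f1, f2, f3⟩ := core h per sep r1 den a1 a3 (j := 2 * i) (by omega) (by
    have := pow_le_pow_left₀ (by linarith) (show 2 * (12 * w) + 2 ≤ 26 * w by linarith) 3
    rw [e]
    linarith) (by
    have := mul_le_mul D4 (show 2 * (12 * w) + 2 ≤ 26 * w by linarith) (by linarith)
      (by positivity)
    rw [e, a2, ← hm]
    nlinarith)
  refine ⟨F, ?_, fun B hB => ⟨(f1 B hB).1, (f1 B hB).2.1.trans a2,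
    (Metric.diam_le_of_forall_dist_le D0 (f1 B hB).2.2).trans D1⟩, f2⟩
  have b1 := pow_le_pow_left₀ (by linarith) (show 2 * ((i : ℝ) + 1) ≤ 4 * i by linarith) 3
  have b2 : 4 * D + 2 ≤ 82 * r * c * 64 * i ^ 3 := by
    have := mul_le_mul_of_nonneg_left (i1.le.trans (mul_le_mul_of_nonneg_left b1 (by linarith)))
      (show 0 ≤ 82 * r by linarith)
    linarith
  have b3 := pow_le_pow_left₀ (by linarith) b2 6
  rw [mul_pow, ← pow_mul] at b3
  have b4 := f3.trans (mul_le_mul_of_nonneg_right (b3.trans (hL i (by omega)))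
    (Nat.cast_nonneg _))
  rw [two_mul, pow_add] at b4
  have b5 : 2 ^ i ≤ F.card := by exact_mod_cast le_of_mul_le_mul_left b4 (by positivity)
  exact (Nat.pow_le_pow_right two_pos i4).trans b5

end Pool.Agent.Lib.MP_509dcf_co.Layer
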